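import Pool.Agent.H861R4.IM.Defs

/-!
# BX: the event `b_X` is shallow after a restriction
-/

set_option autoImplicit false

namespace Pool.Agent.H861R4.IM

open Pool.Agent.NPC Finset H568R2 Pool.Agent.H676 Pool.Agent.H620R2.Gauge MeasureTheory

namespace BXx

variable {I : Type} [Fintype I] [DecidableEq I]

theorem dtr_upd {t : ℕ} {g : (I → Bool) → Bool} (h : DTr t g) (i : I) (b : Bool) :
    DTr t (fun x => g (Function.update x i b)) := by
  have h1 := DTr.rs (ρ := (fun j => if j = i then some b else none : Restr I)) h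
  refine (congrArg (DTr t) (funext fun x => ?_)).mp h1
  show g (ov (fun j => if j = i then some b else none : Restr I) x) = g (Function.update x i b)
  congr 1
  funext j
  unfold ov
  by_cases hj : j = i
  · subst hj
    simp
  · rw [Function.update_of_ne hj]
    simp [hj]

theorem dtr_and {s t : ℕ} : ∀ {f g : (I → Bool) → Bool}, DTr s f → DTr t g →
    DTr (s + t) (fun x => f x && g x) := by
  have hconst : ∀ {r : ℕ} {f g : (I → Bool) → Bool}, (∃ c, ∀ x, f x = c) → DTr t g → t ≤ r →
      DTr r (fun x => f x && g x) := by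
    rintro r f g ⟨c, hc⟩ hg hr
    cases c with
    | false => exact DTr.const ⟨false, fun x => by rw [hc x]; rfl⟩
    | true =>
      refine (congrArg (DTr r) (funext fun x => ?_)).mp (hg.mono hr)
      rw [hc x]
      rfl
  induction s with
  | zero =>
    intro f g hf hg
    exact hconst hf hg (by omega)
  | succ s ih =>
    intro f g hf hg
    rcases hf with hf | ⟨i, hi⟩
    · exact hconst hf hg (by omega)
    · have e : s + 1 + t = (s + t) + 1 := by omega
      rw [e]
      exact Or.inr ⟨i, fun b => ih (hi b) (dtr_upd hg i b)⟩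

theorem dtr_all {t : ℕ} (h : ℕ → (I → Bool) → Bool) (X : Finset ℕ) :
    (∀ i ∈ X, DTr t (h i)) → DTr (X.card * t) (fun x => decide (∀ i ∈ X, h i x = true)) := by
  induction X using Finset.induction_on with
  | empty =>
    intro _
    exact DTr.const ⟨true, fun x => by simp⟩
  | insert a X ha ih =>
    intro hX
    have h1 := dtr_and (hX a (Finset.mem_insert_self a X))
      (ih (fun i hi => hX i (Finset.mem_insert_of_mem hi)))
    rw [Finset.card_insert_of_notMem ha]
    have e : (X.card + 1) * t = t + X.card * t := by ring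
    rw [e]
    refine (congrArg (DTr _) (funext fun x => ?_)).mp h1
    rw [Bool.eq_iff_iff]
    simp

end BXx

theorem t_BX (h : St_OR) : St_BX := by
  classical
  intro I _ _ t n K i₀ q q₁ δ X f ht hq hq3 hq1 hq11 hXne hXK hX hn hδ
  set W : Finset ℕ := Finset.Ico i₀ (X.sup id + 1) with hW
  set W' : Finset ℕ := (Finset.Ico i₀ (X.sup id)) \ X with hW'
  have hsub : W' ⊆ W := by
    intro i hi
    rw [hW', Finset.mem_sdiff, Finset.mem_Ico] at hi
    rw [hW, Finset.mem_Ico]
    omega
  have hXW : X ⊆ W := by
    intro i hi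
    rw [hW, Finset.mem_Ico]
    have h1 := hX i hi
    have h2 : i ≤ X.sup id := Finset.le_sup (f := id) hi
    omega
  have h1 := h I inferInstance inferInstance t n q q₁ δ W W' f ht hq hq3 hq1 hq11 (by
    intro i hi
    rw [hW, Finset.mem_Ico] at hi
    omega) hsub (by convert hδ)
  refine le_trans (Ex_mono ?_ ?_) h1
  · intro a
    refine wq_nonneg (by positivity) ?_ a
    calc q₁ * q ≤ 1 * (1 / 3) := mul_le_mul hq11 hq3 hq zero_le_one
      _ ≤ 1 := by norm_num
  · intro ρ
    by_cases hg : (∀ i ∈ W, DTr t (rs (f i) ρ)) ∧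
        DTr t (rs (fun a => decide (∃ i ∈ W', f i a = true)) ρ)
    · have hbx : DTr ((K + 1) * t) (rs (bX f i₀ X) ρ) := by
        have h2 := BXx.dtr_all (fun i => rs (f i) ρ) X (fun i hi => hg.1 i (hXW hi))
        have h3 := BXx.dtr_and h2 (DTr.comp (fun b => !b) hg.2)
        have h4 : X.card * t + t ≤ (K + 1) * t := by
          have : (X.card + 1) * t ≤ (K + 1) * t := Nat.mul_le_mul_right t (by omega)
          calc X.card * t + t = (X.card + 1) * t := by ring
            _ ≤ _ := this
        refine (congrArg (DTr _) (funext fun x => ?_)).mp (h3.mono h4)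
        show (decide (∀ i ∈ X, f i (ov ρ x) = true) && !(decide (∃ i ∈ W', f i (ov ρ x) = true))) =
          bX f i₀ X (ov ρ x)
        unfold bX
        rw [Bool.eq_iff_iff]
        simp only [Bool.and_eq_true, decide_eq_true_eq, Bool.not_eq_true', decide_eq_false_iff_not]
        constructor
        · rintro ⟨h5, h6⟩
          refine ⟨h5, fun i hi hiX => ?_⟩
          by_contra h7
          rw [Bool.not_eq_false] at h7
          exact h6 ⟨i, by rw [hW', Finset.mem_sdiff]; exact ⟨hi, hiX⟩, h7⟩
        · rintro ⟨h5, h6⟩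
          refine ⟨h5, ?_⟩
          rintro ⟨i, hi, h7⟩
          rw [hW', Finset.mem_sdiff] at hi
          rw [h6 i hi.1 hi.2] at h7
          exact absurd h7 (by simp)
      rw [if_neg (not_not.mpr hbx), if_neg (not_not.mpr hg)]
    · rw [if_pos hg]
      split_ifs <;> norm_num

end Pool.Agent.H861R4.IM
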