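import Pool.Agent.H620R2.Gauge.Event
import Pool.Agent.H620R2.Gauge.M

/-!
# Bi-immunity relative to a random oracle: objects and statements of the tasks
-/

namespace Pool.Agent.H861R4.IM

open Pool.Agent.NPC Finset H568R2 Pool.Agent.H676 Pool.Agent.H620R2.Gauge MeasureTheory

/-- the number of a truth value -/
def ind (b : Bool) : ℝ := if b then 1 else 0

/-- The elements of `X` are the first elements `i ≥ i₀` with `f i a = true` (up to the maximum of
`X`). -/
def bX {I : Type} (f : ℕ → (I → Bool) → Bool) (i₀ : ℕ) (X : Finset ℕ) (a : I → Bool) : Bool :=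
  decide ((∀ i ∈ X, f i a = true) ∧ ∀ i ∈ Finset.Ico i₀ (X.sup id), i ∉ X → f i a = false)

open Classical in
/-- IND: a shallow decision tree does not notice a product of many signs. -/
def St_IND : Prop := ∀ (I : Type) (_ : Fintype I) (_ : DecidableEq I) (T : ℕ)
    (f : (I → Bool) → Bool) (G : (I → Bool) → ℝ) (B : Finset I), DTr T f → T < B.card →
    (∀ a, ∀ i ∈ B, ∀ v, G (Function.update a i v) = G a) →
    Ex unif (fun a : I → Bool => ind (f a) * G a * ∏ i ∈ B, sgb (a i)) = 0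

open Classical in
/-- STP: the parity of a block halves the probability. -/
def St_STP : Prop := ∀ (I : Type) (_ : Fintype I) (_ : DecidableEq I) (T r s : ℕ) (q δ : ℝ)
    (b : (I → Bool) → Bool) (G : (I → Bool) → ℝ) (B : Finset I) (c : Bool),
    0 ≤ q → q ≤ 1 → T ≤ r → (r + 1) * s ≤ B.card → (∀ a, 0 ≤ G a ∧ G a ≤ 1) →
    (∀ a, ∀ i ∈ B, ∀ v, G (Function.update a i v) = G a) →
    Ex (wq q) (fun ρ : Restr I => if ¬ DTr T (rs b ρ) then (1 : ℝ) else 0) ≤ δ →
    Ex unif (fun a : I → Bool => ind (b a) * G a * (if par B a = c then (1 : ℝ) else 0)) ≤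
      1 / 2 * Ex unif (fun a : I → Bool => ind (b a) * G a) + (δ + (r + 1) * (1 - q) ^ s)

open Classical in
/-- OR: the switching lemma for a disjunction of shallow decision trees. -/
def St_OR : Prop := ∀ (I : Type) (_ : Fintype I) (_ : DecidableEq I) (t n : ℕ) (q q₁ δ : ℝ)
    (W W' : Finset ℕ) (f : ℕ → (I → Bool) → Bool),
    1 ≤ t → 0 ≤ q → q ≤ 1 / 3 → 0 ≤ q₁ → q₁ ≤ 1 → (∀ i ∈ W, i + 1 < 2 ^ (n + 1)) → W' ⊆ W →
    Ex (wq q₁) (fun ρ : Restr I => if ¬ ∀ i ∈ W, DTr t (rs (f i) ρ) then (1 : ℝ) else 0) ≤ δ →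
    Ex (wq (q₁ * q)) (fun ρ : Restr I => if ¬ ((∀ i ∈ W, DTr t (rs (f i) ρ)) ∧
      DTr t (rs (fun a => decide (∃ i ∈ W', f i a = true)) ρ)) then (1 : ℝ) else 0) ≤
      δ + 2 ^ (2 * n + 3) * (12 * t * q) ^ (t + 1)

open Classical in
/-- BX: the event that `X` is the set of the first elements is shallow after a restriction. -/
def St_BX : Prop := ∀ (I : Type) (_ : Fintype I) (_ : DecidableEq I) (t n K i₀ : ℕ) (q q₁ δ : ℝ)
    (X : Finset ℕ) (f : ℕ → (I → Bool) → Bool),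
    1 ≤ t → 0 ≤ q → q ≤ 1 / 3 → 0 ≤ q₁ → q₁ ≤ 1 → X.Nonempty → X.card ≤ K →
    (∀ i ∈ X, i₀ ≤ i) → X.sup id + 1 < 2 ^ (n + 1) →
    Ex (wq q₁) (fun ρ : Restr I =>
      if ¬ ∀ i ∈ Finset.Ico i₀ (X.sup id + 1), DTr t (rs (f i) ρ) then (1 : ℝ) else 0) ≤ δ →
    Ex (wq (q₁ * q)) (fun ρ : Restr I =>
      if ¬ DTr ((K + 1) * t) (rs (bX f i₀ X) ρ) then (1 : ℝ) else 0) ≤
      δ + 2 ^ (2 * n + 3) * (12 * t * q) ^ (t + 1)

open Classical in
/-- REC: the recurrence. -/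
def St_REC : Prop := ∀ (I : Type) (_ : Fintype I) (_ : DecidableEq I)
    (f : ℕ → (I → Bool) → Bool) (B : ℕ → Finset I) (i₀ i₁ K : ℕ) (fl : ℕ → ℝ) (c : Bool),
    (∀ i ∈ Finset.Ico i₀ i₁, ∀ j ∈ Finset.Ico i₀ i₁, i ≠ j → Disjoint (B i) (B j)) →
    (∀ i, 0 ≤ fl i) →
    (∀ X ⊆ Finset.Ico i₀ i₁, X.Nonempty → X.card ≤ K → ∀ G : (I → Bool) → ℝ,
      (∀ a, 0 ≤ G a ∧ G a ≤ 1) →
      (∀ a, ∀ j ∈ B (X.sup id), ∀ v, G (Function.update a j v) = G a) →
      Ex unif (fun a : I → Bool => ind (bX f i₀ X a) * G a *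
        (if par (B (X.sup id)) a = c then (1 : ℝ) else 0)) ≤
        1 / 2 * Ex unif (fun a : I → Bool => ind (bX f i₀ X a) * G a) + fl (X.sup id)) →
    Ex unif (fun a : I → Bool => if ∃ X ⊆ Finset.Ico i₀ i₁, X.card = K ∧ bX f i₀ X a = true ∧
      ∀ i ∈ X, par (B i) a = c then (1 : ℝ) else 0) ≤
      (1 / 2) ^ K + ∑ i ∈ Finset.Ico i₀ i₁, K * ((i : ℝ) + 1) ^ K * fl i

open Classical in
/-- TR: probabilities of events which depend on the first bits of the oracle. -/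
def St_TR : Prop := ∀ (N : ℕ) (P : (Fin N → Bool) → Prop),
    ranO {A | P (pre N A)} =
      ENNReal.ofReal (Ex unif (fun a : Fin N → Bool => if P a then (1 : ℝ) else 0))

/-- The Boolean function of the first `N` bits of the oracle which tells whether the string `z i`
is accepted. -/
noncomputable def acc (M : Alg) (p : Polynomial ℕ) (k N : ℕ) (z : ℕ → List Bool) (i : ℕ) :
    (Fin N → Bool) → Bool :=
  QF (p.eval (z i).length) (leaf M N) k true (z i)

/-- the length of all strings which occur for inputs of length at most `l` -/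
def Lb (p : Polynomial ℕ) (k l : ℕ) : ℕ := l + k * (2 * p.eval l + 1)

open Classical in
/-- SW: the switching lemma for the acceptance of many strings. -/
def St_SW : Prop := ∀ (M : Alg) (p : Polynomial ℕ) (k N l t : ℕ) (q : ℝ) (z : ℕ → List Bool)
    (W : Finset ℕ), 1 ≤ t → 0 ≤ q → q ≤ 1 / 3 → (∀ i ∈ W, (z i).length ≤ l) →
    M.p.eval (Lb p k l) ≤ t →
    Ex (wq (q ^ k)) (fun ρ : Restr (Fin N) =>
      if ¬ ∀ i ∈ W, DTr t (rs (acc M p k N z i) ρ) then (1 : ℝ) else 0) ≤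
      (l + 1) * (k * 2 ^ (Lb p k l + 2) * (12 * t * q) ^ (t + 1))

/-- the error for strings of length `n` -/
noncomputable def er (k L t r n : ℕ) : ℝ :=
  (L + 1) * (k * 2 ^ (L + 2) * (1 / 2) ^ (t + 1)) + 2 ^ (2 * n + 3) * (1 / 2) ^ (t + 1) +
    (r + 1) * (1 - (1 / (24 * (t : ℝ))) ^ (k + 1)) ^ (2 ^ n / (r + 1))

open Classical in
/-- CUB: the bound for the first `K` accepted strings. -/
def St_CUB : Prop := ∀ (M : Alg) (p : Polynomial ℕ) (k N i₀ i₁ K : ℕ) (z : ℕ → List Bool)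
    (l t : ℕ → ℕ) (c : Bool),
    (∀ i ∈ Finset.Ico i₀ i₁, 2 ^ (2 * (str i).length + 1) ≤ N + 1) →
    (∀ i ∈ Finset.Ico i₀ i₁, (z i).length ≤ l (str i).length) → Monotone l →
    (∀ n, 1 ≤ t n) → (∀ n, M.p.eval (Lb p k (l n)) ≤ t n) →
    Ex unif (fun a : Fin N → Bool => if ∃ X ⊆ Finset.Ico i₀ i₁, X.card = K ∧
      bX (acc M p k N z) i₀ X a = true ∧ ∀ i ∈ X, par (blk N (str i)) a = c
        then (1 : ℝ) else 0) ≤
      (1 / 2) ^ K + ∑ i ∈ Finset.Ico i₀ i₁, K * ((i : ℝ) + 1) ^ K *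
        er k (Lb p k (l (str i).length)) (t (str i).length) ((K + 1) * t (str i).length)
          (str i).length

/-- NUM: the error is tiny. -/
def St_NUM : Prop := ∀ (k : ℕ) (L P R Q : Polynomial ℕ), (∀ n, 1 ≤ P.eval n) →
    (∀ n, 2 * L.eval n + 2 * n + Q.eval n + k + 10 ≤ P.eval n) →
    ∀ᶠ n : ℕ in Filter.atTop,
      er k (L.eval n) (P.eval n) (R.eval n) n * 2 ^ Q.eval n ≤ 1

/-- the function computed by the algorithm -/
def fn (M : Alg) (A : Oracle) (x : List Bool) : List Bool := (M.out A x).getD []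

/-- UNI: the uniform statement for one description. -/
def St_UNI : Prop := ∀ (M : Alg) (p : Polynomial ℕ) (k : ℕ) (c : Bool),
    ∀ᵐ A ∂ranO, (∀ x, (M.out A x).isSome) →
      {x : List Bool | Quant (p.eval x.length) (fn M A) k true x}.Infinite →
      ∀ n₀ : ℕ, ∃ x : List Bool, n₀ ≤ x.length ∧ Quant (p.eval x.length) (fn M A) k true x ∧
        ¬ (x ∈ parLang A ↔ c = true)

/-- NON: the nonuniform statement for one description. -/
def St_NON : Prop := ∀ (M : Alg) (p : Polynomial ℕ) (k : ℕ) (p' : Polynomial ℕ) (c : Bool),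
    ∃ K : Polynomial ℕ, ∀ᵐ A ∂ranO, (∀ x, (M.out A x).isSome) →
      ∀ᶠ n : ℕ in Filter.atTop, ∀ h : List Bool, h.length ≤ p'.eval n →
        K.eval n ≤ Set.ncard {x : List Bool | x.length = n ∧
          Quant (p.eval (pairBits x h).length) (fn M A) k true (pairBits x h)} →
        ∃ x : List Bool, x.length = n ∧
          Quant (p.eval (pairBits x h).length) (fn M A) k true (pairBits x h) ∧
          ¬ (x ∈ parLang A ↔ c = true)

/-- The language `L` is in `⊕P` relative to `A`: `x` is in `L` if and only if the number of the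
strings `w` of length `p(|x|)` with `V ⟨x, w⟩ = [true]` is odd. -/
def IsParityP (A : Oracle) (L : Set (List Bool)) : Prop :=
  ∃ (V : List Bool → List Bool) (p : Polynomial ℕ), IsFP A V ∧
    ∀ x, x ∈ L ↔ Odd (Set.ncard {w : List Bool | w.length = p.eval x.length ∧
      V (pairBits x w) = [true]})

/-- PAR: the parity language is in `⊕P`. -/
def St_PAR : Prop := ∀ A : Oracle, IsParityP A (parLang A)

/-- FIN: the main result. -/
def St_FIN : Prop := ∀ᵐ A ∂ranO, ∃ L : Set (List Bool), IsParityP A L ∧ IsPSPACE A L ∧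
    (∀ S, IsPH A S → S.Infinite → (S ∩ L).Infinite ∧ (S \ L).Infinite) ∧
    ∀ S, IsPHpoly A S → ∃ q : Polynomial ℕ, ∀ n : ℕ,
      q.eval n ≤ Set.ncard {x : List Bool | x ∈ S ∧ x.length = n} →
      (∃ x, x.length = n ∧ x ∈ S ∧ x ∈ L) ∧ ∃ x, x.length = n ∧ x ∈ S ∧ x ∉ L

end Pool.Agent.H861R4.IM
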