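import Pool.Agent.H861R4.IM.Defs

/-! More statements of tasks. -/

namespace Pool.Agent.H861R4.IM

open Pool.Agent.NPC Finset H568R2 Pool.Agent.H676 Pool.Agent.H620R2.Gauge MeasureTheory

open Classical in
/-- RC1: the set of the first `j + 1` elements is unique, and its beginning is the set of the first
`j` elements. -/
def St_RC1 : Prop := ∀ (I : Type) (f : ℕ → (I → Bool) → Bool) (a : I → Bool) (i₀ i₁ j : ℕ)
    (w : ℕ → ℝ), (∀ i, 0 ≤ w i) →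
    ∑ X ∈ (Finset.Ico i₀ i₁).powersetCard (j + 1),
      ind (bX f i₀ X a) * ∏ i ∈ X.erase (X.sup id), w i ≤
    ∑ X ∈ (Finset.Ico i₀ i₁).powersetCard j, ind (bX f i₀ X a) * ∏ i ∈ X, w i

/-- RC2: at most `(m + 1) ^ j` sets of `j + 1` numbers have the maximum `m`. -/
def St_RC2 : Prop := ∀ (i₀ i₁ j : ℕ) (fl : ℕ → ℝ), (∀ i, 0 ≤ fl i) →
    ∑ X ∈ (Finset.Ico i₀ i₁).powersetCard (j + 1), fl (X.sup id) ≤
      ∑ m ∈ Finset.Ico i₀ i₁, ((m : ℝ) + 1) ^ j * fl m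

/-- N1: the first two terms of the error. -/
def St_N1 : Prop := ∀ (k L t Q n : ℕ), 2 * L + 2 * n + Q + k + 10 ≤ t →
    (((L : ℝ) + 1) * (k * 2 ^ (L + 2) * (1 / 2) ^ (t + 1)) +
      2 ^ (2 * n + 3) * (1 / 2) ^ (t + 1)) * 2 ^ Q ≤ 1 / 2

/-- N2: the third term of the error. -/
def St_N2 : Prop := ∀ (k : ℕ) (P R Q : Polynomial ℕ), (∀ n, 1 ≤ P.eval n) →
    ∀ᶠ n : ℕ in Filter.atTop,
      (((R.eval n : ℕ) : ℝ) + 1) * (1 - (1 / (24 * ((P.eval n : ℕ) : ℝ))) ^ (k + 1)) ^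
        (2 ^ n / (R.eval n + 1)) * 2 ^ Q.eval n ≤ 1 / 2

/-- BR: the first bits of the oracle decide everything about short inputs. -/
def St_BR : Prop := ∀ (M : Alg) (p : Polynomial ℕ) (k l i₁ : ℕ), ∃ N₀ : ℕ, ∀ N, N₀ ≤ N →
    ∀ i < i₁, 2 ^ (2 * (str i).length + 1) ≤ N + 1 ∧
      ∀ (A : Oracle) (z : ℕ → List Bool), (z i).length ≤ l →
      (acc M p k N z i (pre N A) = true ↔
        Quant (p.eval (z i).length) (fn M A) k true (z i)) ∧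
      (par (blk N (str i)) (pre N A) = true ↔ str i ∈ parLang A)

/-- FST: the first `K` elements. -/
def St_FST : Prop := ∀ (I : Type) (f : ℕ → (I → Bool) → Bool) (a : I → Bool) (i₀ i₁ K : ℕ),
    K ≤ ((Finset.Ico i₀ i₁).filter (fun i => f i a = true)).card →
    ∃ X ⊆ Finset.Ico i₀ i₁, X.card = K ∧ bX f i₀ X a = true

open Classical in
/-- US: the uniform bound. -/
def St_US : Prop := ∀ (M : Alg) (p : Polynomial ℕ) (k K : ℕ) (c : Bool), ∃ i₂ : ℕ, 1 ≤ i₂ ∧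
    ∀ i₀ i₁ N, i₂ ≤ i₀ → (∀ i ∈ Finset.Ico i₀ i₁, 2 ^ (2 * (str i).length + 1) ≤ N + 1) →
    Ex unif (fun a : Fin N → Bool => if ∃ X ⊆ Finset.Ico i₀ i₁, X.card = K ∧
      bX (acc M p k N str) i₀ X a = true ∧ ∀ i ∈ X, par (blk N (str i)) a = c
        then (1 : ℝ) else 0) ≤ (1 / 2) ^ K + 1 / (i₀ : ℝ)

open Classical in
/-- NS: the nonuniform bound. -/
def St_NS : Prop := ∀ (M : Alg) (p : Polynomial ℕ) (k : ℕ) (p' : Polynomial ℕ) (c : Bool),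
    ∃ (K : Polynomial ℕ) (n₂ : ℕ), ∀ n N, n₂ ≤ n → 2 ^ (2 * n + 1) ≤ N + 1 →
    ∀ h : List Bool, h.length ≤ p'.eval n →
    Ex unif (fun a : Fin N → Bool => if ∃ X ⊆ Finset.Ico (2 ^ n - 1) (2 ^ (n + 1) - 1),
      X.card = K.eval n ∧
      bX (acc M p k N (fun i => pairBits (str i) h)) (2 ^ n - 1) X a = true ∧
      ∀ i ∈ X, par (blk N (str i)) a = c then (1 : ℝ) else 0) ≤
      (1 / 2) ^ (n + p'.eval n + 1)

end Pool.Agent.H861R4.IM
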