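import Pool.Agent.H861R4.IM.Defs2

/-! Statements of the second round: even splitting. -/

namespace Pool.Agent.H861R4.IM

open Pool.Agent.NPC Finset H568R2 Pool.Agent.H676 Pool.Agent.H620R2.Gauge MeasureTheory

open Classical in
/-- RW: the recurrence with weights. -/
def St_RW : Prop := ∀ (I : Type) (_ : Fintype I) (_ : DecidableEq I)
    (f : ℕ → (I → Bool) → Bool) (B : ℕ → Finset I) (i₀ i₁ K : ℕ) (fl : ℕ → ℝ) (c : Bool) (ω : ℝ),
    0 ≤ ω → ω ≤ 1 →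
    (∀ i ∈ Finset.Ico i₀ i₁, ∀ j ∈ Finset.Ico i₀ i₁, i ≠ j → Disjoint (B i) (B j)) →
    (∀ i, 0 ≤ fl i) →
    (∀ c' : Bool, ∀ X ⊆ Finset.Ico i₀ i₁, X.Nonempty → X.card ≤ K → ∀ G : (I → Bool) → ℝ,
      (∀ a, 0 ≤ G a ∧ G a ≤ 1) →
      (∀ a, ∀ j ∈ B (X.sup id), ∀ v, G (Function.update a j v) = G a) →
      Ex unif (fun a : I → Bool => ind (bX f i₀ X a) * G a *
        (if par (B (X.sup id)) a = c' then (1 : ℝ) else 0)) ≤
        1 / 2 * Ex unif (fun a : I → Bool => ind (bX f i₀ X a) * G a) + fl (X.sup id)) →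
    Ex unif (fun a : I → Bool => ∑ X ∈ (Finset.Ico i₀ i₁).powersetCard K,
      ind (bX f i₀ X a) * ∏ i ∈ X, (if par (B i) a = c then (1 : ℝ) else ω)) ≤
      ((1 + ω) / 2) ^ K + ∑ i ∈ Finset.Ico i₀ i₁, 2 * K * ((i : ℝ) + 1) ^ K * fl i

open Classical in
/-- CC: the first `K` accepted strings are unbalanced with small probability. -/
def St_CC : Prop := ∀ (M : Alg) (p : Polynomial ℕ) (k N i₀ i₁ K : ℕ) (z : ℕ → List Bool)
    (l t : ℕ → ℕ) (c : Bool) (η : ℝ), 0 ≤ η →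
    (∀ i ∈ Finset.Ico i₀ i₁, 2 ^ (2 * (str i).length + 1) ≤ N + 1) →
    (∀ i ∈ Finset.Ico i₀ i₁, (z i).length ≤ l (str i).length) → Monotone l →
    (∀ n, 1 ≤ t n) → (∀ n, M.p.eval (Lb p k (l n)) ≤ t n) →
    Ex unif (fun a : Fin N → Bool => if ∃ X ⊆ Finset.Ico i₀ i₁, X.card = K ∧
      bX (acc M p k N z) i₀ X a = true ∧
      (1 / 2 + η) * K ≤ ((X.filter (fun i => par (blk N (str i)) a = c)).card : ℝ)
        then (1 : ℝ) else 0) ≤
      Real.exp (-2 * η ^ 2 * K) + 2 ^ K * ∑ i ∈ Finset.Ico i₀ i₁, 2 * K * ((i : ℝ) + 1) ^ K *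
        er k (Lb p k (l (str i).length)) (t (str i).length) ((K + 1) * t (str i).length)
          (str i).length

open Classical in
/-- NB: the nonuniform bound. -/
def St_NB : Prop := ∀ (M : Alg) (p : Polynomial ℕ) (k : ℕ) (p' r : Polynomial ℕ) (c : Bool),
    (∀ n, 1 ≤ r.eval n) →
    ∃ (K : Polynomial ℕ) (n₂ : ℕ), (∀ n, 1 ≤ K.eval n) ∧
    ∀ n N i₀, n₂ ≤ n → 2 ^ (2 * n + 1) ≤ N + 1 → 2 ^ n - 1 ≤ i₀ →
    ∀ h : List Bool, h.length ≤ p'.eval n →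
    Ex unif (fun a : Fin N → Bool => if ∃ X ⊆ Finset.Ico i₀ (2 ^ (n + 1) - 1),
      X.card = K.eval n ∧
      bX (acc M p k N (fun i => pairBits (str i) h)) i₀ X a = true ∧
      (1 / 2 + 1 / ((r.eval n : ℕ) : ℝ)) * ((K.eval n : ℕ) : ℝ) ≤
        ((X.filter (fun i => par (blk N (str i)) a = c)).card : ℝ) then (1 : ℝ) else 0) ≤
      (1 / 2) ^ (2 * n + p'.eval n + 2)

open Classical in
/-- BAL: from the first `K` elements to all elements. -/
def St_BAL : Prop := ∀ (I : Type) (f : ℕ → (I → Bool) → Bool) (a : I → Bool) (i₀ i₁ K : ℕ)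
    (C : ℕ → Prop) (θ : ℝ), 1 ≤ K → 0 ≤ θ →
    (∀ j, i₀ ≤ j → ∀ X ⊆ Finset.Ico j i₁, X.card = K → bX f j X a = true →
      ((X.filter C).card : ℝ) ≤ θ * K) →
    (((Finset.Ico i₀ i₁).filter (fun i => f i a = true ∧ C i)).card : ℝ) ≤
      θ * (((Finset.Ico i₀ i₁).filter (fun i => f i a = true)).card : ℝ) + K

/-- NO2: the nonuniform statement for one description: upper bound for each class. -/
def St_NO2 : Prop := ∀ (M : Alg) (p : Polynomial ℕ) (k : ℕ) (p' r : Polynomial ℕ) (c : Bool),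
    (∀ n, 1 ≤ r.eval n) →
    ∃ K : Polynomial ℕ, ∀ᵐ A ∂ranO, ∀ᶠ n : ℕ in Filter.atTop,
      ∀ h : List Bool, h.length ≤ p'.eval n →
        ((Set.ncard {x : List Bool | x.length = n ∧
          Quant (p.eval (pairBits x h).length) (fn M A) k true (pairBits x h) ∧
          (x ∈ parLang A ↔ c = true)} : ℕ) : ℝ) ≤
        (1 / 2 + 1 / ((r.eval n : ℕ) : ℝ)) * ((Set.ncard {x : List Bool | x.length = n ∧
          Quant (p.eval (pairBits x h).length) (fn M A) k true (pairBits x h)} : ℕ) : ℝ) +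
        ((K.eval n : ℕ) : ℝ)

/-- FB: the main result. -/
def St_FB : Prop := ∀ᵐ A ∂ranO, IsParityP A (parLang A) ∧ IsPSPACE A (parLang A) ∧
    (∀ S, IsPH A S → S.Infinite → (S ∩ parLang A).Infinite ∧ (S \ parLang A).Infinite) ∧
    ∀ S, IsPHpoly A S → ∀ r : Polynomial ℕ, ∃ q : Polynomial ℕ, ∀ n : ℕ,
      q.eval n ≤ Set.ncard {x : List Bool | x ∈ S ∧ x.length = n} →
      ((r.eval n : ℕ) : ℝ) * |((Set.ncard {x : List Bool | x ∈ S ∩ parLang A ∧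
          x.length = n} : ℕ) : ℝ) -
        ((Set.ncard {x : List Bool | x ∈ S \ parLang A ∧ x.length = n} : ℕ) : ℝ)| ≤
      ((Set.ncard {x : List Bool | x ∈ S ∧ x.length = n} : ℕ) : ℝ)

end Pool.Agent.H861R4.IM
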