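import Pool.Agent.H861R4.IM.Defs3

/-! Statements of the third round: frequencies along sparse sets. -/

namespace Pool.Agent.H861R4.IM

open Pool.Agent.NPC Finset H568R2 Pool.Agent.H676 Pool.Agent.H620R2.Gauge MeasureTheory

/-- the elements of `X` with at least `m` smaller elements of `X` -/
def topK (m : ℕ) (X : Finset ℕ) : Finset ℕ :=
  X.filter (fun i => m ≤ (X.filter (fun j => j < i)).card)

/-- RC3: like RC1, with general weights. -/
def St_RC3 : Prop := ∀ (I : Type) (f : ℕ → (I → Bool) → Bool) (a : I → Bool) (i₀ i₁ j : ℕ)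
    (F : Finset ℕ → ℝ), (∀ X, 0 ≤ F X) →
    ∑ X ∈ (Finset.Ico i₀ i₁).powersetCard (j + 1),
      ind (bX f i₀ X a) * F (X.erase (X.sup id)) ≤
    ∑ X ∈ (Finset.Ico i₀ i₁).powersetCard j, ind (bX f i₀ X a) * F X

open Classical in
/-- RT: the recurrence with weights for the last `K` of the first `m + K` elements. -/
def St_RT : Prop := ∀ (I : Type) (_ : Fintype I) (_ : DecidableEq I)
    (f : ℕ → (I → Bool) → Bool) (B : ℕ → Finset I) (i₀ i₁ m K v : ℕ) (fl : ℕ → ℝ) (c : Bool)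
    (ω : ℝ), 0 ≤ ω → ω ≤ 1 →
    (∀ i ∈ Finset.Ico i₀ i₁, ∀ j ∈ Finset.Ico i₀ i₁, i ≠ j → Disjoint (B i) (B j)) →
    (∀ i, 0 ≤ fl i) →
    (∀ c' : Bool, ∀ X ⊆ Finset.Ico i₀ i₁, X.Nonempty → X.card ≤ m + K → ∀ G : (I → Bool) → ℝ,
      (∀ a, 0 ≤ G a ∧ G a ≤ 1) →
      (∀ a, ∀ j ∈ B (X.sup id), ∀ v, G (Function.update a j v) = G a) →
      Ex unif (fun a : I → Bool => ind (bX f i₀ X a) * G a *
        (if par (B (X.sup id)) a = c' then (1 : ℝ) else 0)) ≤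
        1 / 2 * Ex unif (fun a : I → Bool => ind (bX f i₀ X a) * G a) + fl (X.sup id)) →
    Ex unif (fun a : I → Bool => ∑ X ∈ ((Finset.Ico i₀ i₁).powersetCard (m + K)).filter
      (fun X => ∀ i ∈ topK m X, v ≤ i),
      ind (bX f i₀ X a) * ∏ i ∈ topK m X, (if par (B i) a = c then (1 : ℝ) else ω)) ≤
      ((1 + ω) / 2) ^ K + ∑ i ∈ (Finset.Ico i₀ i₁).filter (fun i => v ≤ i),
        2 * K * ((i : ℝ) + 1) ^ (m + K) * fl i

open Classical in
/-- CT: the last `K` of the first `m + K` accepted strings are unbalanced with small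
probability. -/
def St_CT : Prop := ∀ (M : Alg) (p : Polynomial ℕ) (k N i₀ i₁ m K v : ℕ) (z : ℕ → List Bool)
    (l t : ℕ → ℕ) (c : Bool) (η : ℝ), 0 ≤ η →
    (∀ i ∈ Finset.Ico i₀ i₁, 2 ^ (2 * (str i).length + 1) ≤ N + 1) →
    (∀ i ∈ Finset.Ico i₀ i₁, (z i).length ≤ l (str i).length) → Monotone l →
    (∀ n, 1 ≤ t n) → (∀ n, M.p.eval (Lb p k (l n)) ≤ t n) →
    Ex unif (fun a : Fin N → Bool => if ∃ X ⊆ Finset.Ico i₀ i₁, X.card = m + K ∧
      (∀ i ∈ topK m X, v ≤ i) ∧ bX (acc M p k N z) i₀ X a = true ∧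
      (1 / 2 + η) * K ≤ (((topK m X).filter (fun i => par (blk N (str i)) a = c)).card : ℝ)
        then (1 : ℝ) else 0) ≤
      Real.exp (-2 * η ^ 2 * K) + 2 ^ K * ∑ i ∈ (Finset.Ico i₀ i₁).filter (fun i => v ≤ i),
        2 * K * ((i : ℝ) + 1) ^ (m + K) *
        er k (Lb p k (l (str i).length)) (t (str i).length) ((m + K + 1) * t (str i).length)
          (str i).length

open Classical in
/-- UD: the uniform bound. -/
def St_UD : Prop := ∀ (M : Alg) (p : Polynomial ℕ) (k : ℕ) (c : Bool) (D : ℕ) (η : ℝ), 0 ≤ η →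
    ∃ v₀ : ℕ, 1 ≤ v₀ ∧ ∀ v, v₀ ≤ v → ∀ m K, m + K ≤ D * ((str v).length + 1) → ∀ i₀ i₁ N,
    (∀ i ∈ Finset.Ico i₀ i₁, 2 ^ (2 * (str i).length + 1) ≤ N + 1) →
    Ex unif (fun a : Fin N → Bool => if ∃ X ⊆ Finset.Ico i₀ i₁, X.card = m + K ∧
      (∀ i ∈ topK m X, v ≤ i) ∧ bX (acc M p k N str) i₀ X a = true ∧
      (1 / 2 + η) * K ≤ (((topK m X).filter (fun i => par (blk N (str i)) a = c)).card : ℝ)
        then (1 : ℝ) else 0) ≤ Real.exp (-2 * η ^ 2 * K) + 1 / (v : ℝ) ^ 2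

/-- the string number `i` is accepted -/
def QA (M : Alg) (p : Polynomial ℕ) (k : ℕ) (A : Oracle) (i : ℕ) : Prop :=
  Quant (p.eval (str i).length) (fn M A) k true (str i)

open Classical in
/-- AE: almost surely, the blocks are balanced from some time on. -/
def St_AE : Prop := ∀ (M : Alg) (p : Polynomial ℕ) (k : ℕ) (c : Bool) (D : ℕ) (η : ℝ)
    (i₀ v m K : ℕ → ℕ), 0 ≤ η → (∀ s, m s + K s ≤ D * ((str (v s)).length + 1)) →
    Filter.Tendsto v Filter.atTop Filter.atTop →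
    Summable (fun s => Real.exp (-2 * η ^ 2 * K s)) →
    Summable (fun s => 1 / ((v s : ℕ) : ℝ) ^ 2) →
    ∀ᵐ A ∂ranO, ∀ᶠ s : ℕ in Filter.atTop, ∀ X : Finset ℕ, X.card = m s + K s →
      (∀ i ∈ X, i₀ s ≤ i) → (∀ i ∈ topK (m s) X, v s ≤ i) → (∀ i ∈ X, QA M p k A i) →
      (∀ i ∈ Finset.Ico (i₀ s) (X.sup id), i ∉ X → ¬ QA M p k A i) →
      (((topK (m s) X).filter (fun i => str i ∈ parLang A ↔ c = true)).card : ℝ) <
        (1 / 2 + η) * K s

open Classical in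
/-- PT: the combination of the blocks. -/
def St_PT : Prop := ∀ (Q : ℕ → Prop) (θ : ℝ) (r m₀ C₀ : ℕ), 1 ≤ r → 0 ≤ θ →
    (∀ m, m₀ ≤ m → ∃ K : ℕ, 1 ≤ K ∧ (K : ℝ) ≤ (m : ℝ) / r + C₀ ∧
      (((Finset.Ico m (m + K)).filter Q).card : ℝ) ≤ θ * K) →
    ∀ m : ℕ, (((Finset.range m).filter Q).card : ℝ) ≤ θ * m + m / r + m₀ + C₀

open Classical in
/-- UF: frequency for one description. -/
def St_UF : Prop := ∀ (M : Alg) (p : Polynomial ℕ) (k : ℕ) (c : Bool) (r : ℕ), 1 ≤ r →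
    ∀ᵐ A ∂ranO, {i : ℕ | QA M p k A i}.Infinite → ∃ C₀ : ℕ, ∀ N : ℕ,
      (((Finset.range N).filter (fun i => QA M p k A i ∧
        (str i ∈ parLang A ↔ c = true))).card : ℝ) ≤
      (1 / 2 + 2 / (r : ℝ)) * (((Finset.range N).filter (fun i => QA M p k A i)).card : ℝ) + C₀

open Classical in
/-- FR: the parity language has frequency `1/2` along every infinite set of the hierarchy. -/
def St_FR : Prop := ∀ᵐ A ∂ranO, ∀ S, IsPH A S → S.Infinite →
    Filter.Tendsto (fun N : ℕ => (((Finset.range N).filter (fun i => str i ∈ S ∩ parLang A)).card : ℝ) /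
      (((Finset.range N).filter (fun i => str i ∈ S)).card : ℝ)) Filter.atTop (nhds (1 / 2))

end Pool.Agent.H861R4.IM
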