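import Pool.Agent.H861R4.IM.Defs3

namespace Pool.Agent.H861R4.IM

open Pool.Agent.NPC Finset H568R2 Pool.Agent.H676 Pool.Agent.H620R2.Gauge MeasureTheory

open Classical in
theorem BAL_aux (h : St_FST) (I : Type) (f : ℕ → (I → Bool) → Bool) (a : I → Bool) (i₁ K : ℕ)
    (C : ℕ → Prop) (θ : ℝ) (hK : 1 ≤ K) (hθ : 0 ≤ θ) : ∀ n i₀ : ℕ, i₁ - i₀ ≤ n →
    (∀ j, i₀ ≤ j → ∀ X ⊆ Finset.Ico j i₁, X.card = K → bX f j X a = true →
      ((X.filter C).card : ℝ) ≤ θ * K) →
    (((Finset.Ico i₀ i₁).filter (fun i => f i a = true ∧ C i)).card : ℝ) ≤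
      θ * (((Finset.Ico i₀ i₁).filter (fun i => f i a = true)).card : ℝ) + K := by
  intro n
  induction n with
  | zero =>
    intro i₀ hi _
    have : Finset.Ico i₀ i₁ = ∅ := Finset.Ico_eq_empty_of_le (by omega)
    rw [this]
    simp
  | succ n ih =>
    intro i₀ hi H
    rcases lt_or_ge ((Finset.Ico i₀ i₁).filter (fun i => f i a = true)).card K with hlt | hge
    · have h1 : ((Finset.Ico i₀ i₁).filter (fun i => f i a = true ∧ C i)).card ≤
          ((Finset.Ico i₀ i₁).filter (fun i => f i a = true)).card := by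
        apply Finset.card_le_card
        intro i hi
        rw [Finset.mem_filter] at hi ⊢
        exact ⟨hi.1, hi.2.1⟩
      have h2 : (((Finset.Ico i₀ i₁).filter (fun i => f i a = true ∧ C i)).card : ℝ) ≤ K := by
        exact_mod_cast h1.trans hlt.le
      have h3 : 0 ≤ θ * (((Finset.Ico i₀ i₁).filter (fun i => f i a = true)).card : ℝ) := by
        positivity
      linarith
    · obtain ⟨X, hX, hXK, hb⟩ := h I f a i₀ i₁ K hge
      have hne : X.Nonempty := by
        rw [← Finset.card_pos]
        omega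
      have hb' := hb
      unfold bX at hb'
      rw [decide_eq_true_eq] at hb'
      obtain ⟨hb1, hb2⟩ := hb'
      obtain ⟨s, hs⟩ : ∃ s, s = X.sup id := ⟨_, rfl⟩
      have hsX : s ∈ X := by
        obtain ⟨x, hx, hxs⟩ := Finset.exists_mem_eq_sup X hne id
        rw [hs, hxs]
        exact hx
      have hle : ∀ i ∈ X, i ≤ s := fun i hi => by
        rw [hs]
        exact Finset.le_sup (f := id) hi
      have hs1 := Finset.mem_Ico.1 (hX hsX)
      -- split the interval
      have hsplit : Finset.Ico i₀ i₁ = Finset.Ico i₀ (s + 1) ∪ Finset.Ico (s + 1) i₁ :=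
        (Finset.Ico_union_Ico_eq_Ico (by omega) (by omega)).symm
      have hdisj : ∀ P : ℕ → Prop, ∀ [DecidablePred P],
          Disjoint ((Finset.Ico i₀ (s + 1)).filter P) ((Finset.Ico (s + 1) i₁).filter P) := by
        intro P _
        apply Finset.disjoint_filter_filter
        exact Finset.Ico_disjoint_Ico_consecutive _ _ _
      have hfX : (Finset.Ico i₀ (s + 1)).filter (fun i => f i a = true) = X := by
        ext i
        rw [Finset.mem_filter, Finset.mem_Ico]
        constructor
        · rintro ⟨hi1, hi2⟩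
          by_contra hc
          rcases eq_or_lt_of_le (Nat.lt_succ_iff.1 hi1.2) with h4 | h4
          · exact hc (h4 ▸ hsX)
          · have := hb2 i (by rw [Finset.mem_Ico, ← hs]; exact ⟨hi1.1, h4⟩) hc
            rw [hi2] at this
            exact absurd this (by decide)
        · intro hi
          exact ⟨⟨(Finset.mem_Ico.1 (hX hi)).1, Nat.lt_succ_of_le (hle i hi)⟩, hb1 i hi⟩
      have hfXC : (Finset.Ico i₀ (s + 1)).filter (fun i => f i a = true ∧ C i) = X.filter C := by
        ext i
        rw [Finset.mem_filter, Finset.mem_filter]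
        constructor
        · rintro ⟨hi1, hi2, hi3⟩
          refine ⟨?_, hi3⟩
          rw [← hfX, Finset.mem_filter]
          exact ⟨hi1, hi2⟩
        · rintro ⟨hi1, hi2⟩
          rw [← hfX, Finset.mem_filter] at hi1
          exact ⟨hi1.1, hi1.2, hi2⟩
      have hrec := ih (s + 1) (by omega) (fun j hj Y hY hYK hbY =>
        H j (by omega) Y hY hYK hbY)
      have hfirst := H i₀ le_rfl X hX hXK hb
      rw [hsplit, Finset.filter_union, Finset.filter_union,
        Finset.card_union_of_disjoint (hdisj _), Finset.card_union_of_disjoint (hdisj _),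
        hfX, hfXC, hXK]
      push_cast
      nlinarith

theorem t_BAL (h : St_FST) : St_BAL := by
  intro I f a i₀ i₁ K C θ hK hθ H
  exact BAL_aux h I f a i₁ K C θ hK hθ (i₁ - i₀) i₀ le_rfl H

end Pool.Agent.H861R4.IM
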