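import Pool.Agent.H861R4.IM.Defs2

/-! Task BR (helper605): the first bits of the oracle decide everything about short inputs. -/

namespace Pool.Agent.H861R4.IM

open Pool.Agent.NPC Finset H568R2 Pool.Agent.H676 Pool.Agent.H620R2.Gauge MeasureTheory

theorem BR_getD (o : Option (List Bool)) : o.getD [] = [true] ↔ o = some [true] := by
  cases o <;> simp

theorem t_BR : St_BR := by
  intro M p k l i₁
  obtain ⟨qb, hqb⟩ := Alg.out_local M
  refine ⟨2 ^ (qb.eval (Lb p k l) + 1) + 2 ^ (2 * i₁ + 1), fun N hN i hi => ?_⟩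
  have p1 : 0 < 2 ^ (qb.eval (Lb p k l) + 1) := Nat.two_pow_pos _
  have p2 : 0 < 2 ^ (2 * i₁ + 1) := Nat.two_pow_pos _
  have hs : (str i).length ≤ i := by
    have h1 := le_idx (str i)
    rw [idx_str] at h1
    have h2 : (str i).length < 2 ^ (str i).length := Nat.lt_two_pow_self
    omega
  have hN1 : 2 ^ (2 * (str i).length + 1) ≤ N + 1 := by
    have h4 : 2 ^ (2 * (str i).length + 1) ≤ 2 ^ (2 * i₁ + 1) :=
      Nat.pow_le_pow_right (by norm_num) (by omega)
    omega
  refine ⟨hN1, fun A z hz => ⟨?_, blk_par N A (str i) hN1⟩⟩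
  have hV : ∀ y : List Bool, y.length ≤ Lb p k l →
      (fn M A y = [true] ↔ leaf M N y (pre N A) = true) := by
    intro y hy
    obtain ⟨Q, _, hQl, hQA⟩ := hqb A y
    have h1 : M.out (orc N (pre N A)) y = M.out A y := by
      apply hQA
      intro q hq
      apply orc_pre
      have h2 := idx_lt q
      have h3 : q.length ≤ qb.eval (Lb p k l) := (hQl q hq).trans (eval_mono _ hy)
      have h4 : 2 ^ (q.length + 1) ≤ 2 ^ (qb.eval (Lb p k l) + 1) :=
        Nat.pow_le_pow_right (by norm_num) (by omega)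
      omega
    unfold leaf fn
    rw [h1, decide_eq_true_eq, BR_getD]
  refine (quant_iff (m := p.eval (z i).length) (Lb p k l) hV k true (z i) ?_).symm
  have h5 : p.eval (z i).length ≤ p.eval l := eval_mono p hz
  unfold Lb
  have h6 : k * (2 * p.eval (z i).length + 1) ≤ k * (2 * p.eval l + 1) :=
    Nat.mul_le_mul_left k (by omega)
  omega

end Pool.Agent.H861R4.IM
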