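import Pool.Agent.H861R4.IM.Defs2

/-! The event that `X` is the set of the first elements is shallow after a restriction. -/

set_option autoImplicit false

namespace Pool.Agent.H861R4.IM

open Pool.Agent.NPC Finset H568R2 Pool.Agent.H676 Pool.Agent.H620R2.Gauge MeasureTheory

namespace BX

lemma upd {I : Type} [Fintype I] [DecidableEq I] {k : ℕ} {g : (I → Bool) → Bool}
    (h : DTr k g) (i : I) (b : Bool) : DTr k (fun x => g (Function.update x i b)) := by
  have h1 := h.rs (ρ := fun j => if j = i then some b else none)
  refine (congrArg (DTr k) (funext fun x => ?_)).mp h1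
  show g (ov (fun j => if j = i then some b else none) x) = g (Function.update x i b)
  congr 1
  funext j
  unfold ov
  by_cases hj : j = i
  · subst hj
    simp
  · rw [Function.update_of_ne hj]
    simp [hj]

lemma and {I : Type} [Fintype I] [DecidableEq I] {s t : ℕ} :
    ∀ {f g : (I → Bool) → Bool}, DTr s f → DTr t g → DTr (s + t) (fun x => f x && g x) := by
  induction s with
  | zero =>
    rintro f g ⟨c, hc⟩ hg
    rw [Nat.zero_add]
    cases c with
    | false =>
      apply DTr.const
      exact ⟨false, fun x => by simp [hc]⟩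
    | true =>
      refine (congrArg (DTr t) (funext fun x => ?_)).mp hg
      simp [hc]
  | succ s ih =>
    intro f g hf hg
    rcases hf with ⟨c, hc⟩ | ⟨i, hi⟩
    · cases c with
      | false =>
        apply DTr.const
        exact ⟨false, fun x => by simp [hc]⟩
      | true =>
        have h1 : DTr (s + 1 + t) g := hg.mono (by omega)
        refine (congrArg (DTr (s + 1 + t)) (funext fun x => ?_)).mp h1
        simp [hc]
    · have h1 : s + 1 + t = (s + t) + 1 := by omega
      rw [h1]
      exact Or.inr ⟨i, fun b => ih (hi b) (upd hg i b)⟩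

lemma all {I : Type} [Fintype I] [DecidableEq I] {t : ℕ} (g : ℕ → (I → Bool) → Bool)
    (X : Finset ℕ) : (∀ i ∈ X, DTr t (g i)) →
    DTr (X.card * t) (fun x => decide (∀ i ∈ X, g i x = true)) := by
  induction X using Finset.induction_on with
  | empty =>
    intro _
    apply DTr.const
    exact ⟨true, fun x => by simp⟩
  | insert j X hj ih =>
    intro h
    have h1 := ih (fun i hi => h i (Finset.mem_insert_of_mem hi))
    have h2 := and (h j (Finset.mem_insert_self j X)) h1
    rw [Finset.card_insert_of_notMem hj]
    have h3 : (X.card + 1) * t = t + X.card * t := by ring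
    rw [h3]
    refine (congrArg (DTr (t + X.card * t)) (funext fun x => ?_)).mp h2
    rw [Bool.eq_iff_iff]
    simp

end BX

open Classical in
theorem t_BX (h : St_OR) : St_BX := by
  intro I _ _ t n K i₀ q q₁ δ X f ht hq0 hq1 hq₁0 hq₁1 hX hK hi₀ hn hδ
  have h1 := h I inferInstance inferInstance t n q q₁ δ (Finset.Ico i₀ (X.sup id + 1))
    ((Finset.Ico i₀ (X.sup id)) \ X) f ht hq0 hq1 hq₁0 hq₁1
    (fun i hi => by
      rw [Finset.mem_Ico] at hi
      omega)
    (fun i hi => by
      rw [Finset.mem_sdiff, Finset.mem_Ico] at hi
      rw [Finset.mem_Ico]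
      omega) (by convert hδ)
  refine le_trans ?_ h1
  apply Ex_mono
  · apply wq_nonneg (mul_nonneg hq₁0 hq0)
    calc q₁ * q ≤ 1 * 1 := mul_le_mul hq₁1 (by linarith) hq0 (by norm_num)
      _ = 1 := by norm_num
  · intro ρ
    by_cases hG : (∀ i ∈ Finset.Ico i₀ (X.sup id + 1), DTr t (rs (f i) ρ)) ∧
      DTr t (rs (fun a => decide (∃ i ∈ (Finset.Ico i₀ (X.sup id)) \ X, f i a = true)) ρ)
    · have h2 : DTr (X.card * t) (fun x => decide (∀ i ∈ X, rs (f i) ρ x = true)) := by
        apply BX.all
        intro i hi
        apply hG.1
        rw [Finset.mem_Ico]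
        refine ⟨hi₀ i hi, ?_⟩
        have : i ≤ X.sup id := Finset.le_sup (f := id) hi
        omega
      have h3 := BX.and h2 (hG.2.comp (fun b => !b))
      have h4 : DTr ((K + 1) * t) (rs (bX f i₀ X) ρ) := by
        have h5 : DTr (X.card * t + t) (rs (bX f i₀ X) ρ) := by
          refine (congrArg (DTr (X.card * t + t)) (funext fun x => ?_)).mp h3
          rw [Bool.eq_iff_iff]
          unfold bX rs
          simp only [Bool.and_eq_true, Bool.not_eq_true', decide_eq_true_eq, decide_eq_false_iff_not]
          constructor
          · rintro ⟨ha, hb⟩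
            refine ⟨ha, fun i hi hiX => ?_⟩
            by_contra hc
            apply hb
            refine ⟨i, Finset.mem_sdiff.mpr ⟨hi, hiX⟩, ?_⟩
            simpa using hc
          · rintro ⟨ha, hb⟩
            refine ⟨ha, ?_⟩
            rintro ⟨i, hi, hc⟩
            rw [Finset.mem_sdiff] at hi
            have := hb i hi.1 hi.2
            rw [this] at hc
            exact absurd hc (by simp)
        apply h5.mono
        nlinarith
      rw [if_neg (not_not.2 h4), if_neg (not_not.2 hG)]
    · rw [if_pos hG]
      split_ifs <;> norm_num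

end Pool.Agent.H861R4.IM
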