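import Pool.Agent.H861R4.IM.Defs3

/-! Task CC: Chernoff bound on the cube. -/

namespace Pool.Agent.H861R4.IM

open Pool.Agent.NPC Finset H568R2 Pool.Agent.H676 Pool.Agent.H620R2.Gauge MeasureTheory

theorem CC_q {t : ℕ} (ht : 1 ≤ t) : 0 ≤ 1 / (24 * (t : ℝ)) ∧ 1 / (24 * (t : ℝ)) ≤ 1 / 3 ∧
    12 * (t : ℝ) * (1 / (24 * (t : ℝ))) = 1 / 2 := by
  have h1 : (1 : ℝ) ≤ t := by exact_mod_cast ht
  refine ⟨by positivity, ?_, ?_⟩
  · rw [div_le_div_iff₀ (by positivity) (by norm_num)]
    linarith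
  · field_simp
    norm_num

theorem CC_er_nonneg (k L t r n : ℕ) (ht : 1 ≤ t) : 0 ≤ er k L t r n := by
  obtain ⟨h0, h1, _⟩ := CC_q ht
  have h2 : (1 / (24 * (t : ℝ))) ^ (k + 1) ≤ 1 := pow_le_one₀ h0 (by linarith)
  have h3 : 0 ≤ 1 - (1 / (24 * (t : ℝ))) ^ (k + 1) := by linarith
  unfold er
  positivity

theorem CC_disj (N i j : ℕ) (hij : i ≠ j) : Disjoint (blk N (str i)) (blk N (str j)) := by
  have hne : str i ≠ str j := fun h => hij (str_injective h)
  by_cases hl : (str i).length = (str j).length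
  · exact blk_disj N _ _ hl hne
  · rw [Finset.disjoint_left]
    intro x hx hx'
    rw [blk, Finset.mem_filter] at hx hx'
    obtain ⟨_, a, _, ha⟩ := hx
    obtain ⟨_, b, _, hb⟩ := hx'
    rw [ha] at hb
    have h1 := congrArg List.length hb
    rw [List.length_append, List.length_append, length_bitsOf, length_bitsOf] at h1
    omega

theorem CC_len_mono {i j : ℕ} (h : i ≤ j) : (str i).length ≤ (str j).length := by
  rw [length_str, length_str]
  exact Nat.log_mono_right (by omega)

theorem CC_point (η : ℝ) (hη : 0 ≤ η) (X : Finset ℕ) (P : ℕ → Prop) [DecidablePred P] (K : ℕ)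
    (hK : X.card = K) (h : (1 / 2 + η) * K ≤ ((X.filter P).card : ℝ)) :
    1 ≤ Real.exp ((2 * η - 4 * η ^ 2) * K) *
      ∏ i ∈ X, (if P i then (1 : ℝ) else Real.exp (-4 * η)) := by
  rw [Finset.prod_ite]
  simp only [Finset.prod_const_one, one_mul, Finset.prod_const]
  have hc : (X.filter P).card + (X.filter (fun i => ¬ P i)).card = K := by
    rw [← hK]
    exact Finset.card_filter_add_card_filter_not (s := X) P
  have hc' : ((X.filter P).card : ℝ) + ((X.filter (fun i => ¬ P i)).card : ℝ) = K := by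
    exact_mod_cast hc
  rw [← Real.exp_nat_mul, ← Real.exp_add]
  apply Real.one_le_exp
  have h2 : ((X.filter (fun i => ¬ P i)).card : ℝ) ≤ (1 / 2 - η) * K := by linarith
  have h3 := mul_le_mul_of_nonneg_left h2 (by linarith : (0 : ℝ) ≤ 4 * η)
  nlinarith [h3]

theorem CC_num (η : ℝ) (K : ℕ) (err : ℝ) (herr : 0 ≤ err) :
    Real.exp ((2 * η - 4 * η ^ 2) * K) * (((1 + Real.exp (-4 * η)) / 2) ^ K + err) ≤
      Real.exp (-2 * η ^ 2 * K) + 2 ^ K * err := by
  have h1 : (1 + Real.exp (-4 * η)) / 2 ≤ Real.exp (-2 * η + 2 * η ^ 2) := by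
    have h2 : (1 + Real.exp (-4 * η)) / 2 = Real.exp (-2 * η) * Real.cosh (2 * η) := by
      rw [Real.cosh_eq]
      have e1 : Real.exp (-2 * η) * Real.exp (2 * η) = 1 := by
        rw [← Real.exp_add]
        have : -2 * η + 2 * η = 0 := by ring
        rw [this, Real.exp_zero]
      have e2 : Real.exp (-2 * η) * Real.exp (-(2 * η)) = Real.exp (-4 * η) := by
        rw [← Real.exp_add]
        congr 1
        ring
      calc (1 + Real.exp (-4 * η)) / 2
          = (Real.exp (-2 * η) * Real.exp (2 * η) +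
              Real.exp (-2 * η) * Real.exp (-(2 * η))) / 2 := by rw [e1, e2]
        _ = _ := by ring
    rw [h2]
    have h3 := Real.cosh_le_exp_half_sq (2 * η)
    calc Real.exp (-2 * η) * Real.cosh (2 * η)
        ≤ Real.exp (-2 * η) * Real.exp ((2 * η) ^ 2 / 2) :=
          mul_le_mul_of_nonneg_left h3 (Real.exp_pos _).le
      _ = Real.exp (-2 * η + 2 * η ^ 2) := by
          rw [← Real.exp_add]
          congr 1
          ring
  have h4 : ((1 + Real.exp (-4 * η)) / 2) ^ K ≤ Real.exp ((-2 * η + 2 * η ^ 2) * K) := by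
    have h5 : Real.exp ((-2 * η + 2 * η ^ 2) * K) = Real.exp (-2 * η + 2 * η ^ 2) ^ K := by
      rw [← Real.exp_nat_mul]
      congr 1
      ring
    rw [h5]
    exact pow_le_pow_left₀ (by positivity) h1 K
  have h6 : Real.exp ((2 * η - 4 * η ^ 2) * K) * ((1 + Real.exp (-4 * η)) / 2) ^ K ≤
      Real.exp (-2 * η ^ 2 * K) := by
    calc Real.exp ((2 * η - 4 * η ^ 2) * K) * ((1 + Real.exp (-4 * η)) / 2) ^ K
        ≤ Real.exp ((2 * η - 4 * η ^ 2) * K) * Real.exp ((-2 * η + 2 * η ^ 2) * K) :=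
          mul_le_mul_of_nonneg_left h4 (Real.exp_pos _).le
      _ = Real.exp (-2 * η ^ 2 * K) := by
          rw [← Real.exp_add]
          congr 1
          ring
  have h7 : Real.exp ((2 * η - 4 * η ^ 2) * K) ≤ 2 ^ K := by
    have h8 : (2 : ℝ) ^ K = Real.exp (Real.log 2 * K) := by
      rw [mul_comm, Real.exp_nat_mul, Real.exp_log (by norm_num)]
    rw [h8]
    apply Real.exp_le_exp.2
    apply mul_le_mul_of_nonneg_right _ (Nat.cast_nonneg K)
    have h9 := Real.log_two_gt_d9
    nlinarith [sq_nonneg (2 * η - 1 / 2)]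
  rw [mul_add]
  exact add_le_add h6 (mul_le_mul_of_nonneg_right h7 herr)

theorem t_CC (h1 : St_RW) (h2 : St_STP) (h3 : St_BX) (h4 : St_SW) : St_CC := by
  classical
  intro M p k N i₀ i₁ K z l t c η hη hN hl hmono ht hp
  have hω0 : 0 ≤ Real.exp (-4 * η) := (Real.exp_pos _).le
  have hω1 : Real.exp (-4 * η) ≤ 1 := Real.exp_le_one_iff.2 (by linarith)
  have hmain : Ex unif (fun a : Fin N → Bool => ∑ X ∈ (Finset.Ico i₀ i₁).powersetCard K,
      ind (bX (acc M p k N z) i₀ X a) *
        ∏ i ∈ X, (if par (blk N (str i)) a = c then (1 : ℝ) else Real.exp (-4 * η))) ≤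
      ((1 + Real.exp (-4 * η)) / 2) ^ K + ∑ i ∈ Finset.Ico i₀ i₁, 2 * K * ((i : ℝ) + 1) ^ K *
        er k (Lb p k (l (str i).length)) (t (str i).length) ((K + 1) * t (str i).length)
          (str i).length := by
    refine h1 (Fin N) inferInstance inferInstance (acc M p k N z) (fun i => blk N (str i)) i₀ i₁ K
      (fun i => er k (Lb p k (l (str i).length)) (t (str i).length) ((K + 1) * t (str i).length)
        (str i).length) c (Real.exp (-4 * η)) hω0 hω1 ?_ ?_ ?_
    · intro i _ j _ hij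
      exact CC_disj N i j hij
    · intro i
      exact CC_er_nonneg _ _ _ _ _ (ht _)
    · intro c' X hX hXne hXK G hG hGi
      obtain ⟨m, hm⟩ : ∃ m, m = X.sup id := ⟨_, rfl⟩
      have hmX : m ∈ X := by
        obtain ⟨i, hi, hi'⟩ := Finset.exists_mem_eq_sup X hXne id
        rw [hm, hi']
        exact hi
      have hmI := Finset.mem_Ico.1 (hX hmX)
      obtain ⟨n, hn⟩ : ∃ n, n = (str m).length := ⟨_, rfl⟩
      obtain ⟨hq0, hq3, hq12⟩ := CC_q (ht n)
      have hqk0 : 0 ≤ (1 / (24 * (t n : ℝ))) ^ k := pow_nonneg hq0 _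
      have hqk1 : (1 / (24 * (t n : ℝ))) ^ k ≤ 1 := pow_le_one₀ hq0 (by linarith)
      have hSW := h4 M p k N (l n) (t n) (1 / (24 * (t n : ℝ))) z (Finset.Ico i₀ (m + 1)) (ht n)
        hq0 hq3 (by
          intro i hi
          rw [Finset.mem_Ico] at hi
          refine (hl i (Finset.mem_Ico.2 ⟨hi.1, by omega⟩)).trans (hmono ?_)
          rw [hn]
          exact CC_len_mono (by omega)) (hp n)
      have hLb : ((l n : ℕ) : ℝ) ≤ ((Lb p k (l n) : ℕ) : ℝ) := by
        have : l n ≤ Lb p k (l n) := by unfold Lb; exact Nat.le_add_right _ _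
        exact_mod_cast this
      have hSW' : ((l n : ℝ) + 1) * (k * 2 ^ (Lb p k (l n) + 2) *
          (12 * (t n : ℝ) * (1 / (24 * (t n : ℝ)))) ^ (t n + 1)) ≤
          ((Lb p k (l n) : ℝ) + 1) * (k * 2 ^ (Lb p k (l n) + 2) * (1 / 2) ^ (t n + 1)) := by
        rw [hq12]
        refine mul_le_mul_of_nonneg_right (by linarith) (by positivity)
      have hmlt : X.sup id + 1 < 2 ^ (n + 1) := by
        rw [← hm, hn, length_str]
        exact Nat.lt_pow_succ_log_self one_lt_two _
      have hBX := h3 (Fin N) inferInstance inferInstance (t n) n K i₀ (1 / (24 * (t n : ℝ)))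
        ((1 / (24 * (t n : ℝ))) ^ k)
        (((Lb p k (l n) : ℝ) + 1) * (k * 2 ^ (Lb p k (l n) + 2) * (1 / 2) ^ (t n + 1)))
        X (acc M p k N z) (ht n) hq0 hq3 hqk0 hqk1 hXne hXK
        (fun i hi => (Finset.mem_Ico.1 (hX hi)).1) hmlt (by
          rw [← hm]
          refine le_trans (le_of_eq ?_) (hSW.trans hSW')
          refine congrArg _ (funext fun ρ => ?_)
          by_cases hρ : ∀ i ∈ Finset.Ico i₀ (m + 1), DTr (t n) (rs (acc M p k N z i) ρ)
          · rw [if_neg (not_not.2 hρ), if_neg (not_not.2 hρ)]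
          · rw [if_pos hρ, if_pos hρ])
      rw [← pow_succ, hq12] at hBX
      have hqs1 : (1 / (24 * (t n : ℝ))) ^ (k + 1) ≤ 1 := pow_le_one₀ hq0 (by linarith)
      have hcard : ((K + 1) * t n + 1) * (2 ^ n / ((K + 1) * t n + 1)) ≤ (blk N (str m)).card := by
        rw [blk_card N (str m) (hN m (hX hmX)), ← hn]
        exact Nat.mul_div_le _ _
      have hSTP := h2 (Fin N) inferInstance inferInstance ((K + 1) * t n) ((K + 1) * t n)
        (2 ^ n / ((K + 1) * t n + 1)) ((1 / (24 * (t n : ℝ))) ^ (k + 1)) _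
        (bX (acc M p k N z) i₀ X) G (blk N (str m)) c' (pow_nonneg hq0 _) hqs1 le_rfl hcard hG
        (by
          intro a i hi v
          refine hGi a i ?_ v
          rw [← hm]
          exact hi) hBX
      show _ ≤ _ + er k (Lb p k (l (str (X.sup id)).length)) (t (str (X.sup id)).length)
        ((K + 1) * t (str (X.sup id)).length) (str (X.sup id)).length
      rw [← hm, ← hn]
      exact hSTP


  have herr : 0 ≤ ∑ i ∈ Finset.Ico i₀ i₁, 2 * (K : ℝ) * ((i : ℝ) + 1) ^ K *
        er k (Lb p k (l (str i).length)) (t (str i).length) ((K + 1) * t (str i).length)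
          (str i).length :=
    Finset.sum_nonneg fun i _ => mul_nonneg (by positivity) (CC_er_nonneg _ _ _ _ _ (ht _))
  refine le_trans ?_ (CC_num η K _ herr)
  refine le_trans ?_ (mul_le_mul_of_nonneg_left hmain (Real.exp_pos _).le)
  rw [← Ex_smul]
  refine Ex_mono unif_nonneg fun a => ?_
  have hnn : ∀ X ∈ (Finset.Ico i₀ i₁).powersetCard K, 0 ≤ ind (bX (acc M p k N z) i₀ X a) *
      ∏ i ∈ X, (if par (blk N (str i)) a = c then (1 : ℝ) else Real.exp (-4 * η)) := by
    intro X _
    refine mul_nonneg ?_ (Finset.prod_nonneg fun i _ => ?_)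
    · unfold ind
      split_ifs <;> norm_num
    · split_ifs
      · norm_num
      · exact hω0
  split_ifs with hex
  · obtain ⟨X, hX, hXK, hb, hcount⟩ := hex
    have hp1 := CC_point η hη X (fun i => par (blk N (str i)) a = c) K hXK (by
      refine le_trans hcount (le_of_eq ?_)
      congr)
    have hs := Finset.single_le_sum hnn (Finset.mem_powersetCard.2 ⟨hX, hXK⟩)
    refine le_trans ?_ (mul_le_mul_of_nonneg_left hs (Real.exp_pos _).le)
    rw [hb]
    have hi1 : ind true = 1 := by simp [ind]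
    rw [hi1, one_mul]
    refine le_trans hp1 (le_of_eq ?_)
    congr
  · exact mul_nonneg (Real.exp_pos _).le (Finset.sum_nonneg hnn)

end Pool.Agent.H861R4.IM
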