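import Pool.Agent.H861R4.IM.Defs2

/-! Task CUB: the cube bound. -/

namespace Pool.Agent.H861R4.IM

open Pool.Agent.NPC Finset H568R2 Pool.Agent.H676 Pool.Agent.H620R2.Gauge MeasureTheory

theorem CUB_q {t : ℕ} (ht : 1 ≤ t) : 0 ≤ 1 / (24 * (t : ℝ)) ∧ 1 / (24 * (t : ℝ)) ≤ 1 / 3 ∧
    12 * (t : ℝ) * (1 / (24 * (t : ℝ))) = 1 / 2 := by
  have h1 : (1 : ℝ) ≤ t := by exact_mod_cast ht
  refine ⟨by positivity, ?_, ?_⟩
  · rw [div_le_div_iff₀ (by positivity) (by norm_num)]
    linarith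
  · field_simp
    norm_num

theorem CUB_er_nonneg (k L t r n : ℕ) (ht : 1 ≤ t) : 0 ≤ er k L t r n := by
  obtain ⟨h0, h1, _⟩ := CUB_q ht
  have h2 : (1 / (24 * (t : ℝ))) ^ (k + 1) ≤ 1 := pow_le_one₀ h0 (by linarith)
  have h3 : 0 ≤ 1 - (1 / (24 * (t : ℝ))) ^ (k + 1) := by linarith
  unfold er
  positivity

theorem CUB_disj (N i j : ℕ) (hij : i ≠ j) : Disjoint (blk N (str i)) (blk N (str j)) := by
  have hne : str i ≠ str j := fun h => hij (str_injective h)
  by_cases hl : (str i).length = (str j).length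
  · exact blk_disj N _ _ hl hne
  · rw [Finset.disjoint_left]
    intro x hx hx'
    rw [blk, Finset.mem_filter] at hx hx'
    obtain ⟨_, a, _, ha⟩ := hx
    obtain ⟨_, b, _, hb⟩ := hx'
    rw [ha] at hb
    have h1 := congrArg List.length hb
    rw [List.length_append, List.length_append, length_bitsOf, length_bitsOf] at h1
    omega

theorem CUB_len_mono {i j : ℕ} (h : i ≤ j) : (str i).length ≤ (str j).length := by
  rw [length_str, length_str]
  exact Nat.log_mono_right (by omega)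

theorem t_CUB (h1 : St_REC) (h2 : St_STP) (h3 : St_BX) (h4 : St_SW) : St_CUB := by
  classical
  intro M p k N i₀ i₁ K z l t c hN hl hmono ht hp
  refine h1 (Fin N) inferInstance inferInstance (acc M p k N z) (fun i => blk N (str i)) i₀ i₁ K
    (fun i => er k (Lb p k (l (str i).length)) (t (str i).length) ((K + 1) * t (str i).length)
      (str i).length) c ?_ ?_ ?_
  · intro i _ j _ hij
    exact CUB_disj N i j hij
  · intro i
    exact CUB_er_nonneg _ _ _ _ _ (ht _)
  · intro X hX hXne hXK G hG hGi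
    obtain ⟨m, hm⟩ : ∃ m, m = X.sup id := ⟨_, rfl⟩
    have hmX : m ∈ X := by
      obtain ⟨i, hi, hi'⟩ := Finset.exists_mem_eq_sup X hXne id
      rw [hm, hi']
      exact hi
    have hmI := Finset.mem_Ico.1 (hX hmX)
    obtain ⟨n, hn⟩ : ∃ n, n = (str m).length := ⟨_, rfl⟩
    obtain ⟨hq0, hq3, hq12⟩ := CUB_q (ht n)
    have hqk0 : 0 ≤ (1 / (24 * (t n : ℝ))) ^ k := pow_nonneg hq0 _
    have hqk1 : (1 / (24 * (t n : ℝ))) ^ k ≤ 1 := pow_le_one₀ hq0 (by linarith)
    have hSW := h4 M p k N (l n) (t n) (1 / (24 * (t n : ℝ))) z (Finset.Ico i₀ (m + 1)) (ht n)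
      hq0 hq3 (by
        intro i hi
        rw [Finset.mem_Ico] at hi
        refine (hl i (Finset.mem_Ico.2 ⟨hi.1, by omega⟩)).trans (hmono ?_)
        rw [hn]
        exact CUB_len_mono (by omega)) (hp n)
    have hLb : ((l n : ℕ) : ℝ) ≤ ((Lb p k (l n) : ℕ) : ℝ) := by
      have : l n ≤ Lb p k (l n) := by unfold Lb; exact Nat.le_add_right _ _
      exact_mod_cast this
    have hSW' : ((l n : ℝ) + 1) * (k * 2 ^ (Lb p k (l n) + 2) *
        (12 * (t n : ℝ) * (1 / (24 * (t n : ℝ)))) ^ (t n + 1)) ≤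
        ((Lb p k (l n) : ℝ) + 1) * (k * 2 ^ (Lb p k (l n) + 2) * (1 / 2) ^ (t n + 1)) := by
      rw [hq12]
      refine mul_le_mul_of_nonneg_right (by linarith) (by positivity)
    have hmlt : X.sup id + 1 < 2 ^ (n + 1) := by
      rw [← hm, hn, length_str]
      exact Nat.lt_pow_succ_log_self one_lt_two _
    have hBX := h3 (Fin N) inferInstance inferInstance (t n) n K i₀ (1 / (24 * (t n : ℝ)))
      ((1 / (24 * (t n : ℝ))) ^ k)
      (((Lb p k (l n) : ℝ) + 1) * (k * 2 ^ (Lb p k (l n) + 2) * (1 / 2) ^ (t n + 1)))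
      X (acc M p k N z) (ht n) hq0 hq3 hqk0 hqk1 hXne hXK
      (fun i hi => (Finset.mem_Ico.1 (hX hi)).1) hmlt (by
        rw [← hm]
        refine le_trans (le_of_eq ?_) (hSW.trans hSW')
        refine congrArg _ (funext fun ρ => ?_)
        by_cases hρ : ∀ i ∈ Finset.Ico i₀ (m + 1), DTr (t n) (rs (acc M p k N z i) ρ)
        · rw [if_neg (not_not.2 hρ), if_neg (not_not.2 hρ)]
        · rw [if_pos hρ, if_pos hρ])
    rw [← pow_succ, hq12] at hBX
    have hqs1 : (1 / (24 * (t n : ℝ))) ^ (k + 1) ≤ 1 := pow_le_one₀ hq0 (by linarith)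
    have hcard : ((K + 1) * t n + 1) * (2 ^ n / ((K + 1) * t n + 1)) ≤ (blk N (str m)).card := by
      rw [blk_card N (str m) (hN m (hX hmX)), ← hn]
      exact Nat.mul_div_le _ _
    have hSTP := h2 (Fin N) inferInstance inferInstance ((K + 1) * t n) ((K + 1) * t n)
      (2 ^ n / ((K + 1) * t n + 1)) ((1 / (24 * (t n : ℝ))) ^ (k + 1)) _
      (bX (acc M p k N z) i₀ X) G (blk N (str m)) c (pow_nonneg hq0 _) hqs1 le_rfl hcard hG
      (by
        intro a i hi v
        refine hGi a i ?_ v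
        rw [← hm]
        exact hi) hBX
    show _ ≤ _ + er k (Lb p k (l (str (X.sup id)).length)) (t (str (X.sup id)).length)
      ((K + 1) * t (str (X.sup id)).length) (str (X.sup id)).length
    rw [← hm, ← hn]
    exact hSTP

end Pool.Agent.H861R4.IM
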