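import Pool.Agent.H861R4.IM.Defs3
import Pool.Agent.H620R2.Gauge.A1
import Pool.Agent.H620R2.Gauge.P

/-! FB: the main theorem, even splitting (adapted from `T_FIN` of helper758). -/

set_option autoImplicit false

namespace Pool.Agent.H861R4.IM

open Pool.Agent.NPC Finset H568R2 Pool.Agent.H676 Pool.Agent.H620R2.Gauge MeasureTheory

theorem FB_countable_poly : Countable (Polynomial ℕ) := by
  have : Function.Injective (fun p : Polynomial ℕ => (p.toFinsupp.coeff : ℕ →₀ ℕ)) := by
    intro p q h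
    ext n
    exact DFunLike.congr_fun h n
  exact this.countable

theorem FB_infinite (T : Set (List Bool)) (h : ∀ n₀ : ℕ, ∃ x ∈ T, n₀ ≤ x.length) :
    T.Infinite := by
  intro hfin
  obtain ⟨B, hB⟩ := (hfin.image List.length).bddAbove
  obtain ⟨x, hx, hlen⟩ := h (B + 1)
  have := hB (Set.mem_image_of_mem List.length hx)
  omega

theorem FB_fn {M : Alg} {A : Oracle} {V : List Bool → List Bool}
    (hM : ∀ x, M.out A x = some (V x)) : fn M A = V := by
  funext x
  unfold fn
  rw [hM x]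
  rfl

theorem FB_r1 (r : Polynomial ℕ) : ∀ n, 1 ≤ (Polynomial.C 4 * r + 1).eval n := by
  intro n
  rw [Polynomial.eval_add, Polynomial.eval_one]
  omega

/-- the arithmetic of the last step -/
theorem FB_arith (a b m K1 K2 r : ℝ) (hr : 0 ≤ r) (hK1 : 0 ≤ K1) (hK2 : 0 ≤ K2) (hab : a + b = m)
    (hm0 : 0 ≤ m) (h1 : a ≤ (1 / 2 + 1 / (4 * r + 1)) * m + K1)
    (h2 : b ≤ (1 / 2 + 1 / (4 * r + 1)) * m + K2) (hm : 4 * r * (K1 + K2) ≤ m) :
    r * |a - b| ≤ m := by
  have h3 : |a - b| ≤ 2 * (1 / (4 * r + 1)) * m + 2 * (K1 + K2) := by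
    rw [abs_le]
    constructor
    · nlinarith
    · nlinarith
  have h4 : r * (2 * (1 / (4 * r + 1)) * m) ≤ m / 2 := by
    have h5 : r * (2 * (1 / (4 * r + 1))) ≤ 1 / 2 := by
      rw [show r * (2 * (1 / (4 * r + 1))) = (2 * r) / (4 * r + 1) by ring,
        div_le_div_iff₀ (by linarith) (by norm_num)]
      linarith
    calc r * (2 * (1 / (4 * r + 1)) * m) = (r * (2 * (1 / (4 * r + 1)))) * m := by ring
      _ ≤ 1 / 2 * m := mul_le_mul_of_nonneg_right h5 hm0
      _ = m / 2 := by ring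
  calc r * |a - b| ≤ r * (2 * (1 / (4 * r + 1)) * m + 2 * (K1 + K2)) :=
        mul_le_mul_of_nonneg_left h3 hr
    _ = r * (2 * (1 / (4 * r + 1)) * m) + 4 * r * (K1 + K2) / 2 := by ring
    _ ≤ m / 2 + m / 2 := add_le_add h4 (by linarith)
    _ = m := by ring

theorem t_FB (h1 : St_UNI) (h2 : St_NO2) (h3 : St_PAR) : St_FB := by
  have := FB_countable_poly
  choose K hK using h2
  have hU : ∀ᵐ A ∂ranO, ∀ (M : Alg) (p : Polynomial ℕ) (k : ℕ) (c : Bool),
      (∀ x, (M.out A x).isSome) →
      {x : List Bool | Quant (p.eval x.length) (fn M A) k true x}.Infinite →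
      ∀ n₀ : ℕ, ∃ x : List Bool, n₀ ≤ x.length ∧ Quant (p.eval x.length) (fn M A) k true x ∧
        ¬ (x ∈ parLang A ↔ c = true) :=
    ae_all_iff.2 fun M => ae_all_iff.2 fun p => ae_all_iff.2 fun k => ae_all_iff.2 fun c =>
      h1 M p k c
  have hN : ∀ᵐ A ∂ranO, ∀ (M : Alg) (p : Polynomial ℕ) (k : ℕ) (p' r : Polynomial ℕ) (c : Bool),
      ∀ᶠ n : ℕ in Filter.atTop, ∀ h : List Bool, h.length ≤ p'.eval n →
        ((Set.ncard {x : List Bool | x.length = n ∧
          Quant (p.eval (pairBits x h).length) (fn M A) k true (pairBits x h) ∧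
          (x ∈ parLang A ↔ c = true)} : ℕ) : ℝ) ≤
        (1 / 2 + 1 / (((Polynomial.C 4 * r + 1).eval n : ℕ) : ℝ)) *
          ((Set.ncard {x : List Bool | x.length = n ∧
          Quant (p.eval (pairBits x h).length) (fn M A) k true (pairBits x h)} : ℕ) : ℝ) +
        (((K M p k p' (Polynomial.C 4 * r + 1) c (FB_r1 r)).eval n : ℕ) : ℝ) :=
    ae_all_iff.2 fun M => ae_all_iff.2 fun p => ae_all_iff.2 fun k => ae_all_iff.2 fun p' =>
      ae_all_iff.2 fun r => ae_all_iff.2 fun c => hK M p k p' (Polynomial.C 4 * r + 1) c (FB_r1 r)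
  unfold St_FB
  filter_upwards [hU, hN] with A hUA hNA
  refine ⟨h3 A, parLang_pspace A, ?_, ?_⟩
  · rintro S ⟨V, p, k, ⟨M, hM⟩, hS⟩ hinf
    have hfn := FB_fn hM
    have htot : ∀ x, (M.out A x).isSome := fun x => by rw [hM x]; rfl
    have hset : {x : List Bool | Quant (p.eval x.length) (fn M A) k true x} = S := by
      ext x
      rw [hfn]
      exact (hS x).symm
    constructor
    · apply FB_infinite
      intro n₀
      obtain ⟨x, hx1, hx2, hx3⟩ := hUA M p k false htot (by rw [hset]; exact hinf) n₀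
      rw [hfn] at hx2
      refine ⟨x, ⟨(hS x).2 hx2, ?_⟩, hx1⟩
      by_contra hx
      exact hx3 ⟨fun h => absurd h hx, fun h => absurd h (by simp)⟩
    · apply FB_infinite
      intro n₀
      obtain ⟨x, hx1, hx2, hx3⟩ := hUA M p k true htot (by rw [hset]; exact hinf) n₀
      rw [hfn] at hx2
      refine ⟨x, ⟨(hS x).2 hx2, ?_⟩, hx1⟩
      intro hx
      exact hx3 ⟨fun _ => rfl, fun _ => hx⟩
  · rintro S ⟨L', h, p', ⟨V, p, k, ⟨M, hM⟩, hL'⟩, hh, hx⟩ r
    have hfn := FB_fn hM
    obtain ⟨n₁, hn₁⟩ := Filter.eventually_atTop.1 (hNA M p k p' r false)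
    obtain ⟨n₂, hn₂⟩ := Filter.eventually_atTop.1 (hNA M p k p' r true)
    set K1 : Polynomial ℕ := K M p k p' (Polynomial.C 4 * r + 1) true (FB_r1 r) with hK1
    set K2 : Polynomial ℕ := K M p k p' (Polynomial.C 4 * r + 1) false (FB_r1 r) with hK2
    set B : ℕ := ∑ n ∈ Finset.range (max n₁ n₂), Set.ncard {x : List Bool | x.length = n} with hB
    refine ⟨Polynomial.C 4 * r * (K1 + K2) + Polynomial.C (B + 1), ?_⟩
    intro n hq
    rw [Polynomial.eval_add, Polynomial.eval_C, Polynomial.eval_mul, Polynomial.eval_mul,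
      Polynomial.eval_C, Polynomial.eval_add] at hq
    have hfin : {x : List Bool | x.length = n}.Finite := List.finite_length_eq Bool n
    have hle : Set.ncard {x : List Bool | x ∈ S ∧ x.length = n} ≤
        Set.ncard {x : List Bool | x.length = n} :=
      Set.ncard_le_ncard (fun x hx => hx.2) hfin
    have hn : max n₁ n₂ ≤ n := by
      by_contra hlt
      push Not at hlt
      have h4 : Set.ncard {x : List Bool | x.length = n} ≤ B :=
        Finset.single_le_sum (f := fun n => Set.ncard {x : List Bool | x.length = n})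
          (fun _ _ => Nat.zero_le _) (Finset.mem_range.2 hlt)
      omega
    have hiff : ∀ x : List Bool, x.length = n →
        (x ∈ S ↔ Quant (p.eval (pairBits x (h n)).length) (fn M A) k true (pairBits x (h n))) := by
      intro x hxn
      rw [hfn]
      subst hxn
      exact (hx x).trans (hL' _)
    have hset : {x : List Bool | x.length = n ∧
          Quant (p.eval (pairBits x (h n)).length) (fn M A) k true (pairBits x (h n))} =
        {x : List Bool | x ∈ S ∧ x.length = n} := by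
      ext x
      constructor
      · rintro ⟨h5, h6⟩
        exact ⟨(hiff x h5).2 h6, h5⟩
      · rintro ⟨h5, h6⟩
        exact ⟨h6, (hiff x h6).1 h5⟩
    have hset1 : {x : List Bool | x.length = n ∧
          Quant (p.eval (pairBits x (h n)).length) (fn M A) k true (pairBits x (h n)) ∧
          (x ∈ parLang A ↔ true = true)} =
        {x : List Bool | x ∈ S ∩ parLang A ∧ x.length = n} := by
      ext x
      constructor
      · rintro ⟨h5, h6, h7⟩
        exact ⟨⟨(hiff x h5).2 h6, h7.2 rfl⟩, h5⟩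
      · rintro ⟨⟨h5, h7⟩, h6⟩
        exact ⟨h6, (hiff x h6).1 h5, ⟨fun _ => rfl, fun _ => h7⟩⟩
    have hset2 : {x : List Bool | x.length = n ∧
          Quant (p.eval (pairBits x (h n)).length) (fn M A) k true (pairBits x (h n)) ∧
          (x ∈ parLang A ↔ false = true)} =
        {x : List Bool | x ∈ S \ parLang A ∧ x.length = n} := by
      ext x
      constructor
      · rintro ⟨h5, h6, h7⟩
        exact ⟨⟨(hiff x h5).2 h6, fun hx => absurd (h7.1 hx) (by simp)⟩, h5⟩
      · rintro ⟨⟨h5, h7⟩, h6⟩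
        exact ⟨h6, (hiff x h6).1 h5, ⟨fun hx => absurd hx h7, fun hx => absurd hx (by simp)⟩⟩
    have e2 := hn₁ n ((le_max_left _ _).trans hn) (h n) (hh n)
    have e1 := hn₂ n ((le_max_right _ _).trans hn) (h n) (hh n)
    rw [hset1, hset] at e1
    rw [hset2, hset] at e2
    have hr1 : (((Polynomial.C 4 * r + 1).eval n : ℕ) : ℝ) = 4 * ((r.eval n : ℕ) : ℝ) + 1 := by
      rw [Polynomial.eval_add, Polynomial.eval_one, Polynomial.eval_mul, Polynomial.eval_C]
      push_cast
      ring
    rw [hr1] at e1 e2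
    have hsum : Set.ncard {x : List Bool | x ∈ S ∩ parLang A ∧ x.length = n} +
        Set.ncard {x : List Bool | x ∈ S \ parLang A ∧ x.length = n} =
        Set.ncard {x : List Bool | x ∈ S ∧ x.length = n} := by
      rw [← Set.ncard_union_eq ?_ (hfin.subset fun x hx => hx.2) (hfin.subset fun x hx => hx.2)]
      · congr 1
        ext x
        constructor
        · rintro (⟨h5, h6⟩ | ⟨h5, h6⟩)
          · exact ⟨h5.1, h6⟩
          · exact ⟨h5.1, h6⟩
        · rintro ⟨h5, h6⟩
          by_cases h7 : x ∈ parLang A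
          · exact Or.inl ⟨⟨h5, h7⟩, h6⟩
          · exact Or.inr ⟨⟨h5, h7⟩, h6⟩
      · rw [Set.disjoint_left]
        rintro x ⟨h5, -⟩ ⟨h6, -⟩
        exact h6.2 h5.2
    refine FB_arith _ _ _ ((K1.eval n : ℕ) : ℝ) ((K2.eval n : ℕ) : ℝ) _ (Nat.cast_nonneg _)
      (Nat.cast_nonneg _) (Nat.cast_nonneg _) (by exact_mod_cast hsum) (Nat.cast_nonneg _) e1 e2 ?_
    have h8 : 4 * r.eval n * (K1.eval n + K2.eval n) ≤
        Set.ncard {x : List Bool | x ∈ S ∧ x.length = n} := by omega
    exact_mod_cast h8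

end Pool.Agent.H861R4.IM
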