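import Pool.Agent.H861R4.IM.Defs
import Pool.Agent.H676.DT

/-! Task IND (helper997) -/

namespace Pool.Agent.H861R4.IM

open Pool.Agent.NPC Finset H568R2 Pool.Agent.H676 Pool.Agent.H620R2.Gauge

namespace IND

theorem sgb_sq (b : Bool) : sgb b * sgb b = 1 := by
  cases b <;> norm_num [sgb]

theorem split_ind (b c : Bool) : (if b = c then (1 : ℝ) else 0) * sgb b =
    1 / 2 * (sgb c + sgb b) := by
  cases b <;> cases c <;> norm_num [sgb]

theorem flip_zero {I : Type} [Fintype I] [DecidableEq I] (i : I) (F : (I → Bool) → ℝ)
    (h : ∀ a, F (Function.update a i (!a i)) = - F a) : ∑ a, F a = 0 := by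
  have hinv : ∀ a : I → Bool, Function.update (Function.update a i (!a i)) i
      (!(Function.update a i (!a i)) i) = a := by
    intro a
    rw [Function.update_idem, Function.update_self, Bool.not_not, Function.update_eq_self]
  let e : (I → Bool) ≃ (I → Bool) := ⟨fun a => Function.update a i (!a i),
    fun a => Function.update a i (!a i), hinv, hinv⟩
  have h1 : ∑ a, F a = ∑ a, F (e a) := (Equiv.sum_comp e F).symm
  have h2 : ∑ a, F (e a) = - ∑ a, F a := by
    rw [← Finset.sum_neg_distrib]
    exact Finset.sum_congr rfl fun a _ => h a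
  linarith

theorem const_case {I : Type} [Fintype I] [DecidableEq I] (c : ℝ) (G : (I → Bool) → ℝ)
    (B : Finset I) (hB : 0 < B.card)
    (hG : ∀ a, ∀ i ∈ B, ∀ v, G (Function.update a i v) = G a) :
    ∑ a : I → Bool, c * G a * ∏ i ∈ B, sgb (a i) = 0 := by
  obtain ⟨i, hi⟩ := Finset.card_pos.mp hB
  refine flip_zero i _ ?_
  intro a
  show c * G (Function.update a i (!a i)) * ∏ j ∈ B, sgb (Function.update a i (!a i) j)
    = -(c * G a * ∏ j ∈ B, sgb (a j))
  rw [hG a i hi, ← Finset.mul_prod_erase B _ hi, ← Finset.mul_prod_erase B (fun j => sgb (a j)) hi]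
  have h1 : ∏ j ∈ B.erase i, sgb (Function.update a i (!a i) j) = ∏ j ∈ B.erase i, sgb (a j) := by
    refine Finset.prod_congr rfl fun j hj => ?_
    rw [Function.update_of_ne (Finset.ne_of_mem_erase hj)]
  have h2 : sgb (!a i) = - sgb (a i) := by
    cases a i <;> norm_num [sgb]
  rw [h1, Function.update_self, h2]
  ring

theorem main {I : Type} [Fintype I] [DecidableEq I] (T : ℕ) :
    ∀ (f : (I → Bool) → Bool) (G : (I → Bool) → ℝ) (B : Finset I), DTr T f → T < B.card →
    (∀ a, ∀ i ∈ B, ∀ v, G (Function.update a i v) = G a) →
    ∑ a : I → Bool, ind (f a) * G a * ∏ i ∈ B, sgb (a i) = 0 := by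
  induction T with
  | zero =>
    intro f G B hf hB hG
    obtain ⟨c, hc⟩ := hf
    simp only [hc]
    exact const_case (ind c) G B hB hG
  | succ k ih =>
    intro f G B hf hB hG
    rcases hf with ⟨c, hc⟩ | ⟨i, hi⟩
    · simp only [hc]
      exact const_case (ind c) G B (by omega) hG
    · have hsplit : ∀ a : I → Bool, ind (f a) * G a * ∏ j ∈ B, sgb (a j)
          = ∑ b : Bool, ind (f (Function.update a i b)) * ((if a i = b then (1 : ℝ) else 0) * G a) *
            ∏ j ∈ B, sgb (a j) := by
        intro a
        rw [Fintype.sum_bool]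
        cases h : a i
        · have h1 : Function.update a i false = a := by rw [← h]; exact Function.update_eq_self _ _
          simp [h1]
        · have h1 : Function.update a i true = a := by rw [← h]; exact Function.update_eq_self _ _
          simp [h1]
      rw [Finset.sum_congr rfl fun a _ => hsplit a, Finset.sum_comm]
      refine Finset.sum_eq_zero fun b _ => ?_
      by_cases hiB : i ∈ B
      · have hterm : ∀ a : I → Bool,
            ind (f (Function.update a i b)) * ((if a i = b then (1 : ℝ) else 0) * G a) *
              ∏ j ∈ B, sgb (a j)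
            = 1 / 2 * sgb b * (ind (f (Function.update a i b)) * G a * ∏ j ∈ B.erase i, sgb (a j))
              + 1 / 2 * (ind (f (Function.update a i b)) * G a * ∏ j ∈ B, sgb (a j)) := by
          intro a
          rw [← Finset.mul_prod_erase B (fun j => sgb (a j)) hiB]
          have h2 := split_ind (a i) b
          linear_combination (ind (f (Function.update a i b)) * G a *
            ∏ j ∈ B.erase i, sgb (a j)) * h2
        rw [Finset.sum_congr rfl fun a _ => hterm a, Finset.sum_add_distrib, ← Finset.mul_sum,
          ← Finset.mul_sum]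
        rw [ih (fun x => f (Function.update x i b)) G (B.erase i) (hi b)
          (by rw [Finset.card_erase_of_mem hiB]; omega)
          (fun a j hj v => hG a j (Finset.mem_of_mem_erase hj) v),
          ih (fun x => f (Function.update x i b)) G B (hi b) (by omega) hG]
        ring
      · refine ih (fun x => f (Function.update x i b))
          (fun a => (if a i = b then (1 : ℝ) else 0) * G a) B (hi b) (by omega) ?_
        intro a j hj v
        have hne : i ≠ j := fun h => hiB (h ▸ hj)
        show (if Function.update a j v i = b then (1 : ℝ) else 0) * G (Function.update a j v) = _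
        rw [Function.update_of_ne hne, hG a j hj]

end IND

open Classical in
theorem t_IND : St_IND := by
  intro I _ _ T f G B hf hB hG
  have h := IND.main T f G B hf hB hG
  unfold Ex
  have h1 : ∀ ω : I → Bool, (∏ i, unif (ω i)) = (1 / 2 : ℝ) ^ (Fintype.card I) := by
    intro ω
    unfold unif
    simp
  simp only [h1]
  rw [← Finset.mul_sum, h, mul_zero]

end Pool.Agent.H861R4.IM
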