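import Pool.Agent.H861R4.IM.Defs2

set_option autoImplicit false

namespace Pool.Agent.H861R4.IM

theorem N1_core (k L t Q n : ℕ) (h : 2 * L + 2 * n + Q + k + 10 ≤ t) :
    (((L : ℝ) + 1) * (k * 2 ^ (L + 2) * (1 / 2) ^ (t + 1)) +
      2 ^ (2 * n + 3) * (1 / 2) ^ (t + 1)) * 2 ^ Q ≤ 1 / 2 := by
  have hL : (L : ℝ) + 1 ≤ 2 ^ L := by
    have := Nat.lt_two_pow_self (n := L)
    exact_mod_cast this
  have hk : (k : ℝ) ≤ 2 ^ k := by
    have := (Nat.lt_two_pow_self (n := k)).le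
    exact_mod_cast this
  have ht : (1 / 2 : ℝ) ^ (t + 1) ≤ (1 / 2) ^ (2 * L + 2 * n + Q + k + 10 + 1) :=
    pow_le_pow_of_le_one (by norm_num) (by norm_num) (by omega)
  have hx : (0 : ℝ) ≤ (1 / 2) ^ (t + 1) := by positivity
  have e1 : (2 : ℝ) ^ L * (2 ^ k * 2 ^ (L + 2) * (1 / 2) ^ (2 * L + 2 * n + Q + k + 10 + 1)) * 2 ^ Q ≤
      1 / 4 := by
    have e : (2 : ℝ) ^ L * (2 ^ k * 2 ^ (L + 2) * (1 / 2) ^ (2 * L + 2 * n + Q + k + 10 + 1)) * 2 ^ Q =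
        (1 / 2) ^ (2 * n + 9) := by
      rw [div_pow, one_pow, div_pow, one_pow, eq_div_iff (by positivity)]
      field_simp
      ring
    rw [e]
    calc (1 / 2 : ℝ) ^ (2 * n + 9) ≤ (1 / 2) ^ 2 :=
          pow_le_pow_of_le_one (by norm_num) (by norm_num) (by omega)
      _ = 1 / 4 := by norm_num
  have e2 : (2 : ℝ) ^ (2 * n + 3) * (1 / 2) ^ (2 * L + 2 * n + Q + k + 10 + 1) * 2 ^ Q ≤ 1 / 4 := by
    have e : (2 : ℝ) ^ (2 * n + 3) * (1 / 2) ^ (2 * L + 2 * n + Q + k + 10 + 1) * 2 ^ Q =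
        (1 / 2) ^ (2 * L + k + 8) := by
      rw [div_pow, one_pow, div_pow, one_pow, eq_div_iff (by positivity)]
      field_simp
      ring
    rw [e]
    calc (1 / 2 : ℝ) ^ (2 * L + k + 8) ≤ (1 / 2) ^ 2 :=
          pow_le_pow_of_le_one (by norm_num) (by norm_num) (by omega)
      _ = 1 / 4 := by norm_num
  have f1 : ((L : ℝ) + 1) * (k * 2 ^ (L + 2) * (1 / 2) ^ (t + 1)) * 2 ^ Q ≤
      (2 : ℝ) ^ L * (2 ^ k * 2 ^ (L + 2) * (1 / 2) ^ (2 * L + 2 * n + Q + k + 10 + 1)) * 2 ^ Q := by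
    apply mul_le_mul_of_nonneg_right _ (by positivity)
    apply mul_le_mul hL _ (by positivity) (by positivity)
    apply mul_le_mul _ ht hx (by positivity)
    exact mul_le_mul_of_nonneg_right hk (by positivity)
  have f2 : (2 : ℝ) ^ (2 * n + 3) * (1 / 2) ^ (t + 1) * 2 ^ Q ≤
      (2 : ℝ) ^ (2 * n + 3) * (1 / 2) ^ (2 * L + 2 * n + Q + k + 10 + 1) * 2 ^ Q := by
    apply mul_le_mul_of_nonneg_right _ (by positivity)
    exact mul_le_mul_of_nonneg_left ht (by positivity)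
  rw [add_mul]
  linarith

/-- N1: the first two terms of the error. -/
theorem t_N1 : St_N1 := fun k L t Q n h => N1_core k L t Q n h

end Pool.Agent.H861R4.IM
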