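import Pool.Agent.H861R4.IM.Defs2

set_option autoImplicit false

/-! Task N2: the third term of the error. -/

namespace Pool.Agent.H861R4.IM

open Asymptotics Filter

theorem N2_poly (W : Polynomial ℕ) :
    (fun n : ℕ => ((W.eval n : ℕ) : ℝ)) =o[atTop] (fun n : ℕ => (2 : ℝ) ^ n) := by
  induction W using Polynomial.induction_on' with
  | add p q hp hq =>
    have h := hp.add hq
    refine h.congr_left (fun n => ?_)
    rw [Polynomial.eval_add]
    push_cast
    rfl
  | monomial k a =>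
    have h : (fun n : ℕ => (n : ℝ) ^ k) =o[atTop] (fun n : ℕ => (2 : ℝ) ^ n) :=
      isLittleO_pow_const_const_pow_of_one_lt k (by norm_num)
    refine (h.const_mul_left (a : ℝ)).congr_left (fun n => ?_)
    rw [Polynomial.eval_monomial]
    push_cast
    rfl

theorem N2_ev (W : Polynomial ℕ) : ∀ᶠ n : ℕ in atTop, W.eval n ≤ 2 ^ n := by
  have h := (N2_poly W).bound (c := 1) one_pos
  filter_upwards [h] with n hn
  rw [one_mul, Real.norm_of_nonneg (Nat.cast_nonneg _), Real.norm_of_nonneg (by positivity)] at hn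
  exact_mod_cast hn

theorem N2_core (k p r q N : ℕ) (hp : 1 ≤ p)
    (hN : (r + 1) * (24 * p) ^ (k + 1) * (r + q + 2) ≤ N) :
    ((r : ℝ) + 1) * (1 - (1 / (24 * (p : ℝ))) ^ (k + 1)) ^ (N / (r + 1)) * 2 ^ q ≤ 1 / 2 := by
  set s := N / (r + 1) with hs
  have hpr : (0 : ℝ) < 24 * (p : ℝ) := by
    have : (0 : ℝ) < p := by exact_mod_cast hp
    linarith
  -- s is large
  have h1 : (24 * p) ^ (k + 1) * (r + q + 2) ≤ s := by
    rw [hs, Nat.le_div_iff_mul_le (Nat.succ_pos r)]
    calc (24 * p) ^ (k + 1) * (r + q + 2) * (r + 1)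
        = (r + 1) * (24 * p) ^ (k + 1) * (r + q + 2) := by ring
      _ ≤ N := hN
  set x : ℝ := (1 / (24 * (p : ℝ))) ^ (k + 1) with hx
  have hx0 : 0 < x := by positivity
  have hx1 : x ≤ 1 := by
    rw [hx]
    refine pow_le_one₀ (by positivity) ?_
    rw [div_le_one hpr]
    have : (1 : ℝ) ≤ p := by exact_mod_cast hp
    linarith
  have hxs : (r : ℝ) + q + 2 ≤ x * s := by
    have h2 : (24 * (p : ℝ)) ^ (k + 1) * ((r : ℝ) + q + 2) ≤ s := by exact_mod_cast h1
    have h3 : x * (24 * (p : ℝ)) ^ (k + 1) = 1 := by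
      rw [hx, ← mul_pow, one_div, inv_mul_cancel₀ hpr.ne', one_pow]
    calc (r : ℝ) + q + 2 = (x * (24 * (p : ℝ)) ^ (k + 1)) * ((r : ℝ) + q + 2) := by
          rw [h3, one_mul]
      _ = x * ((24 * (p : ℝ)) ^ (k + 1) * ((r : ℝ) + q + 2)) := by ring
      _ ≤ x * s := mul_le_mul_of_nonneg_left h2 hx0.le
  have h4 : (1 - x) ^ s ≤ Real.exp (-((r : ℝ) + q + 2)) := by
    calc (1 - x) ^ s ≤ (Real.exp (-x)) ^ s :=
          pow_le_pow_left₀ (by linarith) (Real.one_sub_le_exp_neg x) s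
      _ = Real.exp (-(x * s)) := by
          rw [← Real.exp_nat_mul]
          congr 1
          ring
      _ ≤ Real.exp (-((r : ℝ) + q + 2)) := Real.exp_le_exp.2 (by linarith)
  have h5 : (r : ℝ) + 1 ≤ Real.exp r := Real.add_one_le_exp _
  have h6 : (2 : ℝ) ^ q ≤ Real.exp q := by
    have h7 : (2 : ℝ) ≤ Real.exp 1 := by
      have := Real.add_one_le_exp (1 : ℝ)
      linarith
    calc (2 : ℝ) ^ q ≤ (Real.exp 1) ^ q := pow_le_pow_left₀ (by norm_num) h7 q
      _ = Real.exp q := by rw [← Real.exp_nat_mul, mul_one]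
  have h8 : Real.exp (-2) ≤ 1 / 2 := by
    have h9 : (3 : ℝ) ≤ Real.exp 2 := by
      have := Real.add_one_le_exp (2 : ℝ)
      linarith
    rw [Real.exp_neg, ← one_div]
    exact one_div_le_one_div_of_le (by norm_num) (by linarith)
  have h10 : 0 ≤ (1 - x) ^ s := pow_nonneg (by linarith) s
  calc ((r : ℝ) + 1) * (1 - x) ^ s * 2 ^ q
      ≤ Real.exp r * Real.exp (-((r : ℝ) + q + 2)) * Real.exp q := by
        gcongr
    _ = Real.exp (-2) := by
        rw [← Real.exp_add, ← Real.exp_add]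
        congr 1
        ring
    _ ≤ 1 / 2 := h8

theorem t_N2 : St_N2 := by
  intro k P R Q hP
  filter_upwards [N2_ev ((R + 1) * (24 * P) ^ (k + 1) * (R + Q + 2))] with n hn
  refine N2_core k (P.eval n) (R.eval n) (Q.eval n) (2 ^ n) (hP n) ?_
  have e : ((R + 1) * (24 * P) ^ (k + 1) * (R + Q + 2)).eval n =
      (R.eval n + 1) * (24 * P.eval n) ^ (k + 1) * (R.eval n + Q.eval n + 2) := by
    simp [Polynomial.eval_mul, Polynomial.eval_add, Polynomial.eval_pow]
  rw [← e]
  exact hn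

end Pool.Agent.H861R4.IM
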