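import Pool.Agent.H861R4.IM.Defs3
import Pool.Agent.H620R2.Gauge.S

/-!
Task NB: the nonuniform bound for even splitting.
-/

namespace Pool.Agent.H861R4.IM

open Pool.Agent.NPC Finset H568R2 Pool.Agent.H676 Pool.Agent.H620R2.Gauge MeasureTheory

theorem NB_len_pb (x w : List Bool) : (pairBits x w).length = 2 * x.length + 1 + w.length := by
  have h : ∀ x : List Bool, (x.flatMap (fun b => [true, b])).length = 2 * x.length := by
    intro x
    induction x with
    | nil => rfl
    | cons b x ih => simp only [List.flatMap_cons, List.length_append, List.length_cons,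
        List.length_nil, ih]; ring
  simp only [pairBits, List.length_append, List.length_cons, h]
  ring

theorem NB_evm (q : Polynomial ℕ) : Monotone fun n => q.eval n := by
  intro a b hab
  simp only
  rw [Polynomial.eval_eq_sum, Polynomial.eval_eq_sum]
  exact Finset.sum_le_sum fun i _ => Nat.mul_le_mul_left _ (Nat.pow_le_pow_left hab i)

theorem NB_ite_inst (P : Prop) (d1 d2 : Decidable P) (x y : ℝ) :
    @ite ℝ P d1 x y = @ite ℝ P d2 x y := by
  by_cases h : P
  · rw [if_pos h, if_pos h]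
  · rw [if_neg h, if_neg h]

theorem NB_er_nonneg (k L t r n : ℕ) (ht : 1 ≤ t) : 0 ≤ er k L t r n := by
  have ht' : (1 : ℝ) ≤ t := by exact_mod_cast ht
  have h1 : (1 / (24 * (t : ℝ))) ^ (k + 1) ≤ 1 := by
    apply pow_le_one₀ (by positivity)
    rw [div_le_one (by positivity)]
    linarith
  have h2 : 0 ≤ (1 - (1 / (24 * (t : ℝ))) ^ (k + 1)) ^ (2 ^ n / (r + 1)) :=
    pow_nonneg (by linarith) _
  unfold er
  positivity

theorem NB_exp (m : ℕ) : Real.exp (-2 * (m : ℝ)) ≤ (1 / 2) ^ m := by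
  have h : Real.exp (-2 * (m : ℝ)) = (Real.exp (-2)) ^ m := by
    rw [← Real.exp_nat_mul]
    congr 1
    ring
  rw [h]
  refine pow_le_pow_left₀ (Real.exp_pos _).le ?_ _
  have h1 : (2 : ℝ) ≤ Real.exp 2 := by
    have := Real.add_one_le_exp (2 : ℝ)
    linarith
  rw [Real.exp_neg, ← one_div]
  exact one_div_le_one_div_of_le (by norm_num) h1

theorem t_NB (h1 : St_CC) (h2 : St_NUM) : St_NB := by
  intro M p k p' r c hr
  set lP : Polynomial ℕ := Polynomial.C 2 * Polynomial.X + Polynomial.C 1 + p' with hlP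
  set K : Polynomial ℕ := r * r * (Polynomial.C 2 * Polynomial.X + p' + Polynomial.C 3) with hK
  set L : Polynomial ℕ := lP + Polynomial.C k * (Polynomial.C 2 * p.comp lP + Polynomial.C 1)
    with hL
  set Q : Polynomial ℕ := K + (Polynomial.X + Polynomial.C 1) + (K + Polynomial.C 1) +
    (Polynomial.X + Polynomial.C 1) * K + (Polynomial.C 2 * Polynomial.X + p' + Polynomial.C 3)
    with hQ
  set P : Polynomial ℕ := M.p.comp L + Polynomial.C 2 * L + Polynomial.C 2 * Polynomial.X + Q +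
    Polynomial.C (k + 10) with hP
  set R : Polynomial ℕ := (K + Polynomial.C 1) * P with hR
  have elP : ∀ n, lP.eval n = 2 * n + 1 + p'.eval n := fun n => by simp [hlP]
  have eK : ∀ n, K.eval n = r.eval n * r.eval n * (2 * n + p'.eval n + 3) := fun n => by
    simp only [hK, Polynomial.eval_add, Polynomial.eval_mul, Polynomial.eval_C, Polynomial.eval_X]
  have eL : ∀ n, L.eval n = Lb p k (lP.eval n) := fun n => by
    simp only [hL, Lb, Polynomial.eval_add, Polynomial.eval_mul, Polynomial.eval_C,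
      Polynomial.eval_comp]
  have eQ : ∀ n, Q.eval n = K.eval n + (n + 1) + (K.eval n + 1) + (n + 1) * K.eval n +
      (2 * n + p'.eval n + 3) := fun n => by
    simp only [hQ, Polynomial.eval_add, Polynomial.eval_mul, Polynomial.eval_C, Polynomial.eval_X]
  have eP : ∀ n, P.eval n = M.p.eval (L.eval n) + 2 * L.eval n + 2 * n + Q.eval n + (k + 10) :=
    fun n => by
    simp only [hP, Polynomial.eval_add, Polynomial.eval_mul, Polynomial.eval_C, Polynomial.eval_X,
      Polynomial.eval_comp]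
  have eR : ∀ n, R.eval n = (K.eval n + 1) * P.eval n := fun n => by
    simp only [hR, Polynomial.eval_add, Polynomial.eval_mul, Polynomial.eval_C]
  clear_value lP K L Q P R
  have hP1 : ∀ n, 1 ≤ P.eval n := fun n => by rw [eP]; omega
  have hK1 : ∀ n, 1 ≤ K.eval n := fun n => by
    rw [eK]
    exact Nat.one_le_iff_ne_zero.2 (Nat.mul_ne_zero (Nat.mul_ne_zero
      (Nat.one_le_iff_ne_zero.1 (hr n)) (Nat.one_le_iff_ne_zero.1 (hr n))) (by omega))
  obtain ⟨n₂, hn₂⟩ := Filter.eventually_atTop.1 (h2 k L P R Q hP1 (fun n => by rw [eP]; omega))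
  refine ⟨K, n₂, hK1, fun n N i₀ hn hN hi₀ h hh => ?_⟩
  have hlen : ∀ i ∈ Finset.Ico i₀ (2 ^ (n + 1) - 1), (str i).length = n := by
    intro i hi
    rw [Finset.mem_Ico] at hi
    rw [length_str]
    have hp : 1 ≤ 2 ^ n := Nat.one_le_two_pow
    apply Nat.log_eq_of_pow_le_of_lt_pow <;> omega
  have hr0 : (0 : ℝ) < ((r.eval n : ℕ) : ℝ) := by
    have := hr n
    exact_mod_cast this
  have key := h1 M p k N i₀ (2 ^ (n + 1) - 1) (K.eval n)
    (fun i => pairBits (str i) h) (fun m => lP.eval m) (fun m => P.eval m) c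
    (1 / ((r.eval n : ℕ) : ℝ)) (by positivity)
    (fun i hi => by rw [hlen i hi]; exact hN)
    (fun i hi => by
      rw [NB_len_pb, hlen i hi, elP]
      omega)
    (NB_evm lP) hP1 (fun m => by
      rw [eP, ← eL]
      omega)
  refine le_trans (le_of_eq (congrArg (Ex unif) (funext fun a => ?_))) (key.trans ?_)
  · congr!
  have her := hn₂ n hn
  have her0 := NB_er_nonneg k (L.eval n) (P.eval n) (R.eval n) n (hP1 n)
  set E := er k (L.eval n) (P.eval n) (R.eval n) n with hE
  -- the sum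
  have hsum : ∑ i ∈ (Finset.Ico i₀ (2 ^ (n + 1) - 1) : Finset ℕ), 2 * ((K.eval n : ℕ) : ℝ) *
      ((i : ℝ) + 1) ^ K.eval n *
        er k (Lb p k (lP.eval (str i).length)) (P.eval (str i).length)
          ((K.eval n + 1) * P.eval (str i).length) (str i).length ≤
      (2 : ℝ) ^ ((n + 1) + (K.eval n + 1) + (n + 1) * K.eval n) * E := by
    have hterm : ∀ i ∈ (Finset.Ico i₀ (2 ^ (n + 1) - 1) : Finset ℕ), 2 * ((K.eval n : ℕ) : ℝ) *
        ((i : ℝ) + 1) ^ K.eval n *
          er k (Lb p k (lP.eval (str i).length)) (P.eval (str i).length)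
            ((K.eval n + 1) * P.eval (str i).length) (str i).length ≤
        (2 : ℝ) ^ (K.eval n + 1) * (2 : ℝ) ^ ((n + 1) * K.eval n) * E := by
      intro i hi
      have h3 := hlen i hi
      rw [Finset.mem_Ico] at hi
      rw [h3, ← eL, ← eR]
      refine mul_le_mul_of_nonneg_right ?_ her0
      have h4 : 2 * ((K.eval n : ℕ) : ℝ) ≤ 2 ^ (K.eval n + 1) := by
        have h4' : ((K.eval n : ℕ) : ℝ) ≤ 2 ^ K.eval n := by
          exact_mod_cast (Nat.lt_two_pow_self (n := K.eval n)).le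
        rw [pow_succ]
        linarith
      have h5 : ((i : ℝ) + 1) ^ K.eval n ≤ (2 : ℝ) ^ ((n + 1) * K.eval n) := by
        rw [pow_mul]
        refine pow_le_pow_left₀ (by positivity) ?_ _
        have : i + 1 ≤ 2 ^ (n + 1) := by omega
        exact_mod_cast this
      exact mul_le_mul h4 h5 (by positivity) (by positivity)
    refine (Finset.sum_le_sum hterm).trans ?_
    rw [Finset.sum_const, Nat.card_Ico, nsmul_eq_mul]
    have h6 : ((2 ^ (n + 1) - 1 - i₀ : ℕ) : ℝ) ≤ 2 ^ (n + 1) := by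
      have h6' : 2 ^ (n + 1) - 1 - i₀ ≤ 2 ^ (n + 1) := (Nat.sub_le _ _).trans (Nat.sub_le _ _)
      exact_mod_cast h6'
    refine (mul_le_mul_of_nonneg_right h6 (by positivity)).trans (le_of_eq ?_)
    rw [pow_add (2 : ℝ) ((n + 1) + (K.eval n + 1)), pow_add (2 : ℝ) (n + 1)]
    ring
  have hE2 : (2 : ℝ) ^ K.eval n * ((2 : ℝ) ^ ((n + 1) + (K.eval n + 1) + (n + 1) * K.eval n) * E) ≤
      (1 / 2) ^ (2 * n + p'.eval n + 3) := by
    have h7 : E * 2 ^ Q.eval n ≤ 1 := her
    rw [eQ] at h7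
    have h8 : (2 : ℝ) ^ (K.eval n + (n + 1) + (K.eval n + 1) + (n + 1) * K.eval n +
        (2 * n + p'.eval n + 3)) =
        2 ^ K.eval n * 2 ^ ((n + 1) + (K.eval n + 1) + (n + 1) * K.eval n) *
          2 ^ (2 * n + p'.eval n + 3) := by
      rw [← pow_add, ← pow_add]
      congr 1
      ring
    rw [h8] at h7
    have h9 : (1 / 2 : ℝ) ^ (2 * n + p'.eval n + 3) = 1 / 2 ^ (2 * n + p'.eval n + 3) := by
      rw [div_pow, one_pow]
    rw [h9, le_div_iff₀ (by positivity)]
    calc _ = E * (2 ^ K.eval n * 2 ^ ((n + 1) + (K.eval n + 1) + (n + 1) * K.eval n) *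
          2 ^ (2 * n + p'.eval n + 3)) := by ring
      _ ≤ 1 := h7
  have hexp : Real.exp (-2 * (1 / ((r.eval n : ℕ) : ℝ)) ^ 2 * ((K.eval n : ℕ) : ℝ)) ≤
      (1 / 2) ^ (2 * n + p'.eval n + 3) := by
    have h10 : -2 * (1 / ((r.eval n : ℕ) : ℝ)) ^ 2 * ((K.eval n : ℕ) : ℝ) =
        -2 * ((2 * n + p'.eval n + 3 : ℕ) : ℝ) := by
      rw [eK]
      push_cast
      field_simp
    rw [h10]
    exact NB_exp _
  have hfin : (1 / 2 : ℝ) ^ (2 * n + p'.eval n + 3) + (1 / 2) ^ (2 * n + p'.eval n + 3) =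
      (1 / 2) ^ (2 * n + p'.eval n + 2) := by
    rw [pow_succ (1 / 2 : ℝ) (2 * n + p'.eval n + 2)]
    ring
  rw [← hfin]
  exact add_le_add hexp ((mul_le_mul_of_nonneg_left hsum (by positivity)).trans hE2)

end Pool.Agent.H861R4.IM
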