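import Pool.Agent.H861R4.IM.Defs3
import Pool.Agent.H620R2.Gauge.A1
import Pool.Agent.H620R2.Gauge.S

namespace Pool.Agent.H861R4.IM

open Pool.Agent.NPC Finset H568R2 Pool.Agent.H676 Pool.Agent.H620R2.Gauge MeasureTheory

theorem NO2_mem_Ico_iff (i n : ℕ) :
    i ∈ Finset.Ico (2 ^ n - 1) (2 ^ (n + 1) - 1) ↔ (str i).length = n := by
  rw [length_str, Nat.log_eq_iff (Or.inr ⟨by norm_num, by omega⟩), Finset.mem_Ico]
  have h1 : 1 ≤ 2 ^ n := Nat.one_le_two_pow
  have h2 : 1 ≤ 2 ^ (n + 1) := Nat.one_le_two_pow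
  omega

open Classical in
theorem NO2_ncard_eq (n : ℕ) (R : List Bool → Prop) :
    Set.ncard {x : List Bool | x.length = n ∧ R x} =
      ((Finset.Ico (2 ^ n - 1) (2 ^ (n + 1) - 1)).filter (fun i => R (str i))).card := by
  rw [← Set.ncard_coe_finset, ← Set.ncard_image_of_injective _ str_injective]
  congr 1
  ext x
  simp only [Set.mem_ofPred_eq, Set.mem_image, Finset.mem_coe, Finset.mem_filter]
  constructor
  · rintro ⟨h1, h2⟩
    refine ⟨idx x, ⟨?_, ?_⟩, str_idx x⟩
    · rw [NO2_mem_Ico_iff, str_idx]; exact h1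
    · rw [str_idx]; exact h2
  · rintro ⟨i, ⟨h1, h2⟩, rfl⟩
    exact ⟨(NO2_mem_Ico_iff i n).1 h1, h2⟩

open Classical in
/-- the bad event -/
def NO2_P (M : Alg) (p : Polynomial ℕ) (k : ℕ) (K r : Polynomial ℕ) (c : Bool) (n N : ℕ)
    (h : List Bool) (j : ℕ) (a : Fin N → Bool) : Prop :=
  ∃ X ⊆ Finset.Ico j (2 ^ (n + 1) - 1), X.card = K.eval n ∧
    bX (acc M p k N (fun i => pairBits (str i) h)) j X a = true ∧
    (1 / 2 + 1 / ((r.eval n : ℕ) : ℝ)) * ((K.eval n : ℕ) : ℝ) ≤
      ((X.filter (fun i => par (blk N (str i)) a = c)).card : ℝ)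

theorem NO2_fc {s : Finset ℕ} {p q : ℕ → Prop} (i1 : DecidablePred p) (i2 : DecidablePred q)
    (h : ∀ x ∈ s, p x ↔ q x) :
    (@Finset.filter _ p i1 s).card = (@Finset.filter _ q i2 s).card := by
  have h1 : @Finset.filter _ p i1 s = @Finset.filter _ q i2 s := by
    ext x
    rw [Finset.mem_filter, Finset.mem_filter]
    exact and_congr_right fun hx => h x hx
  rw [h1]

theorem NO2_num (n P : ℕ) : (2 : ℝ) ^ (P + 1) * (2 ^ n * (1 / 2) ^ (2 * n + P + 2)) ≤
    (1 / 2) ^ n := by
  have h1 : (1 / 2 : ℝ) ^ (2 * n + P + 2) = (1 / 2) ^ (P + 1) * ((1 / 2) ^ n * (1 / 2) ^ (n + 1)) := by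
    rw [← pow_add, ← pow_add]
    congr 1
    ring
  have h2 : (2 : ℝ) ^ (P + 1) * (1 / 2) ^ (P + 1) = 1 := by
    rw [← mul_pow]; norm_num
  have h3 : (2 : ℝ) ^ n * (1 / 2) ^ n = 1 := by
    rw [← mul_pow]; norm_num
  calc (2 : ℝ) ^ (P + 1) * (2 ^ n * (1 / 2) ^ (2 * n + P + 2))
      = ((2 : ℝ) ^ (P + 1) * (1 / 2) ^ (P + 1)) * ((2 : ℝ) ^ n * (1 / 2) ^ n) *
        (1 / 2) ^ (n + 1) := by rw [h1]; ring
    _ = (1 / 2) ^ (n + 1) := by rw [h2, h3]; ring
    _ ≤ (1 / 2) ^ n := pow_le_pow_of_le_one (by norm_num) (by norm_num) (Nat.le_succ n)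

theorem t_NO2 (h1 : St_BR) (h2 : St_BAL) (h3 : St_NB) (h4 : St_TR) : St_NO2 := by
  intro M p k p' r c hr
  obtain ⟨K, n₂, hK1, hNB⟩ := h3 M p k p' r c hr
  refine ⟨K, ?_⟩
  have hN : ∀ n, ∃ N, 2 ^ (2 * n + 1) ≤ N + 1 ∧ ∀ i < 2 ^ (n + 1) - 1,
      ∀ (A : Oracle) (z : ℕ → List Bool), (z i).length ≤ 2 * n + 1 + p'.eval n →
      (acc M p k N z i (pre N A) = true ↔
        Quant (p.eval (z i).length) (fn M A) k true (z i)) ∧
      (par (blk N (str i)) (pre N A) = true ↔ str i ∈ parLang A) := by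
    intro n
    obtain ⟨N₀, hN₀⟩ := h1 M p k (2 * n + 1 + p'.eval n) (2 ^ (n + 1) - 1)
    refine ⟨max N₀ (2 ^ (2 * n + 1)), (le_max_right N₀ _).trans (Nat.le_succ _), ?_⟩
    intro i hi
    exact (hN₀ _ (le_max_left _ _) i hi).2
  choose Nf hNf1 hNf2 using hN
  set s : ℕ → Set Oracle := fun n => {A | n₂ ≤ n ∧ ∃ h : List Bool, h.length ≤ p'.eval n ∧
    ∃ j ∈ Finset.Ico (2 ^ n - 1) (2 ^ (n + 1) - 1),
      NO2_P M p k K r c n (Nf n) h j (pre (Nf n) A)} with hs
  have hone : ∀ n, n₂ ≤ n → ∀ h : List Bool, h.length ≤ p'.eval n →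
      ∀ j ∈ Finset.Ico (2 ^ n - 1) (2 ^ (n + 1) - 1),
      ranO {A | NO2_P M p k K r c n (Nf n) h j (pre (Nf n) A)} ≤
        ENNReal.ofReal ((1 / 2) ^ (2 * n + p'.eval n + 2)) := by
    intro n hn h hh j hj
    refine (h4 (Nf n) (NO2_P M p k K r c n (Nf n) h j)).le.trans (ENNReal.ofReal_le_ofReal ?_)
    exact hNB n (Nf n) j hn (hNf1 n) (Finset.mem_Ico.1 hj).1 h hh
  have hbound : ∀ n, ranO (s n) ≤ ENNReal.ofReal ((1 / 2 : ℝ) ^ n) := by
    intro n
    by_cases hn : n₂ ≤ n
    · have hsub : s n ⊆ ⋃ i ∈ Finset.range (2 ^ (p'.eval n + 1)),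
          ⋃ j ∈ Finset.Ico (2 ^ n - 1) (2 ^ (n + 1) - 1),
          {A | (str i).length ≤ p'.eval n ∧
            NO2_P M p k K r c n (Nf n) (str i) j (pre (Nf n) A)} := by
        rintro A ⟨_, h, hh, j, hj, hA⟩
        simp only [Set.mem_iUnion]
        refine ⟨idx h, ?_, j, hj, ?_⟩
        · rw [Finset.mem_range]
          have h5 := idx_lt h
          have h6 : 2 ^ (h.length + 1) ≤ 2 ^ (p'.eval n + 1) :=
            Nat.pow_le_pow_right (by norm_num) (by omega)
          omega
        · show (str (idx h)).length ≤ p'.eval n ∧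
            NO2_P M p k K r c n (Nf n) (str (idx h)) j (pre (Nf n) A)
          rw [str_idx]
          exact ⟨hh, hA⟩
      have hcI : (Finset.Ico (2 ^ n - 1) (2 ^ (n + 1) - 1)).card = 2 ^ n := by
        rw [Nat.card_Ico, pow_succ]
        have : 1 ≤ 2 ^ n := Nat.one_le_two_pow
        omega
      calc ranO (s n) ≤ ranO (⋃ i ∈ Finset.range (2 ^ (p'.eval n + 1)),
            ⋃ j ∈ Finset.Ico (2 ^ n - 1) (2 ^ (n + 1) - 1),
            {A | (str i).length ≤ p'.eval n ∧
              NO2_P M p k K r c n (Nf n) (str i) j (pre (Nf n) A)}) :=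
            measure_mono hsub
        _ ≤ ∑ i ∈ Finset.range (2 ^ (p'.eval n + 1)),
            ranO (⋃ j ∈ Finset.Ico (2 ^ n - 1) (2 ^ (n + 1) - 1),
            {A | (str i).length ≤ p'.eval n ∧
              NO2_P M p k K r c n (Nf n) (str i) j (pre (Nf n) A)}) :=
            measure_biUnion_finset_le _ _
        _ ≤ ∑ _i ∈ Finset.range (2 ^ (p'.eval n + 1)),
            ∑ _j ∈ Finset.Ico (2 ^ n - 1) (2 ^ (n + 1) - 1),
            ENNReal.ofReal ((1 / 2) ^ (2 * n + p'.eval n + 2)) := by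
            apply Finset.sum_le_sum
            intro i _
            refine (measure_biUnion_finset_le _ _).trans ?_
            apply Finset.sum_le_sum
            intro j hj
            by_cases hi : (str i).length ≤ p'.eval n
            · refine (measure_mono ?_).trans (hone n hn (str i) hi j hj)
              intro A hA
              exact hA.2
            · have : {A | (str i).length ≤ p'.eval n ∧
                  NO2_P M p k K r c n (Nf n) (str i) j (pre (Nf n) A)} = ∅ := by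
                ext A
                simp only [Set.mem_ofPred_eq, Set.mem_empty_iff_false, iff_false]
                exact fun h => hi h.1
              rw [this]
              simp
        _ ≤ ENNReal.ofReal ((1 / 2 : ℝ) ^ n) := by
            rw [Finset.sum_const, Finset.sum_const, Finset.card_range, hcI, nsmul_eq_mul,
              nsmul_eq_mul, ← ENNReal.ofReal_natCast, ← ENNReal.ofReal_natCast,
              ← ENNReal.ofReal_mul (by positivity), ← ENNReal.ofReal_mul (by positivity)]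
            apply ENNReal.ofReal_le_ofReal
            push_cast
            exact NO2_num n (p'.eval n)
    · have : s n = ∅ := by
        ext A
        simp only [hs, Set.mem_ofPred_eq, Set.mem_empty_iff_false, iff_false]
        exact fun h => hn h.1
      rw [this]
      simp
  have hsum : (∑' n, ranO (s n)) ≠ ⊤ := by
    apply ne_top_of_le_ne_top (b := ∑' n : ℕ, ENNReal.ofReal ((1 / 2 : ℝ) ^ n))
    · exact summable_geometric_two.tsum_ofReal_ne_top
    · exact ENNReal.tsum_le_tsum hbound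
  filter_upwards [ae_eventually_notMem hsum] with A hA
  filter_upwards [hA, Filter.eventually_ge_atTop n₂] with n hn1 hn2 h hh
  set N := Nf n with hNdef
  set z : ℕ → List Bool := fun i => pairBits (str i) h with hz
  have hi : ∀ i ∈ Finset.Ico (2 ^ n - 1) (2 ^ (n + 1) - 1),
      (acc M p k N z i (pre N A) = true ↔
        Quant (p.eval (z i).length) (fn M A) k true (z i)) ∧
      (par (blk N (str i)) (pre N A) = true ↔ str i ∈ parLang A) := by
    intro i hi
    have hlen : (z i).length ≤ 2 * n + 1 + p'.eval n := by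
      rw [hz]
      simp only []
      rw [Pool.Agent.H620R2.Gauge.length_pairBits, (NO2_mem_Ico_iff i n).1 hi]
      omega
    exact hNf2 n i (Finset.mem_Ico.1 hi).2 A z hlen
  have hbal := h2 (Fin N) (acc M p k N z) (pre N A) (2 ^ n - 1) (2 ^ (n + 1) - 1) (K.eval n)
    (fun i => par (blk N (str i)) (pre N A) = c) (1 / 2 + 1 / ((r.eval n : ℕ) : ℝ)) (hK1 n)
    (by positivity) (by
      intro j hj X hX hXc hb
      by_contra hlt
      push Not at hlt
      apply hn1
      refine ⟨hn2, h, hh, j, ?_, X, hX, hXc, hb, ?_⟩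
      · rw [Finset.mem_Ico]
        refine ⟨hj, ?_⟩
        by_contra hji
        push Not at hji
        rw [Finset.Ico_eq_empty (by omega), Finset.subset_empty] at hX
        rw [hX, Finset.card_empty] at hXc
        have := hK1 n
        omega
      · refine hlt.le.trans (le_of_eq ?_)
        exact congrArg Nat.cast (NO2_fc _ _ fun x _ => Iff.rfl))
  rw [NO2_ncard_eq n (fun x => Quant (p.eval (pairBits x h).length) (fn M A) k true
      (pairBits x h)), NO2_ncard_eq n (fun x => Quant (p.eval (pairBits x h).length) (fn M A) k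
      true (pairBits x h) ∧ (x ∈ parLang A ↔ c = true))]
  refine (le_of_eq ?_).trans (hbal.trans (le_of_eq ?_))
  · refine congrArg Nat.cast (NO2_fc _ _ ?_)
    intro i hi'
    have h5 := hi i hi'
    refine and_congr h5.1.symm ?_
    exact (iff_congr h5.2.symm Iff.rfl).trans Bool.eq_iff_iff.symm
  · refine congrArg (fun y : ℕ => (1 / 2 + 1 / ((r.eval n : ℕ) : ℝ)) * (y : ℝ) +
      ((K.eval n : ℕ) : ℝ)) (NO2_fc _ _ ?_)
    intro i hi'
    exact (hi i hi').1

end Pool.Agent.H861R4.IM
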