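import Pool.Agent.H861R4.IM.Defs2

/-! NUM: the error is tiny. -/

namespace Pool.Agent.H861R4.IM

theorem t_NUM (h1 : St_N1) (h2 : St_N2) : St_NUM := by
  intro k L P R Q hP hL
  filter_upwards [h2 k P R Q hP] with n hn
  have h3 := h1 k (L.eval n) (P.eval n) (Q.eval n) n (hL n)
  unfold er
  rw [add_mul]
  linarith

end Pool.Agent.H861R4.IM
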