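import Pool.Agent.H861R4.IM.Defs2

namespace Pool.Agent.H861R4.IM

open Pool.Agent.NPC Finset H568R2 Pool.Agent.H676 Pool.Agent.H620R2.Gauge MeasureTheory

namespace OR

variable {I : Type} [Fintype I] [DecidableEq I]

lemma cert {t : ℕ} (W W' : Finset ℕ) (f : ℕ → (I → Bool) → Bool) (hW : W' ⊆ W) (ρ : Restr I)
    (h : ∀ i ∈ W, DTr t (rs (f i) ρ)) :
    Cert t true (rs (fun a => decide (∃ i ∈ W', f i a = true)) ρ) := by
  intro x hx
  have hx' : ∃ i ∈ W', f i (ov ρ x) = true := by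
    simpa [rs] using hx
  obtain ⟨i, hi, hix⟩ := hx'
  obtain ⟨A, hA, hy⟩ := (h i (hW hi)).cert true x hix
  refine ⟨A, hA, fun z hz => ?_⟩
  have h1 := hy z hz
  have h2 : ∃ i ∈ W', f i (ov ρ z) = true := ⟨i, hi, h1⟩
  simpa [rs] using h2

end OR

theorem t_OR : St_OR := by
  classical
  intro I _ _ t n q q₁ δ W W' f ht h0 h1 h0' h1' _ hWW hδ
  rw [wq_cmp]
  set ε : ℝ := (12 * t * q) ^ (t + 1) with hε
  have hε0 : 0 ≤ ε := by positivity
  have hwj : ∀ a, 0 ≤ wq q₁ a := wq_nonneg h0' h1'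
  have hw1 : ∀ a, 0 ≤ wq q a := wq_nonneg h0 (by linarith)
  have hin : ∀ ρ : Restr I, Ex (wq q) (fun τ : Restr I =>
      if ¬ ((∀ i ∈ W, DTr t (rs (f i) (cmp ρ τ))) ∧
        DTr t (rs (fun a => decide (∃ i ∈ W', f i a = true)) (cmp ρ τ))) then (1 : ℝ) else 0) ≤
      (if ¬ ∀ i ∈ W, DTr t (rs (f i) ρ) then (1 : ℝ) else 0) + ε := by
    intro ρ
    by_cases hG : ∀ i ∈ W, DTr t (rs (f i) ρ)
    · rw [if_neg (not_not.2 hG), zero_add]
      refine le_trans (Ex_mono hw1 fun τ => ?_)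
        (switch ht h0 h1 (b := true) (OR.cert W W' f hWW ρ hG))
      rw [rs_cmp]
      have hfirst : ∀ i ∈ W, DTr t (rs (f i) (cmp ρ τ)) := by
        intro i hi
        rw [rs_cmp]
        exact (hG i hi).rs
      by_cases hJ : DTr t (rs (rs (fun a => decide (∃ i ∈ W', f i a = true)) ρ) τ)
      · rw [if_neg (not_not.2 ⟨hfirst, hJ⟩)]
        split_ifs <;> norm_num
      · rw [if_pos hJ]
        split_ifs <;> norm_num
    · rw [if_pos hG]
      have hle : Ex (wq q) (fun τ : Restr I =>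
          if ¬ ((∀ i ∈ W, DTr t (rs (f i) (cmp ρ τ))) ∧
            DTr t (rs (fun a => decide (∃ i ∈ W', f i a = true)) (cmp ρ τ)))
            then (1 : ℝ) else 0) ≤
          Ex (wq q) (fun _ : Restr I => (1 : ℝ)) := by
        apply Ex_mono hw1
        intro τ
        split_ifs <;> norm_num
      rw [Ex_const (wq_sum q)] at hle
      linarith
  refine (Ex_mono hwj hin).trans ?_
  rw [Ex_add, Ex_const (wq_sum _)]
  have h2 : (1 : ℝ) ≤ 2 ^ (2 * n + 3) := one_le_pow₀ (by norm_num)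
  nlinarith

end Pool.Agent.H861R4.IM
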