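import Pool.Agent.H861R4.IM.Defs2
import Pool.Agent.H620R2.Gauge.A2
import Pool.Agent.H620R2.Gauge.P

namespace Pool.Agent.H861R4.IM.PAR

open Pool.Agent.NPC Finset H568R2 Pool.Agent.H676 Pool.Agent.H620R2.Gauge MeasureTheory
open Pool.Agent.H622R2

/-- the question -/
def Qfun (y : List Bool) : List (List Bool) := [(unpair y).1 ++ (unpair y).2]

theorem poly_Qq : Poly Qfun := by
  have h1 : Poly (fun y : List Bool => (unpair y).1) := Poly.fst poly_unpair
  have h2 : Poly (fun y : List Bool => (unpair y).2) := Poly.snd poly_unpair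
  exact Poly.cons (Poly.append h1 h2) (NPC.Poly.const [])

theorem poly_H : Poly (fun p : List Bool × List Bool => p.2) := Poly.snd Poly.id

end Pool.Agent.H861R4.IM.PAR

namespace Pool.Agent.H861R4.IM

open Pool.Agent.NPC Finset H568R2 Pool.Agent.H676 Pool.Agent.H620R2.Gauge MeasureTheory
open Pool.Agent.H622R2

theorem t_PAR : St_PAR := by
  intro A
  refine ⟨fun y => (PAR.Qfun y).map A, Polynomial.X, IsFP.tt PAR.poly_Qq PAR.poly_H, fun x => ?_⟩
  have hset : {w : List Bool | w.length = (Polynomial.X : Polynomial ℕ).eval x.length ∧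
      (PAR.Qfun (pairBits x w)).map A = [true]} =
      (fun j => bitsOf x.length j) '' ((((Finset.range (2 ^ x.length)).filter
        (fun j => A (x ++ bitsOf x.length j) = true)) : Finset ℕ) : Set ℕ) := by
    ext w
    have h1 : (PAR.Qfun (pairBits x w)).map A = [A (x ++ w)] := by
      unfold PAR.Qfun
      rw [unpair_pairBits]
      rfl
    constructor
    · rintro ⟨h2, h3⟩
      rw [Polynomial.eval_X] at h2
      rw [h1] at h3
      obtain ⟨j, hj, hj2⟩ := exists_bitsOf w
      rw [h2] at hj hj2
      refine ⟨j, ?_, hj2⟩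
      rw [Finset.mem_coe, Finset.mem_filter, Finset.mem_range, hj2]
      refine ⟨hj, ?_⟩
      simpa using h3
    · rintro ⟨j, hj, rfl⟩
      rw [Finset.mem_coe, Finset.mem_filter, Finset.mem_range] at hj
      refine ⟨?_, ?_⟩
      · rw [Polynomial.eval_X, length_bitsOf]
      · rw [h1, hj.2]
  rw [hset, Set.ncard_image_of_injOn, Set.ncard_coe_finset]
  · rfl
  · intro j hj j' hj' h
    rw [Finset.mem_coe, Finset.mem_filter, Finset.mem_range] at hj hj'
    exact bitsOf_inj hj.1 hj'.1 h

end Pool.Agent.H861R4.IM
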