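import Pool.Agent.H861R4.IM.Defs2

namespace Pool.Agent.H861R4.IM

theorem RC2_fiber (i₀ i₁ j m : ℕ) :
    (((Finset.Ico i₀ i₁).powersetCard (j + 1)).filter (fun X => X.sup id = m)).card ≤
      (m + 1) ^ j := by
  classical
  have hmem : ∀ X ∈ ((Finset.Ico i₀ i₁).powersetCard (j + 1)).filter (fun X => X.sup id = m),
      m ∈ X ∧ ∀ x ∈ X, x ≤ m := by
    intro X hX
    rw [Finset.mem_filter, Finset.mem_powersetCard] at hX
    obtain ⟨⟨_, hc⟩, hs⟩ := hX
    have hne : X.Nonempty := by
      rw [← Finset.card_pos, hc]; omega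
    obtain ⟨x, hx, hxs⟩ := Finset.exists_mem_eq_sup X hne id
    constructor
    · rw [← hs, hxs]; exact hx
    · intro y hy
      rw [← hs]
      exact Finset.le_sup (f := id) hy
  have h1 : (((Finset.Ico i₀ i₁).powersetCard (j + 1)).filter (fun X => X.sup id = m)).card ≤
      ((Finset.range m).powersetCard j).card := by
    refine Finset.card_le_card_of_injOn (fun X => X.erase m) ?_ ?_
    · intro X hX
      have h2 := hmem X hX
      have hX' := hX
      rw [Finset.mem_coe, Finset.mem_filter, Finset.mem_powersetCard] at hX'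
      show X.erase m ∈ (((Finset.range m).powersetCard j : Finset (Finset ℕ)) : Set (Finset ℕ))
      rw [Finset.mem_coe, Finset.mem_powersetCard]
      constructor
      · intro x hx
        rw [Finset.mem_erase] at hx
        rw [Finset.mem_range]
        have := h2.2 x hx.2
        omega
      · rw [Finset.card_erase_of_mem h2.1, hX'.1.2]
        rfl
    · intro X hX Y hY hXY
      have h2 := (hmem X hX).1
      have h3 := (hmem Y hY).1
      have hXY' : X.erase m = Y.erase m := hXY
      rw [← Finset.insert_erase h2, hXY', Finset.insert_erase h3]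
  rw [Finset.card_powersetCard, Finset.card_range] at h1
  exact h1.trans ((Nat.choose_le_pow m j).trans (Nat.pow_le_pow_left (Nat.le_succ m) j))

theorem RC2_main (i₀ i₁ j : ℕ) (fl : ℕ → ℝ) (hfl : ∀ i, 0 ≤ fl i) :
    ∑ X ∈ (Finset.Ico i₀ i₁).powersetCard (j + 1), fl (X.sup id) ≤
      ∑ m ∈ Finset.Ico i₀ i₁, ((m : ℝ) + 1) ^ j * fl m := by
  classical
  have hmaps : ∀ X ∈ (Finset.Ico i₀ i₁).powersetCard (j + 1), X.sup id ∈ Finset.Ico i₀ i₁ := by
    intro X hX
    rw [Finset.mem_powersetCard] at hX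
    have hne : X.Nonempty := by
      rw [← Finset.card_pos, hX.2]; omega
    obtain ⟨x, hx, hxs⟩ := Finset.exists_mem_eq_sup X hne id
    rw [hxs]
    exact hX.1 hx
  rw [← Finset.sum_fiberwise_of_maps_to hmaps]
  refine Finset.sum_le_sum fun m _ => ?_
  have h1 : ∑ X ∈ (Finset.Ico i₀ i₁).powersetCard (j + 1) with X.sup id = m, fl (X.sup id) =
      ((((Finset.Ico i₀ i₁).powersetCard (j + 1)).filter (fun X => X.sup id = m)).card : ℝ) *
        fl m := by
    rw [Finset.sum_congr rfl (g := fun _ => fl m), Finset.sum_const, nsmul_eq_mul]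
    intro X hX
    rw [(Finset.mem_filter.1 hX).2]
  rw [h1]
  refine mul_le_mul_of_nonneg_right ?_ (hfl m)
  exact_mod_cast RC2_fiber i₀ i₁ j m

theorem t_RC2 : St_RC2 := fun i₀ i₁ j fl hfl => RC2_main i₀ i₁ j fl hfl

end Pool.Agent.H861R4.IM
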