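import Mathlib
import Pool.Agent.H861R4.IM.Defs2
import Pool.Agent.H620R2.Gauge.Comb

set_option autoImplicit false

namespace Pool.Agent.H861R4.IM

open Pool.Agent.NPC Finset H568R2 Pool.Agent.H676 Pool.Agent.H620R2.Gauge MeasureTheory

theorem REC_par {I : Type} [DecidableEq I] (B : Finset I) (a : I → Bool) (j : I) (v : Bool)
    (hj : j ∉ B) : par B (Function.update a j v) = par B a := by
  have h : B.filter (fun i => Function.update a j v i = true) = B.filter (fun i => a i = true) := by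
    refine Finset.filter_congr fun i hi => ?_
    rw [Function.update_of_ne]
    rintro rfl
    exact hj hi
  unfold par
  rw [h]

theorem REC_ind_nonneg (b : Bool) : 0 ≤ ind b := by
  cases b <;> simp [ind]

theorem REC_bX_empty {I : Type} (f : ℕ → (I → Bool) → Bool) (i₀ : ℕ) (a : I → Bool) :
    ind (bX f i₀ ∅ a) = 1 := by
  unfold bX ind
  simp

theorem REC_sup_mem (X : Finset ℕ) (h : X.Nonempty) : X.sup id ∈ X := by
  obtain ⟨x, hx, hx2⟩ := Finset.exists_mem_eq_sup X h id
  rw [hx2]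
  exact hx

theorem t_REC (h1 : St_RC1) (h2 : St_RC2) : St_REC := by
  intro I _ _ f B i₀ i₁ K fl c hdisj hfl hstep
  classical
  let pi : ℕ → (I → Bool) → ℝ := fun i a => if par (B i) a = c then (1 : ℝ) else 0
  have hpi0 : ∀ i a, 0 ≤ pi i a := by
    intro i a
    show (0 : ℝ) ≤ if par (B i) a = c then (1 : ℝ) else 0
    split_ifs <;> norm_num
  have hpi1 : ∀ i a, pi i a ≤ 1 := by
    intro i a
    show (if par (B i) a = c then (1 : ℝ) else 0) ≤ 1
    split_ifs <;> norm_num
  let Sj : ℕ → ℝ := fun j => ∑ X ∈ (Finset.Ico i₀ i₁).powersetCard j,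
    Ex unif (fun a : I → Bool => ind (bX f i₀ X a) * ∏ i ∈ X, pi i a)
  let E : ℝ := ∑ m ∈ Finset.Ico i₀ i₁, ((m : ℝ) + 1) ^ K * fl m
  have hE : 0 ≤ E := Finset.sum_nonneg fun m _ => mul_nonneg (by positivity) (hfl m)
  have hS0 : Sj 0 = 1 := by
    show ∑ X ∈ (Finset.Ico i₀ i₁).powersetCard 0,
      Ex unif (fun a : I → Bool => ind (bX f i₀ X a) * ∏ i ∈ X, pi i a) = 1
    rw [Finset.powersetCard_zero, Finset.sum_singleton]
    have h3 : (fun a : I → Bool => ind (bX f i₀ ∅ a) * ∏ i ∈ (∅ : Finset ℕ), pi i a) =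
        fun _ => (1 : ℝ) := by
      funext a
      rw [REC_bX_empty, Finset.prod_empty, mul_one]
    rw [h3]
    exact Ex_const unif_sum 1
  have hrec : ∀ j, j + 1 ≤ K → Sj (j + 1) ≤ 1 / 2 * Sj j + E := by
    intro j hj
    have s1 : Sj (j + 1) ≤ ∑ X ∈ (Finset.Ico i₀ i₁).powersetCard (j + 1),
        (1 / 2 * Ex unif (fun a : I → Bool => ind (bX f i₀ X a) *
          ∏ i ∈ X.erase (X.sup id), pi i a) + fl (X.sup id)) := by
      refine Finset.sum_le_sum fun X hX => ?_
      rw [Finset.mem_powersetCard] at hX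
      obtain ⟨hX1, hX2⟩ := hX
      have hne : X.Nonempty := Finset.card_pos.1 (by omega)
      have hmem := REC_sup_mem X hne
      have h3 := hstep X hX1 hne (by omega) (fun a => ∏ i ∈ X.erase (X.sup id), pi i a)
        (fun a => ⟨Finset.prod_nonneg fun i _ => hpi0 i a,
          Finset.prod_le_one (fun i _ => hpi0 i a) fun i _ => hpi1 i a⟩)
        (by
          intro a j' hj' v
          refine Finset.prod_congr rfl fun i hi => ?_
          rw [Finset.mem_erase] at hi
          have h4 : j' ∉ B i := by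
            intro h5
            exact (Finset.disjoint_left.1 (hdisj i (hX1 hi.2) (X.sup id) (hX1 hmem) hi.1)) h5 hj'
          show (if par (B i) (Function.update a j' v) = c then (1 : ℝ) else 0) =
            if par (B i) a = c then (1 : ℝ) else 0
          rw [REC_par (B i) a j' v h4])
      refine le_trans (le_of_eq ?_) h3
      refine congrArg (Ex unif) ?_
      funext a
      rw [← Finset.mul_prod_erase X (fun i => pi i a) hmem]
      show ind (bX f i₀ X a) * ((if par (B (X.sup id)) a = c then (1 : ℝ) else 0) *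
        ∏ i ∈ X.erase (X.sup id), pi i a) = _
      ring
    have s2 : ∑ X ∈ (Finset.Ico i₀ i₁).powersetCard (j + 1),
        (1 / 2 * Ex unif (fun a : I → Bool => ind (bX f i₀ X a) *
          ∏ i ∈ X.erase (X.sup id), pi i a) + fl (X.sup id)) =
        1 / 2 * Ex unif (fun a : I → Bool => ∑ X ∈ (Finset.Ico i₀ i₁).powersetCard (j + 1),
          ind (bX f i₀ X a) * ∏ i ∈ X.erase (X.sup id), pi i a) +
        ∑ X ∈ (Finset.Ico i₀ i₁).powersetCard (j + 1), fl (X.sup id) := by
      rw [Finset.sum_add_distrib, ← Finset.mul_sum, Ex_sum]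
    have s3 : Ex unif (fun a : I → Bool => ∑ X ∈ (Finset.Ico i₀ i₁).powersetCard (j + 1),
          ind (bX f i₀ X a) * ∏ i ∈ X.erase (X.sup id), pi i a) ≤ Sj j := by
      have s4 : Sj j = Ex unif (fun a : I → Bool => ∑ X ∈ (Finset.Ico i₀ i₁).powersetCard j,
          ind (bX f i₀ X a) * ∏ i ∈ X, pi i a) := by
        rw [Ex_sum]
      rw [s4]
      refine Ex_mono unif_nonneg fun a => ?_
      exact h1 I f a i₀ i₁ j (fun i => pi i a) (fun i => hpi0 i a)
    have s5 : ∑ X ∈ (Finset.Ico i₀ i₁).powersetCard (j + 1), fl (X.sup id) ≤ E := by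
      refine (h2 i₀ i₁ j fl hfl).trans (Finset.sum_le_sum fun m _ => ?_)
      refine mul_le_mul_of_nonneg_right ?_ (hfl m)
      refine pow_le_pow_right₀ ?_ (by omega)
      have : (0 : ℝ) ≤ m := Nat.cast_nonneg m
      linarith
    rw [s2] at s1
    linarith
  have hind : ∀ j, j ≤ K → Sj j ≤ (1 / 2) ^ j + j * E := by
    intro j
    induction j with
    | zero =>
      intro _
      rw [hS0]
      simp
    | succ j ih =>
      intro hj
      have h3 := ih (by omega)
      have h4 := hrec j hj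
      have h5 : (0 : ℝ) ≤ j := Nat.cast_nonneg j
      have h6 : 0 ≤ (j : ℝ) * E := mul_nonneg h5 hE
      rw [pow_succ]
      push_cast
      nlinarith
  have hfin := hind K le_rfl
  have hEK : (K : ℝ) * E = ∑ i ∈ Finset.Ico i₀ i₁, K * ((i : ℝ) + 1) ^ K * fl i := by
    show (K : ℝ) * ∑ m ∈ Finset.Ico i₀ i₁, ((m : ℝ) + 1) ^ K * fl m = _
    rw [Finset.mul_sum]
    refine Finset.sum_congr rfl fun m _ => ?_
    ring
  rw [hEK] at hfin
  refine le_trans ?_ hfin
  have s4 : Sj K = Ex unif (fun a : I → Bool => ∑ X ∈ (Finset.Ico i₀ i₁).powersetCard K,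
      ind (bX f i₀ X a) * ∏ i ∈ X, pi i a) := by
    rw [Ex_sum]
  rw [s4]
  refine Ex_mono unif_nonneg fun a => ?_
  have hnn : ∀ X ∈ (Finset.Ico i₀ i₁).powersetCard K,
      0 ≤ ind (bX f i₀ X a) * ∏ i ∈ X, pi i a := fun X _ =>
    mul_nonneg (REC_ind_nonneg _) (Finset.prod_nonneg fun i _ => hpi0 i a)
  split_ifs with hex
  · obtain ⟨X, hX1, hX2, hX3, hX4⟩ := hex
    refine le_trans (le_of_eq ?_) (Finset.single_le_sum hnn
      (Finset.mem_powersetCard.2 ⟨hX1, hX2⟩))
    rw [hX3]
    have h3 : ∏ i ∈ X, pi i a = 1 := by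
      refine Finset.prod_eq_one fun i hi => ?_
      show (if par (B i) a = c then (1 : ℝ) else 0) = 1
      rw [if_pos (hX4 i hi)]
    rw [h3]
    simp [ind]
  · exact Finset.sum_nonneg hnn

end Pool.Agent.H861R4.IM
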