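import Pool.Agent.H861R4.IM.Defs2
import Pool.Agent.H620R2.Gauge.T
import Pool.Agent.H620R2.Gauge.X

set_option autoImplicit false

namespace Pool.Agent.H861R4.IM

open Pool.Agent.NPC Finset H568R2 Pool.Agent.H676 Pool.Agent.H620R2.Gauge MeasureTheory

theorem STP_ov_update {I : Type} [DecidableEq I] (ρ : Restr I) (a : I → Bool) (i : I) (v : Bool)
    (h : ρ i = none) : ov ρ (Function.update a i v) = Function.update (ov ρ a) i v := by
  funext j
  unfold ov
  by_cases hj : j = i
  · subst hj
    rw [h]
    simp
  · rw [Function.update_of_ne hj, Function.update_of_ne hj]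

open Classical in
theorem t_STP (h : St_IND) : St_STP := by
  intro I _ _ T r s q δ b G B c hq0 hq1 hTr hs hG hGB hδ
  have hu : ∀ x : Bool, 0 ≤ unif x := fun x => by unfold unif; norm_num
  have hun : ∑ x : Bool, unif x = 1 := by unfold unif; rw [Fintype.sum_bool]; norm_num
  set F : (I → Bool) → ℝ := fun a => ind (b a) * G a * (if par B a = c then (1 : ℝ) else 0)
    with hF
  set E : (I → Bool) → ℝ := fun a => ind (b a) * G a with hE
  have hind : ∀ x : Bool, 0 ≤ ind x ∧ ind x ≤ 1 := fun x => by cases x <;> simp [ind]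
  have hE0 : ∀ a, 0 ≤ E a := fun a => mul_nonneg (hind _).1 (hG a).1
  have hF1 : ∀ a, F a ≤ 1 := by
    intro a
    have h1 : E a ≤ 1 := by
      calc E a ≤ 1 * 1 := mul_le_mul (hind _).2 (hG a).2 (hG a).1 zero_le_one
        _ = 1 := one_mul 1
    have h2 : F a ≤ E a := by
      rw [hF]
      simp only
      split_ifs
      · rw [mul_one]
      · rw [mul_zero]; exact hE0 a
    exact h2.trans h1
  have hpt : ∀ ρ : Restr I, Ex unif (fun a => F (ov ρ a)) ≤
      1 / 2 * Ex unif (fun a => E (ov ρ a)) +
        ((if ¬ DTr T (rs b ρ) then (1 : ℝ) else 0) +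
          (if (B.filter (fun i => ρ i = none)).card ≤ r then (1 : ℝ) else 0)) := by
    intro ρ
    have hEx0 : 0 ≤ Ex unif (fun a => E (ov ρ a)) := by
      unfold Ex
      exact Finset.sum_nonneg fun a _ =>
        mul_nonneg (Finset.prod_nonneg fun i _ => hu _) (hE0 _)
    by_cases hgood : DTr T (rs b ρ) ∧ r < (B.filter (fun i => ρ i = none)).card
    · have h1 : Ex unif (fun a => F (ov ρ a)) = 1 / 2 * Ex unif (fun a => E (ov ρ a)) := by
        set Bs := B.filter (fun i => ρ i = none) with hBs
        set κ : ℝ := (∏ i ∈ B.filter (fun i => ¬ ρ i = none), sgb ((ρ i).getD false)) * sgb c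
          with hκ
        have e5 : ∀ a : I → Bool, sgb (par B (ov ρ a)) =
            (∏ i ∈ B.filter (fun i => ¬ ρ i = none), sgb ((ρ i).getD false)) *
            ∏ i ∈ Bs, sgb (a i) := by
          intro a
          rw [sgb_par, ← Finset.prod_filter_mul_prod_filter_not B (fun i => ρ i = none), mul_comm]
          congr 1
          · refine Finset.prod_congr rfl fun i hi => ?_
            have := (Finset.mem_filter.1 hi).2
            unfold ov
            cases h : ρ i with
            | none => exact absurd h this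
            | some b => rfl
          · refine Finset.prod_congr rfl fun i hi => ?_
            unfold ov
            rw [(Finset.mem_filter.1 hi).2]
            rfl
        have e6 : (fun a => F (ov ρ a)) = fun a => 1 / 2 * E (ov ρ a) +
            (1 / 2 * κ) * (ind (rs b ρ a) * G (ov ρ a) * ∏ i ∈ Bs, sgb (a i)) := by
          funext a
          rw [hF, hE]
          simp only
          rw [ind_eq, e5, hκ]
          unfold rs
          ring
        have e7 : Ex unif (fun a => ind (rs b ρ a) * G (ov ρ a) * ∏ i ∈ Bs, sgb (a i)) = 0 := by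
          refine h I inferInstance inferInstance T (rs b ρ) (fun a => G (ov ρ a)) Bs hgood.1
            (lt_of_le_of_lt hTr hgood.2) ?_
          intro a i hi v
          obtain ⟨hi1, hi2⟩ := Finset.mem_filter.1 hi
          rw [STP_ov_update ρ a i v hi2]
          exact hGB _ i hi1 v
        rw [e6]
        have e8 : Ex unif (fun a => 1 / 2 * E (ov ρ a) +
            (1 / 2 * κ) * (ind (rs b ρ a) * G (ov ρ a) * ∏ i ∈ Bs, sgb (a i))) =
            1 / 2 * Ex unif (fun a => E (ov ρ a)) + (1 / 2 * κ) *
              Ex unif (fun a => ind (rs b ρ a) * G (ov ρ a) * ∏ i ∈ Bs, sgb (a i)) := by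
          unfold Ex
          rw [Finset.mul_sum, Finset.mul_sum, ← Finset.sum_add_distrib]
          refine Finset.sum_congr rfl fun a _ => ?_
          ring
        rw [e8, e7, mul_zero, add_zero]
      have h2 : (0 : ℝ) ≤ (if ¬ DTr T (rs b ρ) then (1 : ℝ) else 0) := by split_ifs <;> norm_num
      have h3 : (0 : ℝ) ≤ (if (B.filter (fun i => ρ i = none)).card ≤ r then (1 : ℝ) else 0) := by
        split_ifs <;> norm_num
      linarith
    · have h1 : Ex unif (fun a => F (ov ρ a)) ≤ 1 := by
        have h2 : Ex unif (fun a : I → Bool => F (ov ρ a)) ≤ Ex unif (fun _ : I → Bool => (1 : ℝ)) := by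
          unfold Ex
          exact Finset.sum_le_sum fun a _ =>
            mul_le_mul_of_nonneg_left (hF1 _) (Finset.prod_nonneg fun i _ => hu _)
        rwa [Ex_const hun] at h2
      have h2 : (0 : ℝ) ≤ (if ¬ DTr T (rs b ρ) then (1 : ℝ) else 0) := by split_ifs <;> norm_num
      have h3 : (0 : ℝ) ≤ (if (B.filter (fun i => ρ i = none)).card ≤ r then (1 : ℝ) else 0) := by
        split_ifs <;> norm_num
      rcases not_and_or.1 hgood with h4 | h4
      · rw [if_pos h4]
        linarith
      · rw [if_pos (not_lt.1 h4)]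
        linarith
  have hmono : Ex (wq q) (fun ρ : Restr I => Ex unif (fun a => F (ov ρ a))) ≤
      Ex (wq q) (fun ρ : Restr I => 1 / 2 * Ex unif (fun a => E (ov ρ a)) +
        ((if ¬ DTr T (rs b ρ) then (1 : ℝ) else 0) +
          (if (B.filter (fun i => ρ i = none)).card ≤ r then (1 : ℝ) else 0))) :=
    Ex_mono (wq_nonneg hq0 hq1) hpt
  have hlin : Ex (wq q) (fun ρ : Restr I => 1 / 2 * Ex unif (fun a => E (ov ρ a)) +
        ((if ¬ DTr T (rs b ρ) then (1 : ℝ) else 0) +
          (if (B.filter (fun i => ρ i = none)).card ≤ r then (1 : ℝ) else 0))) =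
      1 / 2 * Ex (wq q) (fun ρ : Restr I => Ex unif (fun a => E (ov ρ a))) +
        (Ex (wq q) (fun ρ : Restr I => if ¬ DTr T (rs b ρ) then (1 : ℝ) else 0) +
          Ex (wq q) (fun ρ : Restr I =>
            if (B.filter (fun i => ρ i = none)).card ≤ r then (1 : ℝ) else 0)) := by
    conv_rhs => unfold Ex
    conv_lhs => unfold Ex
    rw [Finset.mul_sum, ← Finset.sum_add_distrib, ← Finset.sum_add_distrib]
    refine Finset.sum_congr rfl fun a _ => ?_
    ring
  rw [hlin, Ex_ov, Ex_ov] at hmono
  have hfew := few_stars hq0 hq1 B r s hs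
  linarith

end Pool.Agent.H861R4.IM
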