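import Pool.Agent.H861R4.IM.Defs2
import Pool.Agent.H620R2.Gauge.W
import Pool.Agent.H620R2.Gauge.Dt

namespace Pool.Agent.H861R4.IM

open Pool.Agent.NPC Finset H568R2 Pool.Agent.H676 Pool.Agent.H620R2.Gauge MeasureTheory

open Classical in
theorem t_SW : St_SW := by
  intro M p k N l t q z W ht hq0 hq1 hz hM
  have hw : ∀ a, 0 ≤ wq (q ^ k) a :=
    wq_nonneg (pow_nonneg hq0 k) (pow_le_one₀ hq0 (by linarith))
  have hone : ∀ l1 ∈ Finset.range (l + 1),
      Ex (wq (q ^ k)) (fun ρ : Restr (Fin N) =>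
        if ¬ ∀ y : List Bool, y.length ≤ l1 → ∀ b,
          DTr t (rs (QF (p.eval l1) (leaf M N) k b y) ρ) then (1 : ℝ) else 0) ≤
      k * 2 ^ (Lb p k l + 2) * (12 * t * q) ^ (t + 1) := by
    intro l1 hl1
    rw [Finset.mem_range] at hl1
    have hL : l1 + k * (2 * p.eval l1 + 1) ≤ Lb p k l := by
      unfold Lb
      have h1 : p.eval l1 ≤ p.eval l := eval_mono p (by omega)
      have h2 : k * (2 * p.eval l1 + 1) ≤ k * (2 * p.eval l + 1) :=
        Nat.mul_le_mul_left _ (by omega)
      omega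
    have h := switch_alt (I := Fin N) ht hq0 hq1 (p.eval l1) (leaf M N) k l1 (by
      intro y hy
      have h2 := dtr_out M N y
      refine DTr.mono (f := leaf M N y) h2 ?_
      exact (eval_mono M.p (hy.trans hL)).trans hM)
    refine h.trans ?_
    have hε : 0 ≤ (12 * (t : ℝ) * q) ^ (t + 1) := by positivity
    have h3 : (2 : ℝ) ^ (l1 + k * (2 * p.eval l1 + 1) + 2) ≤ 2 ^ (Lb p k l + 2) :=
      pow_le_pow_right₀ (by norm_num) (by omega)
    exact mul_le_mul_of_nonneg_right (mul_le_mul_of_nonneg_left h3 (Nat.cast_nonneg k)) hε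
  calc Ex (wq (q ^ k)) (fun ρ : Restr (Fin N) =>
        if ¬ ∀ i ∈ W, DTr t (rs (acc M p k N z i) ρ) then (1 : ℝ) else 0)
      ≤ Ex (wq (q ^ k)) (fun ρ : Restr (Fin N) => ∑ l1 ∈ Finset.range (l + 1),
        if ¬ ∀ y : List Bool, y.length ≤ l1 → ∀ b,
          DTr t (rs (QF (p.eval l1) (leaf M N) k b y) ρ) then (1 : ℝ) else 0) := by
        apply Ex_mono hw
        intro ρ
        by_cases hG : ∀ i ∈ W, DTr t (rs (acc M p k N z i) ρ)
        · rw [if_neg (not_not.2 hG)]
          apply Finset.sum_nonneg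
          intro l1 _
          split_ifs <;> norm_num
        · rw [if_pos hG]
          push Not at hG
          obtain ⟨i, hi, hbad⟩ := hG
          have hmem : (z i).length ∈ Finset.range (l + 1) := by
            rw [Finset.mem_range]
            have := hz i hi
            omega
          have hterm : (1 : ℝ) ≤ if ¬ ∀ y : List Bool, y.length ≤ (z i).length → ∀ b,
              DTr t (rs (QF (p.eval (z i).length) (leaf M N) k b y) ρ) then (1 : ℝ) else 0 := by
            rw [if_pos]
            intro hall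
            exact hbad (hall (z i) le_rfl true)
          refine hterm.trans ?_
          exact Finset.single_le_sum (f := fun l1 => if ¬ ∀ y : List Bool, y.length ≤ l1 → ∀ b,
              DTr t (rs (QF (p.eval l1) (leaf M N) k b y) ρ) then (1 : ℝ) else 0)
            (fun l1 _ => by split_ifs <;> norm_num) hmem
    _ = ∑ l1 ∈ Finset.range (l + 1), Ex (wq (q ^ k)) (fun ρ : Restr (Fin N) =>
        if ¬ ∀ y : List Bool, y.length ≤ l1 → ∀ b,
          DTr t (rs (QF (p.eval l1) (leaf M N) k b y) ρ) then (1 : ℝ) else 0) := by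
        rw [Ex_sum]
    _ ≤ ∑ l1 ∈ Finset.range (l + 1), k * 2 ^ (Lb p k l + 2) * (12 * t * q) ^ (t + 1) :=
        Finset.sum_le_sum hone
    _ = (l + 1) * (k * 2 ^ (Lb p k l + 2) * (12 * t * q) ^ (t + 1)) := by
        rw [Finset.sum_const, Finset.card_range, nsmul_eq_mul]
        push_cast
        ring

end Pool.Agent.H861R4.IM
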