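import Pool.Agent.H861R4.IM.Defs2

/-! Task TR (helper143): measure of events which depend on the first bits of the oracle. -/

namespace Pool.Agent.H861R4.IM

open Pool.Agent.NPC Finset H568R2 Pool.Agent.H676 Pool.Agent.H620R2.Gauge MeasureTheory

theorem TR_cyl_eq (N : ℕ) (a : Fin N → Bool) : {A : Oracle | pre N A = a} =
    Set.pi (((Finset.range N).image str : Finset (List Bool)) : Set (List Bool))
      (fun y => ({orc N a y} : Set Bool)) := by
  ext A
  simp only [Set.mem_ofPred_eq, Set.mem_pi, Finset.coe_image, Set.mem_image,
    Finset.mem_coe, Finset.mem_range, forall_exists_index, and_imp, Set.mem_singleton_iff]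
  constructor
  · rintro rfl y i hi rfl
    simp [orc, pre, idx_str, hi]
  · intro h
    funext i
    have := h (str i.1) i.1 i.2 rfl
    simp [orc, idx_str, i.2] at this
    simpa [pre] using this

theorem TR_measurable (N : ℕ) (a : Fin N → Bool) : MeasurableSet {A : Oracle | pre N A = a} := by
  rw [TR_cyl_eq]
  exact MeasurableSet.pi (Finset.countable_toSet _) (fun i _ => MeasurableSet.singleton _)

theorem TR_cyl (N : ℕ) (a : Fin N → Bool) : ranO {A : Oracle | pre N A = a} =
    (2⁻¹ : ENNReal) ^ N := by
  rw [TR_cyl_eq]
  have h2 : ranO (Set.pi (((Finset.range N).image str : Finset (List Bool)) :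
      Set (List Bool)) (fun y => ({orc N a y} : Set Bool))) =
      ∏ y ∈ (Finset.range N).image str, coinM ({orc N a y} : Set Bool) :=
    Measure.infinitePi_pi (fun _ : List Bool => coinM)
      (fun i _ => MeasurableSet.singleton _)
  rw [h2, Finset.prod_congr rfl (fun y _ => coinM_singleton _), Finset.prod_const,
    Finset.card_image_of_injective _ str_injective, Finset.card_range]

theorem t_TR : St_TR := by
  classical
  intro N P
  have h1 : {A : Oracle | P (pre N A)} =
      ⋃ a ∈ (Finset.univ : Finset (Fin N → Bool)).filter P, {A : Oracle | pre N A = a} := by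
    ext A
    simp
  rw [h1, measure_biUnion_finset]
  · rw [Finset.sum_congr rfl (fun a _ => TR_cyl N a), Finset.sum_const, nsmul_eq_mul]
    have h3 : Ex unif (fun a : Fin N → Bool => if P a then (1 : ℝ) else 0) =
        (((Finset.univ : Finset (Fin N → Bool)).filter P).card : ℝ) * ((2 : ℝ)⁻¹) ^ N := by
      unfold Ex unif
      rw [Finset.card_filter, Nat.cast_sum, Finset.sum_mul]
      refine Finset.sum_congr rfl (fun a _ => ?_)
      rw [Finset.prod_const, Finset.card_univ, Fintype.card_fin, one_div]
      by_cases h : P a <;> simp [h]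
    have h4 : Ex unif (fun a : Fin N → Bool => if P a then (1 : ℝ) else 0) =
        Ex unif (fun a : Fin N → Bool => @ite ℝ (P a) (Classical.propDecidable _) (1 : ℝ) 0) := by
      congr 1
    rw [← h4, h3, ENNReal.ofReal_mul (by positivity), ENNReal.ofReal_natCast,
      ENNReal.ofReal_pow (by norm_num), ENNReal.ofReal_inv_of_pos (by norm_num)]
    simp
  · intro a _ b _ hab
    rw [Function.onFun, Set.disjoint_left]
    intro A hA hB
    exact hab (hA.symm.trans hB)
  · intro a _
    exact TR_measurable N a

end Pool.Agent.H861R4.IM
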