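import Pool.Agent.H861R4.IM.Defs2

namespace Pool.Agent.H861R4.IM

open Pool.Agent.NPC Finset H568R2 Pool.Agent.H676 Pool.Agent.H620R2.Gauge MeasureTheory

/-- the accepted strings -/
def UNI_S (M : Alg) (p : Polynomial ℕ) (k : ℕ) (A : Oracle) : Set (List Bool) :=
  {x : List Bool | Quant (p.eval x.length) (fn M A) k true x}

open Classical in
theorem UNI_bound (h1 : St_BR) (h2 : St_FST) (h3 : St_US) (h4 : St_TR) (M : Alg)
    (p : Polynomial ℕ) (k : ℕ) (c : Bool) (n₀ K : ℕ) :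
    ∃ i₂ : ℕ, 1 ≤ i₂ ∧ ∀ i₀, i₂ ≤ i₀ →
      ranO {A | (UNI_S M p k A).Infinite ∧ ∀ x : List Bool, n₀ ≤ x.length → x ∈ UNI_S M p k A →
        (x ∈ parLang A ↔ c = true)} ≤ ENNReal.ofReal ((1 / 2) ^ K + 1 / (i₀ : ℝ)) := by
  obtain ⟨i₂, hi₂, hUS⟩ := h3 M p k K c
  refine ⟨max i₂ (2 ^ n₀), le_max_of_le_left hi₂, fun i₀ hi₀ => ?_⟩
  set E : Set Oracle := {A | (UNI_S M p k A).Infinite ∧ ∀ x : List Bool, n₀ ≤ x.length →
    x ∈ UNI_S M p k A → (x ∈ parLang A ↔ c = true)} with hE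
  let En : ℕ → Set Oracle := fun i₁ => {A | A ∈ E ∧
    K ≤ ((Finset.Ico i₀ i₁).filter (fun i => str i ∈ UNI_S M p k A)).card}
  have hmono : Monotone En := by
    intro i j hij A hA
    refine ⟨hA.1, hA.2.trans (Finset.card_le_card ?_)⟩
    apply Finset.filter_subset_filter
    exact Finset.Ico_subset_Ico_right hij
  have hcov : E ⊆ ⋃ i₁, En i₁ := by
    intro A hA
    have hinf : {i : ℕ | i₀ ≤ i ∧ str i ∈ UNI_S M p k A}.Infinite := by
      intro hfin
      apply hA.1
      have hsub : UNI_S M p k A ⊆ str '' ({i : ℕ | i₀ ≤ i ∧ str i ∈ UNI_S M p k A} ∪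
          Set.Iio i₀) := by
        intro x hx
        refine ⟨idx x, ?_, str_idx x⟩
        by_cases h : i₀ ≤ idx x
        · left
          exact ⟨h, by rw [str_idx]; exact hx⟩
        · right
          exact not_le.1 h
      exact ((hfin.union (Set.finite_Iio i₀)).image str).subset hsub
    obtain ⟨X, hX, hXc⟩ := hinf.exists_subset_card_eq K
    rw [Set.mem_iUnion]
    refine ⟨X.sup id + 1, hA, ?_⟩
    rw [← hXc]
    apply Finset.card_le_card
    intro i hi
    have h' := hX hi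
    rw [Finset.mem_filter, Finset.mem_Ico]
    refine ⟨⟨h'.1, ?_⟩, h'.2⟩
    have : i ≤ X.sup id := Finset.le_sup (f := id) hi
    omega
  have hEn : ∀ i₁, ranO (En i₁) ≤ ENNReal.ofReal ((1 / 2) ^ K + 1 / (i₀ : ℝ)) := by
    intro i₁
    obtain ⟨N, hN⟩ := h1 M p k i₁ i₁
    have hb := hUS i₀ i₁ N (le_trans (le_max_left _ _) hi₀) (by
      intro i hi
      exact (hN N le_rfl i (Finset.mem_Ico.1 hi).2).1)
    let P : (Fin N → Bool) → Prop := fun a => ∃ X ⊆ Finset.Ico i₀ i₁, X.card = K ∧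
      bX (acc M p k N str) i₀ X a = true ∧ ∀ i ∈ X, par (blk N (str i)) a = c
    have hsub : En i₁ ⊆ {A | P (pre N A)} := by
      rintro A ⟨hA, hcard⟩
      have hacc : ∀ i ∈ Finset.Ico i₀ i₁, (acc M p k N str i (pre N A) = true ↔
          str i ∈ UNI_S M p k A) := by
        intro i hi
        have hi1 := (Finset.mem_Ico.1 hi).2
        have hlen : (str i).length ≤ i₁ := by
          rw [length_str]
          exact (Nat.log_le_self 2 (i + 1)).trans (by omega)
        exact ((hN N le_rfl i hi1).2 A str hlen).1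
      obtain ⟨X, hX, hXK, hbX⟩ := h2 (Fin N) (acc M p k N str) (pre N A) i₀ i₁ K (by
        refine hcard.trans (Finset.card_le_card ?_)
        intro i hi
        rw [Finset.mem_filter] at hi ⊢
        exact ⟨hi.1, (hacc i hi.1).2 hi.2⟩)
      refine ⟨X, hX, hXK, hbX, fun i hi => ?_⟩
      have hb' := hbX
      unfold bX at hb'
      rw [decide_eq_true_iff] at hb'
      have hi' := hX hi
      have hS : str i ∈ UNI_S M p k A := (hacc i hi').1 (hb'.1 i hi)
      have hi1 := (Finset.mem_Ico.1 hi').2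
      have hi0 := (Finset.mem_Ico.1 hi').1
      have hlen : (str i).length ≤ i₁ := by
        rw [length_str]
        exact (Nat.log_le_self 2 (i + 1)).trans (by omega)
      have hpar := ((hN N le_rfl i hi1).2 A str hlen).2
      have hn₀ : n₀ ≤ (str i).length := by
        rw [length_str]
        apply Nat.le_log_of_pow_le (by norm_num)
        have : 2 ^ n₀ ≤ i₀ := (le_max_right _ _).trans hi₀
        omega
      have hc := hA.2 (str i) hn₀ hS
      rw [Bool.eq_iff_iff, hpar, hc]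
    refine (measure_mono hsub).trans ?_
    rw [h4 N P]
    apply ENNReal.ofReal_le_ofReal
    convert hb using 3
    rename_i a
    by_cases hP : P a
    · exact (if_pos hP).trans (if_pos hP).symm
    · exact (if_neg hP).trans (if_neg hP).symm
  calc ranO E ≤ ranO (⋃ i₁, En i₁) := measure_mono hcov
    _ = ⨆ i₁, ranO (En i₁) := hmono.measure_iUnion
    _ ≤ _ := iSup_le hEn

theorem t_UNI (h1 : St_BR) (h2 : St_FST) (h3 : St_US) (h4 : St_TR) : St_UNI := by
  intro M p k c
  have key : ∀ n₀ : ℕ, ∀ᵐ A ∂ranO, ¬ ((UNI_S M p k A).Infinite ∧ ∀ x : List Bool,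
      n₀ ≤ x.length → x ∈ UNI_S M p k A → (x ∈ parLang A ↔ c = true)) := by
    intro n₀
    rw [ae_iff]
    simp only [not_not]
    apply nonpos_iff_eq_zero.1
    apply ENNReal.le_of_forall_pos_le_add
    intro ε hε _
    rw [zero_add]
    have hε' : (0 : ℝ) < ε := by exact_mod_cast hε
    obtain ⟨K, hK⟩ := exists_pow_lt_of_lt_one (show (0 : ℝ) < ε / 2 by linarith)
      (show (1 / 2 : ℝ) < 1 by norm_num)
    obtain ⟨i₂, hi₂, hb⟩ := UNI_bound h1 h2 h3 h4 M p k c n₀ K
    obtain ⟨m, hm⟩ := exists_nat_gt (2 / (ε : ℝ))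
    refine (hb (max i₂ m) (le_max_left _ _)).trans ?_
    have hmpos : (0 : ℝ) < m := lt_trans (by positivity) hm
    have h5 : 1 / ((max i₂ m : ℕ) : ℝ) ≤ ε / 2 := by
      have h6 : (m : ℝ) ≤ ((max i₂ m : ℕ) : ℝ) := by exact_mod_cast le_max_right _ _
      calc 1 / ((max i₂ m : ℕ) : ℝ) ≤ 1 / (m : ℝ) := one_div_le_one_div_of_le hmpos h6
        _ ≤ ε / 2 := by
          rw [div_le_div_iff₀ hmpos (by norm_num)]
          rw [div_lt_iff₀ hε'] at hm
          linarith
    calc ENNReal.ofReal ((1 / 2) ^ K + 1 / ((max i₂ m : ℕ) : ℝ)) ≤ ENNReal.ofReal (ε : ℝ) :=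
          ENNReal.ofReal_le_ofReal (by linarith)
      _ = ε := ENNReal.ofReal_coe_nnreal
  have h := ae_all_iff.2 key
  filter_upwards [h] with A hA _ hinf n₀
  by_contra hcon
  apply hA n₀
  refine ⟨hinf, fun x hx hxS => ?_⟩
  by_contra hne
  exact hcon ⟨x, hx, hxS, hne⟩

end Pool.Agent.H861R4.IM
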