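import Pool.Agent.H861R4.IM.Defs2
import Pool.Agent.H620R2.Gauge.S

/-! Task US: the uniform bound. -/

namespace Pool.Agent.H861R4.IM

open Pool.Agent.NPC Finset H568R2 Pool.Agent.H676 Pool.Agent.H620R2.Gauge MeasureTheory

theorem US_sum (i₀ : ℕ) (h : 1 ≤ i₀) (d : ℕ) :
    ∑ i ∈ Finset.Ico i₀ (i₀ + d), 1 / ((i : ℝ) * (i + 1)) = 1 / (i₀ : ℝ) - 1 / ((i₀ : ℝ) + d) := by
  induction d with
  | zero => simp
  | succ d ih =>
    rw [← add_assoc, Finset.sum_Ico_succ_top (by omega), ih]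
    have h1 : (0 : ℝ) < (i₀ : ℝ) + d := by
      have : (1 : ℝ) ≤ i₀ := by exact_mod_cast h
      positivity
    have h2 : (0 : ℝ) < (i₀ : ℝ) + d + 1 := by linarith
    have h3 : (0 : ℝ) < (i₀ : ℝ) := by
      have : (1 : ℝ) ≤ i₀ := by exact_mod_cast h
      linarith
    push_cast
    rw [← add_assoc]
    field_simp
    ring

theorem US_sum_le (i₀ i₁ : ℕ) (h : 1 ≤ i₀) :
    ∑ i ∈ Finset.Ico i₀ i₁, 1 / ((i : ℝ) * (i + 1)) ≤ 1 / (i₀ : ℝ) := by
  rcases le_total i₁ i₀ with h1 | h1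
  · rw [Finset.Ico_eq_empty (by omega), Finset.sum_empty]
    positivity
  · obtain ⟨d, rfl⟩ := Nat.exists_eq_add_of_le h1
    rw [US_sum i₀ h d]
    have : (0 : ℝ) ≤ 1 / ((i₀ : ℝ) + d) := by positivity
    linarith

/-- the estimate of one term -/
theorem US_term (K i n q : ℕ) (hi : 1 ≤ i) (hn : i + 1 < 2 ^ (n + 1))
    (hq : q = 2 * (n + 1) + (n + 1) * K + K) (e : ℝ) (he : e * 2 ^ q ≤ 1) :
    (K : ℝ) * ((i : ℝ) + 1) ^ K * e ≤ 1 / ((i : ℝ) * (i + 1)) := by
  have hi0 : (0 : ℝ) < i := by exact_mod_cast hi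
  have h1 : ((i : ℝ) + 1) ≤ 2 ^ (n + 1) := by exact_mod_cast hn.le
  have hK : (K : ℝ) ≤ 2 ^ K := by exact_mod_cast Nat.lt_two_pow_self.le
  have h2 : ((i : ℝ) + 1) ^ K ≤ 2 ^ ((n + 1) * K) := by
    rw [pow_mul]
    exact pow_le_pow_left₀ (by positivity) h1 K
  have h3 : (i : ℝ) * (i + 1) ≤ 2 ^ (2 * (n + 1)) := by
    rw [two_mul, pow_add]
    apply mul_le_mul (by linarith) h1 (by positivity) (by positivity)
  have h4 : e ≤ 1 / 2 ^ q := by
    rw [le_div_iff₀ (by positivity)]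
    exact he
  have h5 : (K : ℝ) * ((i : ℝ) + 1) ^ K * e ≤ (K : ℝ) * ((i : ℝ) + 1) ^ K * (1 / 2 ^ q) :=
    mul_le_mul_of_nonneg_left h4 (by positivity)
  have h6 : (K : ℝ) * ((i : ℝ) + 1) ^ K * (1 / 2 ^ q) ≤
      2 ^ K * 2 ^ ((n + 1) * K) * (1 / 2 ^ q) := by
    apply mul_le_mul_of_nonneg_right _ (by positivity)
    exact mul_le_mul hK h2 (by positivity) (by positivity)
  have h7 : (2 : ℝ) ^ K * 2 ^ ((n + 1) * K) * (1 / 2 ^ q) = 1 / 2 ^ (2 * (n + 1)) := by
    rw [hq, pow_add, pow_add]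
    field_simp
  have h8 : (1 : ℝ) / 2 ^ (2 * (n + 1)) ≤ 1 / ((i : ℝ) * (i + 1)) :=
    one_div_le_one_div_of_le (by positivity) h3
  linarith

theorem t_US (h1 : St_CUB) (h2 : St_NUM) : St_US := by
  classical
  intro M p k K c
  set L : Polynomial ℕ := Polynomial.X + Polynomial.C k * (2 * p + 1) with hL
  set Q : Polynomial ℕ := 2 * (Polynomial.X + 1) + (Polynomial.X + 1) * Polynomial.C K +
    Polynomial.C K with hQ
  set P : Polynomial ℕ := M.p.comp L + 2 * L + 2 * Polynomial.X + Q + Polynomial.C k + 10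
    with hP
  set R : Polynomial ℕ := (Polynomial.C K + 1) * P with hR
  have eL : ∀ n, L.eval n = Lb p k n := by
    intro n
    simp [hL, Lb]
  have eQ : ∀ n, Q.eval n = 2 * (n + 1) + (n + 1) * K + K := by
    intro n
    simp [hQ]
  have eP : ∀ n, P.eval n = M.p.eval (Lb p k n) + 2 * Lb p k n + 2 * n + Q.eval n + k + 10 := by
    intro n
    simp only [hP, Polynomial.eval_add, Polynomial.eval_mul, Polynomial.eval_comp,
      Polynomial.eval_X, Polynomial.eval_C, Polynomial.eval_ofNat, eL]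
  have eR : ∀ n, R.eval n = (K + 1) * P.eval n := by
    intro n
    simp [hR]
  have hP1 : ∀ n, 1 ≤ P.eval n := by
    intro n
    rw [eP]
    omega
  obtain ⟨n₀, hn₀⟩ := Filter.eventually_atTop.1 (h2 k L P R Q hP1 (by
    intro n
    rw [eP, eL]
    omega))
  refine ⟨2 ^ n₀, Nat.one_le_two_pow, ?_⟩
  intro i₀ i₁ N hi₀ hN
  have hc := h1 M p k N i₀ i₁ K str (fun n => n) (fun n => P.eval n) c hN (fun _ _ => le_rfl)
    monotone_id hP1 (by
      intro n
      simp only [eP]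
      omega)
  refine hc.trans ?_
  have hs : ∑ i ∈ Finset.Ico i₀ i₁, (K : ℝ) * ((i : ℝ) + 1) ^ K *
        er k (Lb p k (str i).length) (P.eval (str i).length) ((K + 1) * P.eval (str i).length)
          (str i).length ≤ ∑ i ∈ Finset.Ico i₀ i₁, 1 / ((i : ℝ) * (i + 1)) := by
    apply Finset.sum_le_sum
    intro i hi
    rw [Finset.mem_Ico] at hi
    have hp : 1 ≤ 2 ^ n₀ := Nat.one_le_two_pow
    have hlog : n₀ ≤ (str i).length := by
      rw [length_str]
      exact Nat.le_log_of_pow_le (by norm_num) (by omega)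
    have hlt : i + 1 < 2 ^ ((str i).length + 1) := by
      rw [length_str]
      exact Nat.lt_pow_succ_log_self (by norm_num) _
    have h3 := hn₀ _ hlog
    rw [eL, eR] at h3
    exact US_term K i (str i).length (Q.eval (str i).length) (by omega) hlt (eQ _) _ h3
  have h4 := US_sum_le i₀ i₁ (le_trans Nat.one_le_two_pow hi₀)
  linarith

end Pool.Agent.H861R4.IM
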