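import Pool.Agent.H861R4.IM.T_RC1
import Pool.Agent.H861R4.IM.T_RC2
import Pool.Agent.H861R4.IM.T_REC
import Pool.Agent.H861R4.IM.T_IND
import Pool.Agent.H861R4.IM.T_STP
import Pool.Agent.H861R4.IM.T_OR
import Pool.Agent.H861R4.IM.T_BX
import Pool.Agent.H861R4.IM.T_SW
import Pool.Agent.H861R4.IM.T_CUB
import Pool.Agent.H861R4.IM.T_N1
import Pool.Agent.H861R4.IM.T_N2
import Pool.Agent.H861R4.IM.T_NUM
import Pool.Agent.H861R4.IM.T_BR
import Pool.Agent.H861R4.IM.T_FST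
import Pool.Agent.H861R4.IM.T_US
import Pool.Agent.H861R4.IM.T_TR
import Pool.Agent.H861R4.IM.T_UNI
import Pool.Agent.H861R4.IM.T_PAR
import Pool.Agent.H861R4.IM.T_RW
import Pool.Agent.H861R4.IM.T_CC
import Pool.Agent.H861R4.IM.T_NB
import Pool.Agent.H861R4.IM.T_BAL
import Pool.Agent.H861R4.IM.T_NO2
import Pool.Agent.H861R4.IM.T_FB

/-! The theorems of rounds 1 and 2. -/

namespace Pool.Agent.H861R4.IM

theorem num : St_NUM := t_NUM t_N1 t_N2

theorem uni : St_UNI :=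
  t_UNI t_BR t_FST (t_US (t_CUB (t_REC t_RC1 t_RC2) (t_STP t_IND) (t_BX t_OR) t_SW) num) t_TR

theorem nob : St_NO2 :=
  t_NO2 t_BR (t_BAL t_FST)
    (t_NB (t_CC (t_RW t_RC1 t_RC2) (t_STP t_IND) (t_BX t_OR) t_SW) num) t_TR

theorem main_FB : St_FB := t_FB uni nob t_PAR

end Pool.Agent.H861R4.IM
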