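import Pool.Agent.H861R4.IM.Defs4

namespace Pool.Agent.H861R4.IM

open Pool.Agent.NPC Finset H568R2 Pool.Agent.H676 Pool.Agent.H620R2.Gauge MeasureTheory

open Classical in
/-- the bad oracles: some unbalanced block below `i₁` -/
def AE_bad (M : Alg) (p : Polynomial ℕ) (k : ℕ) (c : Bool) (η : ℝ) (i₀ v m K i₁ : ℕ) :
    Set Oracle :=
  {A | ∃ X ⊆ Finset.Ico i₀ i₁, X.card = m + K ∧ (∀ i ∈ topK m X, v ≤ i) ∧
    (∀ i ∈ X, QA M p k A i) ∧
    (∀ i ∈ Finset.Ico i₀ (X.sup id), i ∉ X → ¬ QA M p k A i) ∧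
    (1 / 2 + η) * K ≤
      (((topK m X).filter (fun i => str i ∈ parLang A ↔ c = true)).card : ℝ)}

theorem AE_topK_subset (m : ℕ) (X : Finset ℕ) : topK m X ⊆ X := Finset.filter_subset _ _

open Classical in
theorem AE_measure (h2 : St_BR) (h3 : St_TR) (M : Alg) (p : Polynomial ℕ) (k : ℕ) (c : Bool)
    (η : ℝ) (i₀ v m K i₁ : ℕ)
    (hb : ∀ N, (∀ i ∈ Finset.Ico i₀ i₁, 2 ^ (2 * (str i).length + 1) ≤ N + 1) →
      Ex unif (fun a : Fin N → Bool => if ∃ X ⊆ Finset.Ico i₀ i₁, X.card = m + K ∧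
        (∀ i ∈ topK m X, v ≤ i) ∧ bX (acc M p k N str) i₀ X a = true ∧
        (1 / 2 + η) * K ≤ (((topK m X).filter (fun i => par (blk N (str i)) a = c)).card : ℝ)
          then (1 : ℝ) else 0) ≤ Real.exp (-2 * η ^ 2 * K) + 1 / (v : ℝ) ^ 2) :
    ranO (AE_bad M p k c η i₀ v m K i₁) ≤
      ENNReal.ofReal (Real.exp (-2 * η ^ 2 * K) + 1 / (v : ℝ) ^ 2) := by
  obtain ⟨N, hN⟩ := h2 M p k i₁ i₁
  have hb' := hb N (fun i hi => (hN N le_rfl i (Finset.mem_Ico.1 hi).2).1)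
  let P : (Fin N → Bool) → Prop := fun a => ∃ X ⊆ Finset.Ico i₀ i₁, X.card = m + K ∧
    (∀ i ∈ topK m X, v ≤ i) ∧ bX (acc M p k N str) i₀ X a = true ∧
    (1 / 2 + η) * K ≤ (((topK m X).filter (fun i => par (blk N (str i)) a = c)).card : ℝ)
  have hsub : AE_bad M p k c η i₀ v m K i₁ ⊆ {A | P (pre N A)} := by
    rintro A ⟨X, hX, hXc, hXt, hXQ, hXn, hXf⟩
    have hi : ∀ i, i < i₁ → (acc M p k N str i (pre N A) = true ↔ QA M p k A i) ∧
        (par (blk N (str i)) (pre N A) = true ↔ str i ∈ parLang A) := by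
      intro i hi1
      have hlen : (str i).length ≤ i₁ := by
        rw [length_str]
        exact (Nat.log_le_self 2 (i + 1)).trans (by omega)
      exact (hN N le_rfl i hi1).2 A str hlen
    have hXlt : ∀ i ∈ X, i < i₁ := fun i hiX => (Finset.mem_Ico.1 (hX hiX)).2
    refine ⟨X, hX, hXc, hXt, ?_, ?_⟩
    · unfold bX
      rw [decide_eq_true_iff]
      refine ⟨fun i hiX => (hi i (hXlt i hiX)).1.2 (hXQ i hiX), fun i hiI hiX => ?_⟩
      have hsup : X.sup id ≤ i₁ := Finset.sup_le fun j hj => (hXlt j hj).le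
      have hi1 : i < i₁ := lt_of_lt_of_le (Finset.mem_Ico.1 hiI).2 hsup
      have hnq := hXn i hiI hiX
      rw [← (hi i hi1).1] at hnq
      exact Bool.eq_false_iff.2 hnq
    · refine hXf.trans (le_of_eq ?_)
      congr 2
      apply Finset.filter_congr
      intro i hiT
      have h5 := (hi i (hXlt i (AE_topK_subset m X hiT))).2
      have h6 : par (blk N (str i)) (pre N A) = c ↔
          (par (blk N (str i)) (pre N A) = true ↔ c = true) := Bool.eq_iff_iff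
      rw [h6, h5]
  refine (measure_mono hsub).trans ?_
  rw [h3 N P]
  apply ENNReal.ofReal_le_ofReal
  convert hb' using 3
  rename_i a
  by_cases hP : P a
  · exact (if_pos hP).trans (if_pos hP).symm
  · exact (if_neg hP).trans (if_neg hP).symm

theorem AE_mono (M : Alg) (p : Polynomial ℕ) (k : ℕ) (c : Bool) (η : ℝ) (i₀ v m K : ℕ) :
    Monotone (fun i₁ => AE_bad M p k c η i₀ v m K i₁) := by
  rintro i j hij A ⟨X, hX, h⟩
  exact ⟨X, hX.trans (Finset.Ico_subset_Ico_right hij), h⟩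

theorem t_AE (h1 : St_UD) (h2 : St_BR) (h3 : St_TR) : St_AE := by
  intro M p k c D η i₀ v m K hη hmK hv hs1 hs2
  obtain ⟨v₀, hv₀, hUD⟩ := h1 M p k c D η hη
  set t : ℕ → Set Oracle := fun s => {A | v₀ ≤ v s ∧
    A ∈ ⋃ i₁, AE_bad M p k c η (i₀ s) (v s) (m s) (K s) i₁} with ht
  have hbound : ∀ s, ranO (t s) ≤
      ENNReal.ofReal (Real.exp (-2 * η ^ 2 * K s) + 1 / ((v s : ℕ) : ℝ) ^ 2) := by
    intro s
    by_cases hs : v₀ ≤ v s
    · have hsub : t s ⊆ ⋃ i₁, AE_bad M p k c η (i₀ s) (v s) (m s) (K s) i₁ := fun A hA => hA.2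
      calc ranO (t s) ≤ ranO (⋃ i₁, AE_bad M p k c η (i₀ s) (v s) (m s) (K s) i₁) :=
            measure_mono hsub
        _ = ⨆ i₁, ranO (AE_bad M p k c η (i₀ s) (v s) (m s) (K s) i₁) :=
            (AE_mono M p k c η (i₀ s) (v s) (m s) (K s)).measure_iUnion
        _ ≤ _ := iSup_le fun i₁ => AE_measure h2 h3 M p k c η (i₀ s) (v s) (m s) (K s) i₁
            (fun N hN => hUD (v s) hs (m s) (K s) (hmK s) (i₀ s) i₁ N hN)
    · have : t s = ∅ := by
        ext A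
        simp only [ht, Set.mem_ofPred_eq, Set.mem_empty_iff_false, iff_false]
        exact fun h => hs h.1
      rw [this]
      simp
  have hsum : (∑' s, ranO (t s)) ≠ ⊤ := by
    apply ne_top_of_le_ne_top (b := ∑' s : ℕ,
      ENNReal.ofReal (Real.exp (-2 * η ^ 2 * K s) + 1 / ((v s : ℕ) : ℝ) ^ 2))
    · exact (hs1.add hs2).tsum_ofReal_ne_top
    · exact ENNReal.tsum_le_tsum hbound
  filter_upwards [ae_eventually_notMem hsum] with A hA
  filter_upwards [hA, hv.eventually_ge_atTop v₀] with s hs1' hs2' X hXc hX0 hXt hXQ hXn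
  by_contra hcon
  rw [not_lt] at hcon
  apply hs1'
  refine ⟨hs2', Set.mem_iUnion.2 ⟨X.sup id + 1, X, ?_, hXc, hXt, hXQ, hXn, hcon⟩⟩
  intro i hi
  rw [Finset.mem_Ico]
  refine ⟨hX0 i hi, ?_⟩
  have : i ≤ X.sup id := Finset.le_sup (f := id) hi
  omega

end Pool.Agent.H861R4.IM
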