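import Pool.Agent.H861R4.IM.Defs4
import Pool.Agent.H620R2.Gauge.A1
import Pool.Agent.H620R2.Gauge.P

/-! FR: frequency one half along every infinite set of the hierarchy. -/

set_option autoImplicit false

namespace Pool.Agent.H861R4.IM

open Pool.Agent.NPC Finset H568R2 Pool.Agent.H676 Pool.Agent.H620R2.Gauge MeasureTheory

theorem FR_countable_poly : Countable (Polynomial ℕ) := by
  have : Function.Injective (fun p : Polynomial ℕ => (p.toFinsupp.coeff : ℕ →₀ ℕ)) := by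
    intro p q h
    ext n
    exact DFunLike.congr_fun h n
  exact this.countable

theorem FR_fn {M : Alg} {A : Oracle} {V : List Bool → List Bool}
    (hM : ∀ x, M.out A x = some (V x)) : fn M A = V := by
  funext x
  unfold fn
  rw [hM x]
  rfl

theorem FR_infinite (S : Set (List Bool)) (hS : S.Infinite) : {i : ℕ | str i ∈ S}.Infinite := by
  intro hfin
  apply hS
  refine (hfin.image str).subset ?_
  intro y hy
  exact ⟨idx y, by simpa [str_idx] using hy, str_idx y⟩

open Classical in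
theorem FR_count (P : ℕ → Prop) (hP : {i : ℕ | P i}.Infinite) (K : ℕ) :
    ∃ N₀ : ℕ, ∀ N, N₀ ≤ N → K ≤ ((Finset.range N).filter P).card := by
  obtain ⟨t, ht, hc⟩ := hP.exists_subset_card_eq K
  refine ⟨t.sup id + 1, fun N hN => ?_⟩
  rw [← hc]
  apply Finset.card_le_card
  intro i hi
  rw [Finset.mem_filter, Finset.mem_range]
  refine ⟨?_, ht hi⟩
  have : i ≤ t.sup id := Finset.le_sup (f := id) hi
  omega

/-- the limit -/
theorem FR_lim (a b m : ℕ → ℕ) (hab : ∀ N, a N + b N = m N)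
    (hm : ∀ K : ℕ, ∃ N₀ : ℕ, ∀ N, N₀ ≤ N → K ≤ m N)
    (ha : ∀ r : ℕ, 1 ≤ r → ∃ C₀ : ℕ, ∀ N, (a N : ℝ) ≤ (1 / 2 + 2 / (r : ℝ)) * (m N : ℝ) + C₀)
    (hb : ∀ r : ℕ, 1 ≤ r → ∃ C₀ : ℕ, ∀ N, (b N : ℝ) ≤ (1 / 2 + 2 / (r : ℝ)) * (m N : ℝ) + C₀) :
    Filter.Tendsto (fun N => (a N : ℝ) / (m N : ℝ)) Filter.atTop (nhds (1 / 2)) := by
  rw [Metric.tendsto_atTop]
  intro ε hε
  obtain ⟨r, hr⟩ := exists_nat_gt (4 / ε)
  have hr0 : (0 : ℝ) < r := lt_trans (by positivity) hr
  have hr1 : 1 ≤ r := by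
    have : 0 < r := by exact_mod_cast hr0
    omega
  obtain ⟨C1, hC1⟩ := ha r hr1
  obtain ⟨C2, hC2⟩ := hb r hr1
  obtain ⟨K, hK⟩ := exists_nat_gt (2 * ((C1 : ℝ) + C2) / ε)
  obtain ⟨N₀, hN₀⟩ := hm (K + 1)
  refine ⟨N₀, fun N hN => ?_⟩
  have h1 := hN₀ N hN
  have hmK : (K : ℝ) + 1 ≤ (m N : ℝ) := by exact_mod_cast h1
  have hK0 : (0 : ℝ) ≤ K := Nat.cast_nonneg K
  have hm0 : (0 : ℝ) < m N := by linarith
  have hs : (a N : ℝ) + b N = m N := by exact_mod_cast hab N
  have h2 : 2 / (r : ℝ) < ε / 2 := by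
    rw [div_lt_iff₀ hr0]
    rw [div_lt_iff₀ hε] at hr
    linarith
  have h3 : 2 * ((C1 : ℝ) + C2) < ε * m N := by
    rw [div_lt_iff₀ hε] at hK
    nlinarith
  have h4 := hC1 N
  have h5 := hC2 N
  have h6 : (2 / (r : ℝ)) * (m N : ℝ) ≤ ε / 2 * m N := mul_le_mul_of_nonneg_right h2.le hm0.le
  have hC1' : (0 : ℝ) ≤ C1 := Nat.cast_nonneg _
  have hC2' : (0 : ℝ) ≤ C2 := Nat.cast_nonneg _
  rw [Real.dist_eq, abs_lt]
  constructor
  · rw [lt_sub_iff_add_lt, lt_div_iff₀ hm0]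
    nlinarith
  · rw [sub_lt_iff_lt_add, div_lt_iff₀ hm0]
    nlinarith

theorem t_FR (h : St_UF) : St_FR := by
  classical
  have := FR_countable_poly
  have h' : ∀ᵐ A ∂ranO, ∀ (M : Alg) (p : Polynomial ℕ) (k : ℕ) (c : Bool) (r : ℕ), 1 ≤ r →
      {i : ℕ | QA M p k A i}.Infinite → ∃ C₀ : ℕ, ∀ N : ℕ,
      (((Finset.range N).filter (fun i => QA M p k A i ∧
        (str i ∈ parLang A ↔ c = true))).card : ℝ) ≤
      (1 / 2 + 2 / (r : ℝ)) * (((Finset.range N).filter (fun i => QA M p k A i)).card : ℝ) + C₀ := by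
    refine ae_all_iff.2 fun M => ae_all_iff.2 fun p => ae_all_iff.2 fun k => ae_all_iff.2 fun c =>
      ae_all_iff.2 fun r => ?_
    by_cases hr : 1 ≤ r
    · filter_upwards [h M p k c r hr] with A hA _ hinf
      obtain ⟨C₀, hC₀⟩ := hA hinf
      refine ⟨C₀, fun N => ?_⟩
      convert hC₀ N
    · exact Filter.Eventually.of_forall fun A hr' => absurd hr' hr
  unfold St_FR
  filter_upwards [h'] with A hA
  rintro S ⟨V, p, k, ⟨M, hM⟩, hS⟩ hinf
  have hfn := FR_fn hM
  have hQ : ∀ i, QA M p k A i ↔ str i ∈ S := by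
    intro i
    unfold QA
    rw [hfn]
    exact (hS _).symm
  have hinf' := FR_infinite S hinf
  have hinfQ : {i : ℕ | QA M p k A i}.Infinite := by
    have : {i : ℕ | QA M p k A i} = {i : ℕ | str i ∈ S} := by
      ext i
      exact hQ i
    rw [this]
    exact hinf'
  have hbound : ∀ c : Bool, ∀ r : ℕ, 1 ≤ r → ∃ C₀ : ℕ, ∀ N : ℕ,
      (((Finset.range N).filter (fun i => str i ∈ S ∧
        (str i ∈ parLang A ↔ c = true))).card : ℝ) ≤
      (1 / 2 + 2 / (r : ℝ)) * (((Finset.range N).filter (fun i => str i ∈ S)).card : ℝ) + C₀ := by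
    intro c r hr
    obtain ⟨C₀, hC₀⟩ := hA M p k c r hr hinfQ
    refine ⟨C₀, fun N => ?_⟩
    have := hC₀ N
    simp only [hQ] at this
    exact this
  refine FR_lim (fun N => ((Finset.range N).filter (fun i => str i ∈ S ∩ parLang A)).card)
    (fun N => ((Finset.range N).filter (fun i => str i ∈ S ∧ ¬ str i ∈ parLang A)).card)
    (fun N => ((Finset.range N).filter (fun i => str i ∈ S)).card) ?_ ?_ ?_ ?_
  · intro N
    have := Finset.card_filter_add_card_filter_not (s := (Finset.range N).filter (fun i => str i ∈ S))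
      (fun i => str i ∈ parLang A)
    rw [Finset.filter_filter, Finset.filter_filter] at this
    exact this
  · exact FR_count _ hinf'
  · intro r hr
    obtain ⟨C₀, hC₀⟩ := hbound true r hr
    refine ⟨C₀, fun N => ?_⟩
    have h1 := hC₀ N
    have h2 : (Finset.range N).filter (fun i => str i ∈ S ∧ (str i ∈ parLang A ↔ true = true)) =
        (Finset.range N).filter (fun i => str i ∈ S ∩ parLang A) := by
      apply Finset.filter_congr
      intro i _
      simp
    rw [h2] at h1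
    exact h1
  · intro r hr
    obtain ⟨C₀, hC₀⟩ := hbound false r hr
    refine ⟨C₀, fun N => ?_⟩
    have h1 := hC₀ N
    have h2 : (Finset.range N).filter (fun i => str i ∈ S ∧ (str i ∈ parLang A ↔ false = true)) =
        (Finset.range N).filter (fun i => str i ∈ S ∧ ¬ str i ∈ parLang A) := by
      apply Finset.filter_congr
      intro i _
      simp
    rw [h2] at h1
    exact h1

end Pool.Agent.H861R4.IM
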