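import Pool.Agent.H861R4.IM.Defs4

/-! Task PT: the combination of the blocks. -/

namespace Pool.Agent.H861R4.IM

open Pool.Agent.NPC Finset H568R2 Pool.Agent.H676 Pool.Agent.H620R2.Gauge MeasureTheory

theorem PT_split (Q : ℕ → Prop) [DecidablePred Q] (a b : ℕ) (h : a ≤ b) :
    ((Finset.range b).filter Q).card =
      ((Finset.range a).filter Q).card + ((Finset.Ico a b).filter Q).card := by
  rw [← Finset.card_union_of_disjoint]
  · congr 1
    ext x
    simp only [Finset.mem_filter, Finset.mem_range, Finset.mem_union, Finset.mem_Ico]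
    constructor
    · rintro ⟨h1, h2⟩
      rcases Nat.lt_or_ge x a with h3 | h3
      · exact Or.inl ⟨h3, h2⟩
      · exact Or.inr ⟨⟨h3, h1⟩, h2⟩
    · rintro (⟨h1, h2⟩ | ⟨⟨h1, h1'⟩, h2⟩)
      · exact ⟨by omega, h2⟩
      · exact ⟨h1', h2⟩
  · rw [Finset.disjoint_left]
    intro x hx hx'
    have h1 := Finset.mem_range.1 (Finset.mem_filter.1 hx).1
    have h2 := Finset.mem_Ico.1 (Finset.mem_filter.1 hx').1
    omega

open Classical in
theorem t_PT : St_PT := by
  intro Q θ r m₀ C₀ hr hθ hK m
  have hr0 : (0 : ℝ) < r := by exact_mod_cast hr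
  rcases Nat.lt_or_ge m m₀ with hm | hm
  · have h1 : ((Finset.range m).filter Q).card ≤ m := by
      refine (Finset.card_filter_le _ _).trans ?_
      rw [Finset.card_range]
    have h2 : (((Finset.range m).filter Q).card : ℝ) ≤ (m₀ : ℝ) := by
      exact_mod_cast h1.trans hm.le
    have h3 : (0 : ℝ) ≤ θ * m := by positivity
    have h4 : (0 : ℝ) ≤ (m : ℝ) / r := by positivity
    have h5 : (0 : ℝ) ≤ (C₀ : ℝ) := by positivity
    linarith
  · let CP : ℕ → Prop := fun c => m₀ ≤ c ∧
      (((Finset.range c).filter Q).card : ℝ) ≤ θ * ((c : ℝ) - m₀) + m₀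
    have hCP0 : CP m₀ := by
      refine ⟨le_rfl, ?_⟩
      have h1 : ((Finset.range m₀).filter Q).card ≤ m₀ := by
        refine (Finset.card_filter_le _ _).trans ?_
        rw [Finset.card_range]
      have h2 : (((Finset.range m₀).filter Q).card : ℝ) ≤ (m₀ : ℝ) := by exact_mod_cast h1
      rw [sub_self, mul_zero, zero_add]
      exact h2
    have hspec : CP (Nat.findGreatest CP m) := Nat.findGreatest_spec hm hCP0
    have hle : Nat.findGreatest CP m ≤ m := Nat.findGreatest_le m
    have hgr : ∀ k, Nat.findGreatest CP m < k → k ≤ m → ¬ CP k := fun k h1 h2 =>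
      Nat.findGreatest_is_greatest h1 h2
    generalize Nat.findGreatest CP m = c at hspec hle hgr
    obtain ⟨hc0, hc1⟩ := hspec
    obtain ⟨K, hK1, hK2, hK3⟩ := hK c hc0
    have hcK : m < c + K := by
      by_contra hcon
      apply hgr (c + K) (by omega) (by omega)
      refine ⟨by omega, ?_⟩
      rw [PT_split Q c (c + K) (by omega)]
      push_cast
      nlinarith
    have h1 : ((Finset.Ico c m).filter Q).card ≤ m - c := by
      refine (Finset.card_filter_le _ _).trans ?_
      rw [Nat.card_Ico]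
    have h2 : (((Finset.Ico c m).filter Q).card : ℝ) ≤ (K : ℝ) := by
      have h3 : ((Finset.Ico c m).filter Q).card ≤ K := by omega
      exact_mod_cast h3
    have hcm : (c : ℝ) ≤ m := by exact_mod_cast hle
    have h4 : (c : ℝ) / r ≤ (m : ℝ) / r := div_le_div_of_nonneg_right hcm hr0.le
    have h5 : θ * ((c : ℝ) - m₀) ≤ θ * m := by
      apply mul_le_mul_of_nonneg_left _ hθ
      have : (0 : ℝ) ≤ m₀ := by positivity
      linarith
    rw [PT_split Q c m hle]
    push_cast
    linarith

end Pool.Agent.H861R4.IM
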