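import Pool.Agent.H861R4.IM.Defs4

/-! Task RC3: like RC1 (by helper747), with general weights. -/

set_option autoImplicit false

namespace Pool.Agent.H861R4.IM

open Pool.Agent.NPC Finset H568R2 Pool.Agent.H676 Pool.Agent.H620R2.Gauge MeasureTheory

namespace RC3

variable {I : Type}

theorem bX_iff (f : ℕ → (I → Bool) → Bool) (i₀ : ℕ) (X : Finset ℕ) (a : I → Bool) :
    bX f i₀ X a = true ↔ (∀ i ∈ X, f i a = true) ∧
      ∀ i ∈ Finset.Ico i₀ (X.sup id), i ∉ X → f i a = false := by
  unfold bX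
  exact decide_eq_true_iff

theorem sup_mem {X : Finset ℕ} (h : X.Nonempty) : X.sup id ∈ X := by
  obtain ⟨i, hi, he⟩ := Finset.exists_mem_eq_sup X h id
  rw [he]; exact hi

theorem le_sup {X : Finset ℕ} {i : ℕ} (h : i ∈ X) : i ≤ X.sup id :=
  Finset.le_sup (f := id) h

theorem sub {f : ℕ → (I → Bool) → Bool} {i₀ i₁ : ℕ} {X Y : Finset ℕ} {a : I → Bool}
    (hX : X ⊆ Finset.Ico i₀ i₁) (hY : Y.Nonempty) (hbX : bX f i₀ X a = true)
    (hbY : bX f i₀ Y a = true) (h : X.sup id ≤ Y.sup id) : X ⊆ Y := by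
  rw [bX_iff] at hbX hbY
  intro i hi
  by_contra hiY
  have h1 : i ≤ Y.sup id := (le_sup hi).trans h
  rcases Nat.lt_or_ge i (Y.sup id) with h2 | h2
  · have h3 := hbY.2 i (Finset.mem_Ico.2 ⟨(Finset.mem_Ico.1 (hX hi)).1, h2⟩) hiY
    have h4 := hbX.1 i hi
    rw [h3] at h4
    exact absurd h4 (by simp)
  · have h3 : i = Y.sup id := le_antisymm h1 h2
    exact hiY (h3 ▸ sup_mem hY)

end RC3

open RC3 in
theorem t_RC3 : St_RC3 := by
  intro I f a i₀ i₁ j F hF
  have hnn : ∀ X ∈ (Finset.Ico i₀ i₁).powersetCard j,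
      0 ≤ ind (bX f i₀ X a) * F X := by
    intro X _
    refine mul_nonneg ?_ (hF X)
    unfold ind; split_ifs <;> norm_num
  by_cases hex : ∃ X ∈ (Finset.Ico i₀ i₁).powersetCard (j + 1), bX f i₀ X a = true
  · obtain ⟨X, hX, hbX⟩ := hex
    obtain ⟨hXs, hXc⟩ := Finset.mem_powersetCard.1 hX
    have hXne : X.Nonempty := Finset.card_pos.1 (by omega)
    rw [Finset.sum_eq_single_of_mem X hX]
    · have hX' : X.erase (X.sup id) ∈ (Finset.Ico i₀ i₁).powersetCard j := by
        rw [Finset.mem_powersetCard]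
        refine ⟨(Finset.erase_subset _ _).trans hXs, ?_⟩
        rw [Finset.card_erase_of_mem (sup_mem hXne)]
        omega
      have hbX' : bX f i₀ (X.erase (X.sup id)) a = true := by
        rw [bX_iff] at hbX ⊢
        have hle : (X.erase (X.sup id)).sup id ≤ X.sup id :=
          Finset.sup_mono (Finset.erase_subset _ _)
        refine ⟨fun i hi => hbX.1 i (Finset.mem_of_mem_erase hi), fun i hi hiX => ?_⟩
        rw [Finset.mem_Ico] at hi
        have h1 : i < X.sup id := lt_of_lt_of_le hi.2 hle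
        refine hbX.2 i (Finset.mem_Ico.2 ⟨hi.1, h1⟩) fun h2 => ?_
        exact hiX (Finset.mem_erase.2 ⟨h1.ne, h2⟩)
      have h1 := Finset.single_le_sum hnn hX'
      rw [hbX'] at h1
      rw [hbX]
      exact h1
    · intro Y hY hne
      have hbY : bX f i₀ Y a = false := by
        by_contra hbY
        rw [Bool.not_eq_false] at hbY
        obtain ⟨hYs, hYc⟩ := Finset.mem_powersetCard.1 hY
        have hYne : Y.Nonempty := Finset.card_pos.1 (by omega)
        rcases le_total (X.sup id) (Y.sup id) with h | h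
        · exact hne (Finset.eq_of_subset_of_card_le (sub hXs hYne hbX hbY h) (by omega)).symm
        · exact hne (Finset.eq_of_subset_of_card_le (sub hYs hXne hbY hbX h) (by omega))
      rw [hbY]
      simp [ind]
  · push Not at hex
    rw [Finset.sum_eq_zero]
    · exact Finset.sum_nonneg hnn
    · intro X hX
      have h1 : bX f i₀ X a = false := Bool.eq_false_iff.2 (hex X hX)
      rw [h1]
      simp [ind]

end Pool.Agent.H861R4.IM
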