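import Mathlib
import Pool.Agent.H861R4.IM.Defs4
import Pool.Agent.H620R2.Gauge.Comb

set_option autoImplicit false

namespace Pool.Agent.H861R4.IM

open Pool.Agent.NPC Finset H568R2 Pool.Agent.H676 Pool.Agent.H620R2.Gauge MeasureTheory

theorem RT_par {I : Type} [DecidableEq I] (B : Finset I) (a : I → Bool) (j : I) (v : Bool)
    (hj : j ∉ B) : par B (Function.update a j v) = par B a := by
  have h : B.filter (fun i => Function.update a j v i = true) = B.filter (fun i => a i = true) := by
    refine Finset.filter_congr fun i hi => ?_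
    rw [Function.update_of_ne]
    rintro rfl
    exact hj hi
  unfold par
  rw [h]

theorem RT_ind_nonneg (b : Bool) : 0 ≤ ind b := by
  cases b <;> simp [ind]

theorem RT_bX_empty {I : Type} (f : ℕ → (I → Bool) → Bool) (i₀ : ℕ) (a : I → Bool) :
    ind (bX f i₀ ∅ a) = 1 := by
  unfold bX ind
  simp

theorem RT_sup_mem (X : Finset ℕ) (h : X.Nonempty) : X.sup id ∈ X := by
  obtain ⟨x, hx, hx2⟩ := Finset.exists_mem_eq_sup X h id
  rw [hx2]
  exact hx

theorem RT_le_sup (X : Finset ℕ) {i : ℕ} (h : i ∈ X) : i ≤ X.sup id :=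
  Finset.le_sup (f := id) h

theorem RT_top_empty (m : ℕ) (X : Finset ℕ) (h : X.card = m) : topK m X = ∅ := by
  unfold topK
  rw [Finset.filter_eq_empty_iff]
  intro i hi hm
  have h1 : X.filter (fun j => j < i) ⊂ X := by
    rw [Finset.filter_ssubset]
    exact ⟨i, hi, lt_irrefl i⟩
  have h2 := Finset.card_lt_card h1
  omega

theorem RT_sup_top (m s : ℕ) (X : Finset ℕ) (h : X.card = m + s + 1) : X.sup id ∈ topK m X := by
  have hne : X.Nonempty := Finset.card_pos.1 (by omega)
  have hmem := RT_sup_mem X hne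
  unfold topK
  rw [Finset.mem_filter]
  refine ⟨hmem, ?_⟩
  have h1 : X.filter (fun j => j < X.sup id) = X.erase (X.sup id) := by
    ext j
    rw [Finset.mem_filter, Finset.mem_erase]
    constructor
    · rintro ⟨h2, h3⟩
      exact ⟨h3.ne, h2⟩
    · rintro ⟨h2, h3⟩
      exact ⟨h3, lt_of_le_of_ne (RT_le_sup X h3) h2⟩
  rw [h1, Finset.card_erase_of_mem hmem]
  omega

theorem RT_top_erase (m : ℕ) (X : Finset ℕ) :
    topK m (X.erase (X.sup id)) = (topK m X).erase (X.sup id) := by
  ext i
  unfold topK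
  rw [Finset.mem_filter, Finset.mem_erase, Finset.mem_erase, Finset.mem_filter]
  have key : i ∈ X → (X.erase (X.sup id)).filter (fun j => j < i) = X.filter (fun j => j < i) := by
    intro hi
    ext j
    rw [Finset.mem_filter, Finset.mem_filter, Finset.mem_erase]
    constructor
    · rintro ⟨⟨_, h2⟩, h3⟩
      exact ⟨h2, h3⟩
    · rintro ⟨h2, h3⟩
      exact ⟨⟨(lt_of_lt_of_le h3 (RT_le_sup X hi)).ne, h2⟩, h3⟩
  constructor
  · rintro ⟨⟨h1, h2⟩, h3⟩
    rw [key h2] at h3
    exact ⟨h1, h2, h3⟩
  · rintro ⟨h1, h2, h3⟩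
    refine ⟨⟨h1, h2⟩, ?_⟩
    rw [key h2]
    exact h3

theorem RT_card_le (h1 : St_RC3) {I : Type} (f : ℕ → (I → Bool) → Bool) (a : I → Bool)
    (i₀ i₁ : ℕ) (m : ℕ) :
    ∑ X ∈ (Finset.Ico i₀ i₁).powersetCard m, ind (bX f i₀ X a) ≤ 1 := by
  induction m with
  | zero =>
    rw [Finset.powersetCard_zero, Finset.sum_singleton, RT_bX_empty]
  | succ m ih =>
    refine le_trans ?_ ih
    have h2 := h1 I f a i₀ i₁ m (fun _ => 1) (fun _ => zero_le_one)
    simpa using h2

theorem t_RT (h1 : St_RC3) (h2 : St_RC2) : St_RT := by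
  intro I _ _ f B i₀ i₁ m K v fl c ω hω0 hω1 hdisj hfl hstep
  classical
  let pi : ℕ → (I → Bool) → ℝ := fun i a => if par (B i) a = c then (1 : ℝ) else ω
  have hpi0 : ∀ i a, 0 ≤ pi i a := by
    intro i a
    show (0 : ℝ) ≤ if par (B i) a = c then (1 : ℝ) else ω
    split_ifs
    · norm_num
    · exact hω0
  have hpi1 : ∀ i a, pi i a ≤ 1 := by
    intro i a
    show (if par (B i) a = c then (1 : ℝ) else ω) ≤ 1
    split_ifs
    · norm_num
    · exact hω1
  let F : (I → Bool) → Finset ℕ → ℝ := fun a X =>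
    if ∀ i ∈ topK m X, v ≤ i then ∏ i ∈ topK m X, pi i a else 0
  have hF0 : ∀ a X, 0 ≤ F a X := by
    intro a X
    show (0 : ℝ) ≤ if ∀ i ∈ topK m X, v ≤ i then ∏ i ∈ topK m X, pi i a else 0
    split_ifs
    · exact Finset.prod_nonneg fun i _ => hpi0 i a
    · exact le_rfl
  let fl' : ℕ → ℝ := fun i => if v ≤ i then fl i else 0
  have hfl' : ∀ i, 0 ≤ fl' i := by
    intro i
    show (0 : ℝ) ≤ if v ≤ i then fl i else 0
    split_ifs
    · exact hfl i
    · exact le_rfl
  let Sj : ℕ → ℝ := fun s => ∑ X ∈ (Finset.Ico i₀ i₁).powersetCard (m + s),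
    Ex unif (fun a : I → Bool => ind (bX f i₀ X a) * F a X)
  let E : ℝ := ∑ i ∈ Finset.Ico i₀ i₁, ((i : ℝ) + 1) ^ (m + K) * fl' i
  have hE : 0 ≤ E := Finset.sum_nonneg fun i _ => mul_nonneg (by positivity) (hfl' i)
  have hS0 : Sj 0 ≤ 1 := by
    show ∑ X ∈ (Finset.Ico i₀ i₁).powersetCard (m + 0),
      Ex unif (fun a : I → Bool => ind (bX f i₀ X a) * F a X) ≤ 1
    rw [← Ex_sum]
    have h3 : Ex unif (fun _ : I → Bool => (1 : ℝ)) = 1 := Ex_const unif_sum 1
    rw [← h3]
    refine Ex_mono unif_nonneg fun a => ?_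
    refine le_trans (Finset.sum_le_sum fun X hX => ?_) (RT_card_le h1 f a i₀ i₁ (m + 0))
    rw [Finset.mem_powersetCard] at hX
    have h4 : F a X = 1 := by
      show (if ∀ i ∈ topK m X, v ≤ i then ∏ i ∈ topK m X, pi i a else 0) = 1
      rw [RT_top_empty m X hX.2]
      simp
    rw [h4, mul_one]
  have hrec : ∀ s, s + 1 ≤ K → Sj (s + 1) ≤ (1 + ω) / 2 * Sj s + 2 * E := by
    intro s hs
    have s1 : Sj (s + 1) ≤ ∑ X ∈ (Finset.Ico i₀ i₁).powersetCard (m + s + 1),
        ((1 + ω) / 2 * Ex unif (fun a : I → Bool => ind (bX f i₀ X a) *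
          F a (X.erase (X.sup id))) + 2 * fl' (X.sup id)) := by
      refine Finset.sum_le_sum fun X hX => ?_
      rw [Finset.mem_powersetCard] at hX
      obtain ⟨hX1, hX2⟩ := hX
      have hX2' : X.card = m + s + 1 := hX2
      have hne : X.Nonempty := Finset.card_pos.1 (by omega)
      have hmem := RT_sup_mem X hne
      have htop := RT_sup_top m s X hX2'
      have hsubX : ∀ i ∈ topK m X, i ∈ X := fun i hi => (Finset.mem_filter.1 hi).1
      by_cases hv : ∀ i ∈ topK m X, v ≤ i
      · have hFX : ∀ a, F a X = ∏ i ∈ topK m X, pi i a := fun a => if_pos hv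
        have hFX' : ∀ a, F a (X.erase (X.sup id)) =
            ∏ i ∈ (topK m X).erase (X.sup id), pi i a := by
          intro a
          show (if ∀ i ∈ topK m (X.erase (X.sup id)), v ≤ i then
            ∏ i ∈ topK m (X.erase (X.sup id)), pi i a else 0) = _
          rw [RT_top_erase, if_pos (fun i hi => hv i (Finset.mem_erase.1 hi).2)]
        have hflv : fl' (X.sup id) = fl (X.sup id) := if_pos (hv _ htop)
        have h3 := fun c' => hstep c' X hX1 hne (by omega)
          (fun a => ∏ i ∈ (topK m X).erase (X.sup id), pi i a)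
          (fun a => ⟨Finset.prod_nonneg fun i _ => hpi0 i a,
            Finset.prod_le_one (fun i _ => hpi0 i a) fun i _ => hpi1 i a⟩)
          (by
            intro a j' hj' v'
            refine Finset.prod_congr rfl fun i hi => ?_
            rw [Finset.mem_erase] at hi
            have h4 : j' ∉ B i := by
              intro h5
              exact (Finset.disjoint_left.1 (hdisj i (hX1 (hsubX i hi.2)) (X.sup id)
                (hX1 hmem) hi.1)) h5 hj'
            show (if par (B i) (Function.update a j' v') = c then (1 : ℝ) else ω) =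
              if par (B i) a = c then (1 : ℝ) else ω
            rw [RT_par (B i) a j' v' h4])
        have h3a := h3 c
        have h3b := mul_le_mul_of_nonneg_left (h3 (!c)) hω0
        have hflS := hfl (X.sup id)
        have hsplit : Ex unif (fun a : I → Bool => ind (bX f i₀ X a) * F a X) =
            Ex unif (fun a : I → Bool => ind (bX f i₀ X a) *
              (∏ i ∈ (topK m X).erase (X.sup id), pi i a) *
              (if par (B (X.sup id)) a = c then (1 : ℝ) else 0)) +
            ω * Ex unif (fun a : I → Bool => ind (bX f i₀ X a) *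
              (∏ i ∈ (topK m X).erase (X.sup id), pi i a) *
              (if par (B (X.sup id)) a = !c then (1 : ℝ) else 0)) := by
          rw [← Ex_smul, ← Ex_add]
          refine congrArg (Ex unif) ?_
          funext a
          rw [hFX a, ← Finset.mul_prod_erase (topK m X) (fun i => pi i a) htop]
          show ind (bX f i₀ X a) * ((if par (B (X.sup id)) a = c then (1 : ℝ) else ω) *
            ∏ i ∈ (topK m X).erase (X.sup id), pi i a) = _
          by_cases hc : par (B (X.sup id)) a = c
          · have hc' : ¬ par (B (X.sup id)) a = !c := by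
              rw [hc]
              cases c <;> simp
            rw [if_pos hc, if_pos hc, if_neg hc']
            ring
          · have hc' : par (B (X.sup id)) a = !c := by
              cases h : par (B (X.sup id)) a <;> cases c <;> simp_all
            rw [if_neg hc, if_neg hc, if_pos hc']
            ring
        have hE' : Ex unif (fun a : I → Bool => ind (bX f i₀ X a) *
            F a (X.erase (X.sup id))) = Ex unif (fun a : I → Bool => ind (bX f i₀ X a) *
            ∏ i ∈ (topK m X).erase (X.sup id), pi i a) := by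
          refine congrArg (Ex unif) ?_
          funext a
          rw [hFX' a]
        rw [hsplit, hE', hflv]
        have h6 : ω * fl (X.sup id) ≤ fl (X.sup id) := by
          have := mul_le_mul_of_nonneg_right hω1 hflS
          linarith
        linarith
      · have hFX : ∀ a, F a X = 0 := fun a => if_neg hv
        have hz : Ex unif (fun a : I → Bool => ind (bX f i₀ X a) * F a X) = 0 := by
          have h5 : (fun a : I → Bool => ind (bX f i₀ X a) * F a X) = fun _ => (0 : ℝ) := by
            funext a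
            rw [hFX a, mul_zero]
          rw [h5]
          exact Ex_const unif_sum 0
        rw [hz]
        have h6 : 0 ≤ Ex unif (fun a : I → Bool => ind (bX f i₀ X a) *
            F a (X.erase (X.sup id))) :=
          Ex_nonneg unif_nonneg fun a => mul_nonneg (RT_ind_nonneg _) (hF0 _ _)
        have h7 := hfl' (X.sup id)
        have h8 : 0 ≤ (1 + ω) / 2 := by linarith
        have h9 := mul_nonneg h8 h6
        linarith
    have s2 : ∑ X ∈ (Finset.Ico i₀ i₁).powersetCard (m + s + 1),
        ((1 + ω) / 2 * Ex unif (fun a : I → Bool => ind (bX f i₀ X a) *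
          F a (X.erase (X.sup id))) + 2 * fl' (X.sup id)) =
        (1 + ω) / 2 * Ex unif (fun a : I → Bool =>
          ∑ X ∈ (Finset.Ico i₀ i₁).powersetCard (m + s + 1),
          ind (bX f i₀ X a) * F a (X.erase (X.sup id))) +
        2 * ∑ X ∈ (Finset.Ico i₀ i₁).powersetCard (m + s + 1), fl' (X.sup id) := by
      rw [Finset.sum_add_distrib, ← Finset.mul_sum, ← Finset.mul_sum, Ex_sum]
    have s3 : Ex unif (fun a : I → Bool => ∑ X ∈ (Finset.Ico i₀ i₁).powersetCard (m + s + 1),
          ind (bX f i₀ X a) * F a (X.erase (X.sup id))) ≤ Sj s := by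
      have s4 : Sj s = Ex unif (fun a : I → Bool =>
          ∑ X ∈ (Finset.Ico i₀ i₁).powersetCard (m + s), ind (bX f i₀ X a) * F a X) := by
        rw [Ex_sum]
      rw [s4]
      refine Ex_mono unif_nonneg fun a => ?_
      exact h1 I f a i₀ i₁ (m + s) (F a) (hF0 a)
    have s5 : ∑ X ∈ (Finset.Ico i₀ i₁).powersetCard (m + s + 1), fl' (X.sup id) ≤ E := by
      refine (h2 i₀ i₁ (m + s) fl' hfl').trans (Finset.sum_le_sum fun i _ => ?_)
      refine mul_le_mul_of_nonneg_right ?_ (hfl' i)
      refine pow_le_pow_right₀ ?_ (by omega)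
      have : (0 : ℝ) ≤ i := Nat.cast_nonneg i
      linarith
    rw [s2] at s1
    have s6 := mul_le_mul_of_nonneg_left s3 (by linarith : (0 : ℝ) ≤ (1 + ω) / 2)
    linarith
  have hind : ∀ s, s ≤ K → Sj s ≤ ((1 + ω) / 2) ^ s + 2 * s * E := by
    intro s
    induction s with
    | zero =>
      intro _
      refine hS0.trans ?_
      simp
    | succ s ih =>
      intro hs
      have h3 := ih (by omega)
      have h4 := hrec s hs
      have h5 : (0 : ℝ) ≤ s := Nat.cast_nonneg s
      have h6 : 0 ≤ 2 * (s : ℝ) * E := mul_nonneg (by linarith) hE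
      have h7 := mul_le_mul_of_nonneg_left h3 (by linarith : (0 : ℝ) ≤ (1 + ω) / 2)
      have h8 : (1 + ω) / 2 * (2 * (s : ℝ) * E) ≤ 1 * (2 * (s : ℝ) * E) :=
        mul_le_mul_of_nonneg_right (by linarith) h6
      rw [pow_succ]
      push_cast
      nlinarith
  have hfin := hind K le_rfl
  have hEK : 2 * (K : ℝ) * E = ∑ i ∈ (Finset.Ico i₀ i₁).filter (fun i => v ≤ i),
      2 * K * ((i : ℝ) + 1) ^ (m + K) * fl i := by
    show 2 * (K : ℝ) * ∑ i ∈ Finset.Ico i₀ i₁, ((i : ℝ) + 1) ^ (m + K) *
      (if v ≤ i then fl i else 0) = _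
    rw [Finset.mul_sum, Finset.sum_filter]
    refine Finset.sum_congr rfl fun i _ => ?_
    by_cases hi : v ≤ i
    · rw [if_pos hi, if_pos hi]
      ring
    · rw [if_neg hi, if_neg hi]
      ring
  rw [hEK] at hfin
  refine le_trans (le_of_eq ?_) hfin
  show _ = ∑ X ∈ (Finset.Ico i₀ i₁).powersetCard (m + K),
    Ex unif (fun a : I → Bool => ind (bX f i₀ X a) * F a X)
  rw [← Ex_sum]
  refine congrArg (Ex unif) ?_
  funext a
  rw [Finset.sum_filter]
  refine Finset.sum_congr rfl fun X _ => ?_
  show (if ∀ i ∈ topK m X, v ≤ i then ind (bX f i₀ X a) * ∏ i ∈ topK m X, pi i a else 0) =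
    ind (bX f i₀ X a) * (if ∀ i ∈ topK m X, v ≤ i then ∏ i ∈ topK m X, pi i a else 0)
  by_cases hv : ∀ i ∈ topK m X, v ≤ i
  · rw [if_pos hv, if_pos hv]
  · rw [if_neg hv, if_neg hv, mul_zero]

end Pool.Agent.H861R4.IM
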