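import Pool.Agent.H861R4.IM.Defs4
import Pool.Agent.H620R2.Gauge.S

/-! Task UD: the uniform bound for the last elements. -/

namespace Pool.Agent.H861R4.IM

open Pool.Agent.NPC Finset H568R2 Pool.Agent.H676 Pool.Agent.H620R2.Gauge MeasureTheory

theorem UD_sum (i₀ : ℕ) (h : 1 ≤ i₀) (d : ℕ) :
    ∑ i ∈ Finset.Ico i₀ (i₀ + d), 1 / ((i : ℝ) * (i + 1)) = 1 / (i₀ : ℝ) - 1 / ((i₀ : ℝ) + d) := by
  induction d with
  | zero => simp
  | succ d ih =>
    rw [← add_assoc, Finset.sum_Ico_succ_top (by omega), ih]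
    have h1 : (0 : ℝ) < (i₀ : ℝ) + d := by
      have : (1 : ℝ) ≤ i₀ := by exact_mod_cast h
      positivity
    have h2 : (0 : ℝ) < (i₀ : ℝ) + d + 1 := by linarith
    have h3 : (0 : ℝ) < (i₀ : ℝ) := by
      have : (1 : ℝ) ≤ i₀ := by exact_mod_cast h
      linarith
    push_cast
    rw [← add_assoc]
    field_simp
    ring

theorem UD_sum_le (i₀ i₁ : ℕ) (h : 1 ≤ i₀) :
    ∑ i ∈ Finset.Ico i₀ i₁, 1 / ((i : ℝ) * (i + 1)) ≤ 1 / (i₀ : ℝ) := by
  rcases le_total i₁ i₀ with h1 | h1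
  · rw [Finset.Ico_eq_empty (by omega), Finset.sum_empty]
    positivity
  · obtain ⟨d, rfl⟩ := Nat.exists_eq_add_of_le h1
    rw [UD_sum i₀ h d]
    have : (0 : ℝ) ≤ 1 / ((i₀ : ℝ) + d) := by positivity
    linarith

theorem UD_base (t k : ℕ) (ht : 1 ≤ t) : 0 ≤ 1 - (1 / (24 * (t : ℝ))) ^ (k + 1) ∧
    1 - (1 / (24 * (t : ℝ))) ^ (k + 1) ≤ 1 := by
  have ht' : (1 : ℝ) ≤ t := by exact_mod_cast ht
  have h1 : (1 / (24 * (t : ℝ))) ^ (k + 1) ≤ 1 := by
    apply pow_le_one₀ (by positivity)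
    rw [div_le_one (by positivity)]
    linarith
  have h2 : 0 ≤ (1 / (24 * (t : ℝ))) ^ (k + 1) := by positivity
  constructor <;> linarith

theorem UD_er_nonneg (k L t r n : ℕ) (ht : 1 ≤ t) : 0 ≤ er k L t r n := by
  obtain ⟨hb0, hb1⟩ := UD_base t k ht
  have h2 : 0 ≤ (1 - (1 / (24 * (t : ℝ))) ^ (k + 1)) ^ (2 ^ n / (r + 1)) :=
    pow_nonneg hb0 _
  unfold er
  positivity

theorem UD_er_mono (k L t r r' n : ℕ) (ht : 1 ≤ t) (h : r ≤ r') :
    er k L t r n ≤ er k L t r' n := by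
  obtain ⟨hb0, hb1⟩ := UD_base t k ht
  have h1 : (1 - (1 / (24 * (t : ℝ))) ^ (k + 1)) ^ (2 ^ n / (r + 1)) ≤
      (1 - (1 / (24 * (t : ℝ))) ^ (k + 1)) ^ (2 ^ n / (r' + 1)) :=
    pow_le_pow_of_le_one hb0 hb1 (Nat.div_le_div_left (by omega) (by omega))
  have h2 : (r : ℝ) + 1 ≤ (r' : ℝ) + 1 := by exact_mod_cast Nat.add_le_add_right h 1
  unfold er
  have h3 := mul_le_mul h2 h1 (pow_nonneg hb0 _) (by positivity)
  linarith

theorem UD_term (D K m i v n q : ℕ) (hv : 1 ≤ v) (hi : v ≤ i) (hn : i + 1 < 2 ^ (n + 1))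
    (hm : m + K ≤ D * (n + 1))
    (hq : q = 2 * (D * (n + 1)) + 1 + D * (n + 1) * (n + 1) + 3 * (n + 1)) (e : ℝ) (he0 : 0 ≤ e)
    (he : e * 2 ^ q ≤ 1) :
    2 ^ K * (2 * (K : ℝ) * ((i : ℝ) + 1) ^ (m + K) * e) ≤
      1 / (v : ℝ) * (1 / ((i : ℝ) * (i + 1))) := by
  have hv0 : (0 : ℝ) < v := by exact_mod_cast hv
  have hi0 : (0 : ℝ) < i := by exact_mod_cast (by omega : 0 < i)
  have hvi : (v : ℝ) ≤ i := by exact_mod_cast hi
  have h1 : ((i : ℝ) + 1) ≤ 2 ^ (n + 1) := by exact_mod_cast hn.le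
  have hK : (K : ℝ) ≤ 2 ^ K := by exact_mod_cast Nat.lt_two_pow_self.le
  have h2 : ((i : ℝ) + 1) ^ (m + K) ≤ 2 ^ ((n + 1) * (m + K)) := by
    rw [pow_mul]
    exact pow_le_pow_left₀ (by positivity) h1 _
  have h3 : (v : ℝ) * ((i : ℝ) * (i + 1)) ≤ 2 ^ (3 * (n + 1)) := by
    have e3 : (2 : ℝ) ^ (3 * (n + 1)) = 2 ^ (n + 1) * (2 ^ (n + 1) * 2 ^ (n + 1)) := by
      rw [← pow_add, ← pow_add]
      congr 1
      ring
    rw [e3]
    apply mul_le_mul (by linarith) _ (by positivity) (by positivity)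
    exact mul_le_mul (by linarith) h1 (by positivity) (by positivity)
  have h4 : (2 : ℝ) ^ (K + (K + 1) + (n + 1) * (m + K) + 3 * (n + 1)) * e ≤ 1 := by
    have h5 : K + (K + 1) + (n + 1) * (m + K) + 3 * (n + 1) ≤ q := by
      have h6 : (n + 1) * (m + K) ≤ (n + 1) * (D * (n + 1)) := Nat.mul_le_mul_left _ hm
      have h7 : (n + 1) * (D * (n + 1)) = D * (n + 1) * (n + 1) := by ring
      omega
    calc _ ≤ 2 ^ q * e :=
          mul_le_mul_of_nonneg_right (pow_le_pow_right₀ (by norm_num) h5) he0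
      _ ≤ 1 := by linarith
  rw [div_mul_div_comm, one_mul, le_div_iff₀ (by positivity)]
  calc 2 ^ K * (2 * (K : ℝ) * ((i : ℝ) + 1) ^ (m + K) * e) * (v * (i * (i + 1)))
      ≤ 2 ^ K * (2 * 2 ^ K * 2 ^ ((n + 1) * (m + K)) * e) * 2 ^ (3 * (n + 1)) := by
        gcongr
    _ = 2 ^ (K + (K + 1) + (n + 1) * (m + K) + 3 * (n + 1)) * e := by
        rw [pow_add, pow_add, pow_add, pow_add]
        ring
    _ ≤ 1 := h4

theorem t_UD (h1 : St_CT) (h2 : St_NUM) : St_UD := by
  classical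
  intro M p k c D η hη
  set L : Polynomial ℕ := Polynomial.X + Polynomial.C k * (2 * p + 1) with hL
  set Q : Polynomial ℕ := 2 * (Polynomial.C D * (Polynomial.X + 1)) + 1 +
    Polynomial.C D * (Polynomial.X + 1) * (Polynomial.X + 1) + 3 * (Polynomial.X + 1) with hQ
  set P : Polynomial ℕ := M.p.comp L + 2 * L + 2 * Polynomial.X + Q + Polynomial.C k + 10
    with hP
  set R : Polynomial ℕ := (Polynomial.C D * (Polynomial.X + 1) + 1) * P with hR
  have eL : ∀ n, L.eval n = Lb p k n := by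
    intro n
    simp [hL, Lb]
  have eQ : ∀ n, Q.eval n = 2 * (D * (n + 1)) + 1 + D * (n + 1) * (n + 1) + 3 * (n + 1) := by
    intro n
    simp [hQ]
  have eP : ∀ n, P.eval n = M.p.eval (Lb p k n) + 2 * Lb p k n + 2 * n + Q.eval n + k + 10 := by
    intro n
    simp only [hP, Polynomial.eval_add, Polynomial.eval_mul, Polynomial.eval_comp,
      Polynomial.eval_X, Polynomial.eval_C, Polynomial.eval_ofNat, eL]
  have eR : ∀ n, R.eval n = (D * (n + 1) + 1) * P.eval n := by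
    intro n
    simp [hR]
  have hP1 : ∀ n, 1 ≤ P.eval n := by
    intro n
    rw [eP]
    omega
  obtain ⟨n₀, hn₀⟩ := Filter.eventually_atTop.1 (h2 k L P R Q hP1 (by
    intro n
    rw [eP, eL]
    omega))
  clear_value L Q P R
  refine ⟨2 ^ n₀, Nat.one_le_two_pow, ?_⟩
  intro v hv m K hmK i₀ i₁ N hN
  have hv1 : 1 ≤ v := le_trans Nat.one_le_two_pow hv
  have hc := h1 M p k N i₀ i₁ m K v str (fun n => n) (fun n => P.eval n) c η hη hN
    (fun _ _ => le_rfl) monotone_id hP1 (by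
      intro n
      simp only [eP]
      omega)
  refine hc.trans ?_
  have hs : 2 ^ K * ∑ i ∈ (Finset.Ico i₀ i₁).filter (fun i => v ≤ i),
        2 * (K : ℝ) * ((i : ℝ) + 1) ^ (m + K) *
        er k (Lb p k (str i).length) (P.eval (str i).length)
          ((m + K + 1) * P.eval (str i).length) (str i).length ≤ 1 / (v : ℝ) ^ 2 := by
    rw [Finset.mul_sum]
    have hs1 : ∑ i ∈ (Finset.Ico i₀ i₁).filter (fun i => v ≤ i),
        2 ^ K * (2 * (K : ℝ) * ((i : ℝ) + 1) ^ (m + K) *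
        er k (Lb p k (str i).length) (P.eval (str i).length)
          ((m + K + 1) * P.eval (str i).length) (str i).length) ≤
        ∑ i ∈ (Finset.Ico i₀ i₁).filter (fun i => v ≤ i),
          1 / (v : ℝ) * (1 / ((i : ℝ) * (i + 1))) := by
      apply Finset.sum_le_sum
      intro i hi
      rw [Finset.mem_filter, Finset.mem_Ico] at hi
      have hlog : n₀ ≤ (str i).length := by
        rw [length_str]
        exact Nat.le_log_of_pow_le (by norm_num) (by omega)
      have hmono : (str v).length ≤ (str i).length := by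
        rw [length_str, length_str]
        exact Nat.log_mono_right (by omega)
      have hlt : i + 1 < 2 ^ ((str i).length + 1) := by
        rw [length_str]
        exact Nat.lt_pow_succ_log_self (by norm_num) _
      have hm : m + K ≤ D * ((str i).length + 1) :=
        hmK.trans (Nat.mul_le_mul_left _ (by omega))
      have h3 := hn₀ _ hlog
      rw [eL, eR] at h3
      have h5 := UD_er_mono k (Lb p k (str i).length) (P.eval (str i).length)
        ((m + K + 1) * P.eval (str i).length)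
        ((D * ((str i).length + 1) + 1) * P.eval (str i).length) (str i).length (hP1 _)
        (Nat.mul_le_mul_right _ (by omega))
      refine UD_term D K m i v (str i).length (Q.eval (str i).length) hv1 hi.2 hlt hm (eQ _) _
        (UD_er_nonneg _ _ _ _ _ (hP1 _)) ?_
      exact (mul_le_mul_of_nonneg_right h5 (by positivity)).trans h3
    refine hs1.trans ?_
    have hs2 : ∑ i ∈ (Finset.Ico i₀ i₁).filter (fun i => v ≤ i),
          1 / (v : ℝ) * (1 / ((i : ℝ) * (i + 1))) ≤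
        ∑ i ∈ Finset.Ico v i₁, 1 / (v : ℝ) * (1 / ((i : ℝ) * (i + 1))) := by
      apply Finset.sum_le_sum_of_subset_of_nonneg
      · intro i hi
        rw [Finset.mem_filter, Finset.mem_Ico] at hi
        rw [Finset.mem_Ico]
        exact ⟨hi.2, hi.1.2⟩
      · intro i _ _
        positivity
    refine hs2.trans ?_
    rw [← Finset.mul_sum]
    calc _ ≤ 1 / (v : ℝ) * (1 / (v : ℝ)) :=
          mul_le_mul_of_nonneg_left (UD_sum_le v i₁ hv1) (by positivity)
      _ = 1 / (v : ℝ) ^ 2 := by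
          rw [div_mul_div_comm, one_mul, sq]
  exact add_le_add le_rfl hs

end Pool.Agent.H861R4.IM
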