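import Pool.Agent.H861R4.IM.Defs4
import Pool.Agent.H620R2.Gauge.S

/-! UF: frequency for one description (helper63). -/

set_option autoImplicit false

namespace Pool.Agent.H861R4.IM

open Pool.Agent.NPC Finset H568R2 Pool.Agent.H676 Pool.Agent.H620R2.Gauge MeasureTheory

theorem UF_topK_image (x : ℕ → ℕ) (hx : StrictMono x) (m K : ℕ) :
    topK m ((Finset.range (m + K)).image x) = (Finset.Ico m (m + K)).image x := by
  have key : ∀ j < m + K,
      (((Finset.range (m + K)).image x).filter (fun i => i < x j)).card = j := by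
    intro j hj
    have e : ((Finset.range (m + K)).image x).filter (fun i => i < x j) =
        (Finset.range j).image x := by
      ext i
      simp only [Finset.mem_filter, Finset.mem_image, Finset.mem_range]
      constructor
      · rintro ⟨⟨a, _, rfl⟩, h⟩
        exact ⟨a, hx.lt_iff_lt.1 h, rfl⟩
      · rintro ⟨a, ha, rfl⟩
        exact ⟨⟨a, by omega, rfl⟩, hx ha⟩
    rw [e, Finset.card_image_of_injective _ hx.injective, Finset.card_range]
  ext i
  unfold topK
  rw [Finset.mem_filter]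
  constructor
  · rintro ⟨h1, h2⟩
    obtain ⟨j, hj, rfl⟩ := Finset.mem_image.1 h1
    rw [key j (Finset.mem_range.1 hj)] at h2
    exact Finset.mem_image_of_mem x (Finset.mem_Ico.2 ⟨h2, Finset.mem_range.1 hj⟩)
  · intro h
    obtain ⟨j, hj, rfl⟩ := Finset.mem_image.1 h
    rw [Finset.mem_Ico] at hj
    refine ⟨Finset.mem_image_of_mem x (Finset.mem_range.2 hj.2), ?_⟩
    rw [key j hj.2]
    exact hj.1

theorem UF_topK_zero (X : Finset ℕ) : topK 0 X = X := by
  unfold topK
  exact Finset.filter_true_of_mem fun _ _ => Nat.zero_le _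

theorem UF_gap (x : ℕ → ℕ) (hx : StrictMono x) (a b j : ℕ) (haj : a ≤ j)
    (h : x j < ((Finset.Ico a b).image x).sup id) : x j ∈ (Finset.Ico a b).image x := by
  rw [Finset.lt_sup_iff] at h
  obtain ⟨y, hy, hjy⟩ := h
  obtain ⟨j', hj', rfl⟩ := Finset.mem_image.1 hy
  have h1 : j < j' := hx.lt_iff_lt.1 hjy
  rw [Finset.mem_Ico] at hj'
  exact Finset.mem_image_of_mem x (Finset.mem_Ico.2 ⟨haj, by omega⟩)

open Classical in
theorem UF_card (x : ℕ → ℕ) (hx : StrictMono x) (P : ℕ → Prop) (S : Finset ℕ) :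
    ((S.image x).filter P).card = (S.filter (fun j => P (x j))).card := by
  rw [Finset.filter_image, Finset.card_image_of_injective _ hx.injective]

theorem UF_str_mono {a b : ℕ} (h : a ≤ b) : (str a).length ≤ (str b).length := by
  rw [length_str, length_str]
  exact Nat.log_mono_right (by omega)

open Classical in
theorem UF_det (h2 : St_PT) (Q P : ℕ → Prop) (hinf : (setOf Q).Infinite) (r : ℕ) (hr : 1 ≤ r)
    (v : ℕ → ℕ) (hv : ∀ m, (str (v m)).length ≤ (2 * m + 1) / (2 * r ^ 3) + 1) (sd ss : ℕ)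
    (hd : ∀ s, sd ≤ s → ∀ X : Finset ℕ, X.card = 0 + r ^ 2 * ((str s).length + 1) →
      (∀ i ∈ X, s ≤ i) → (∀ i ∈ topK 0 X, s ≤ i) → (∀ i ∈ X, Q i) →
      (∀ i ∈ Finset.Ico s (X.sup id), i ∉ X → ¬ Q i) →
      (((topK 0 X).filter P).card : ℝ) <
        (1 / 2 + 1 / (r : ℝ)) * ((r ^ 2 * ((str s).length + 1) : ℕ) : ℝ))
    (hs : ∀ s, ss ≤ s → ∀ X : Finset ℕ, X.card = s + (s / r + 1) →
      (∀ i ∈ X, 0 ≤ i) → (∀ i ∈ topK s X, v s ≤ i) → (∀ i ∈ X, Q i) →
      (∀ i ∈ Finset.Ico 0 (X.sup id), i ∉ X → ¬ Q i) →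
      (((topK s X).filter P).card : ℝ) < (1 / 2 + 1 / (r : ℝ)) * ((s / r + 1 : ℕ) : ℝ)) :
    ∃ C₀ : ℕ, ∀ N : ℕ, (((Finset.range N).filter (fun i => Q i ∧ P i)).card : ℝ) ≤
      (1 / 2 + 2 / (r : ℝ)) * (((Finset.range N).filter Q).card : ℝ) + C₀ := by
  obtain ⟨x, hxd⟩ : ∃ x : ℕ → ℕ, x = Nat.nth Q := ⟨_, rfl⟩
  have hx : StrictMono x := by rw [hxd]; exact Nat.nth_strictMono hinf
  have hxQ : ∀ j, Q (x j) := fun j => by rw [hxd]; exact Nat.nth_mem_of_infinite hinf j
  have hsurj : ∀ i, Q i → ∃ j, x j = i := fun i hi => by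
    rw [hxd]; exact ⟨Nat.count Q i, Nat.nth_count hi⟩
  have hr0 : (0 : ℝ) < r := by exact_mod_cast hr
  have hPT := h2 (fun j => P (x j)) (1 / 2 + 1 / (r : ℝ)) r (max sd ss) (2 * r ^ 2 + 1) hr
    (by positivity) (by
      intro m hm
      have hmd : sd ≤ m := (le_max_left _ _).trans hm
      have hms : ss ≤ m := (le_max_right _ _).trans hm
      by_cases hc : v m ≤ x m
      · -- sparse block
        refine ⟨m / r + 1, Nat.le_add_left 1 _, ?_, ?_⟩
        · have h3 : ((m / r : ℕ) : ℝ) ≤ (m : ℝ) / r := Nat.cast_div_le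
          have h4 : (0 : ℝ) ≤ (r : ℝ) ^ 2 := by positivity
          push_cast
          linarith
        · have h3 := hs m hms ((Finset.range (m + (m / r + 1))).image x)
            (by rw [Finset.card_image_of_injective _ hx.injective, Finset.card_range])
            (fun _ _ => Nat.zero_le _)
            (by
              intro i hi
              rw [UF_topK_image x hx] at hi
              obtain ⟨j, hj, rfl⟩ := Finset.mem_image.1 hi
              exact hc.trans (hx.monotone (Finset.mem_Ico.1 hj).1))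
            (by
              intro i hi
              obtain ⟨j, _, rfl⟩ := Finset.mem_image.1 hi
              exact hxQ j)
            (by
              intro i hi hni hQ
              obtain ⟨j, rfl⟩ := hsurj i hQ
              apply hni
              rw [Finset.range_eq_Ico] at hi ⊢
              exact UF_gap x hx 0 _ j (Nat.zero_le _) (Finset.mem_Ico.1 hi).2)
          rw [UF_topK_image x hx, UF_card x hx] at h3
          exact h3.le
      · -- dense block
        have hc' : x m ≤ v m := by omega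
        refine ⟨r ^ 2 * ((str (x m)).length + 1), ?_, ?_, ?_⟩
        · exact Nat.mul_pos (pow_pos (by omega) 2) (by omega)
        · have h3 : (str (x m)).length ≤ (2 * m + 1) / (2 * r ^ 3) + 1 :=
            (UF_str_mono hc').trans (hv m)
          have h4 : (((2 * m + 1) / (2 * r ^ 3) : ℕ) : ℝ) ≤
              ((2 * m + 1 : ℕ) : ℝ) / ((2 * r ^ 3 : ℕ) : ℝ) := Nat.cast_div_le
          have h5 : ((str (x m)).length : ℝ) ≤ (((2 * m + 1) / (2 * r ^ 3) : ℕ) : ℝ) + 1 := by
            exact_mod_cast h3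
          have h6 : ((str (x m)).length : ℝ) + 1 ≤ (2 * (m : ℝ) + 1) / (2 * (r : ℝ) ^ 3) + 2 := by
            push_cast at h4 h5 ⊢
            linarith
          have h7 : (r : ℝ) ^ 2 * (((str (x m)).length : ℝ) + 1) ≤
              (r : ℝ) ^ 2 * ((2 * (m : ℝ) + 1) / (2 * (r : ℝ) ^ 3) + 2) :=
            mul_le_mul_of_nonneg_left h6 (by positivity)
          have h8 : (r : ℝ) ^ 2 * ((2 * (m : ℝ) + 1) / (2 * (r : ℝ) ^ 3) + 2) =
              (m : ℝ) / r + 1 / (2 * r) + 2 * (r : ℝ) ^ 2 := by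
            field_simp
          have h9 : 1 / (2 * (r : ℝ)) ≤ 1 := by
            rw [div_le_one (by positivity)]
            have : (1 : ℝ) ≤ r := by exact_mod_cast hr
            linarith
          push_cast
          linarith
        · have h3 := hd (x m) (hmd.trans (hx.le_apply))
            ((Finset.Ico m (m + r ^ 2 * ((str (x m)).length + 1))).image x)
            (by
              rw [Finset.card_image_of_injective _ hx.injective, Nat.card_Ico,
                Nat.add_sub_cancel_left, Nat.zero_add])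
            (by
              intro i hi
              obtain ⟨j, hj, rfl⟩ := Finset.mem_image.1 hi
              exact hx.monotone (Finset.mem_Ico.1 hj).1)
            (by
              intro i hi
              rw [UF_topK_zero] at hi
              obtain ⟨j, hj, rfl⟩ := Finset.mem_image.1 hi
              exact hx.monotone (Finset.mem_Ico.1 hj).1)
            (by
              intro i hi
              obtain ⟨j, _, rfl⟩ := Finset.mem_image.1 hi
              exact hxQ j)
            (by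
              intro i hi hni hQ
              obtain ⟨j, rfl⟩ := hsurj i hQ
              apply hni
              rw [Finset.mem_Ico] at hi
              exact UF_gap x hx m _ j (hx.le_iff_le.1 hi.1) hi.2)
          rw [UF_topK_zero, UF_card x hx] at h3
          exact h3.le)
  refine ⟨max sd ss + (2 * r ^ 2 + 1), ?_⟩
  intro N
  obtain ⟨m, hm⟩ : ∃ m : ℕ, m = ((Finset.range N).filter Q).card := ⟨_, rfl⟩
  have hcount : m = Nat.count Q N := by
    rw [hm, Nat.count_eq_card_filter_range]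
  have hlt : ∀ j, x j < N ↔ j < m := by
    intro j
    rw [hcount, hxd]
    exact (Nat.lt_nth_iff_count_lt hinf).symm
  have he : (Finset.range N).filter (fun i => Q i ∧ P i) =
      ((Finset.range m).filter (fun j => P (x j))).image x := by
    ext i
    simp only [Finset.mem_filter, Finset.mem_image, Finset.mem_range]
    constructor
    · rintro ⟨h3, h4, h5⟩
      obtain ⟨j, rfl⟩ := hsurj i h4
      exact ⟨j, ⟨(hlt j).1 h3, h5⟩, rfl⟩
    · rintro ⟨j, ⟨h3, h4⟩, rfl⟩
      exact ⟨(hlt j).2 h3, hxQ j, h4⟩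
  rw [he, Finset.card_image_of_injective _ hx.injective, ← hm]
  refine (hPT m).trans (le_of_eq ?_)
  push_cast
  field_simp
  ring

/-- the threshold -/
def UF_v (r s : ℕ) : ℕ := 2 ^ ((2 * s + 1) / (2 * r ^ 3) + 1) - 1

theorem UF_v_len (r s : ℕ) : (str (UF_v r s)).length = (2 * s + 1) / (2 * r ^ 3) + 1 := by
  unfold UF_v
  rw [length_str, Nat.sub_add_cancel (Nat.one_le_two_pow), Nat.log_pow (by norm_num)]

theorem UF_v_ge (r s : ℕ) : (2 * s + 1) / (2 * r ^ 3) + 1 ≤ UF_v r s := by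
  unfold UF_v
  generalize (2 * s + 1) / (2 * r ^ 3) = a
  have h1 : a < 2 ^ a := Nat.lt_two_pow_self
  rw [pow_succ]
  omega

theorem UF_v_real (r s : ℕ) (hr : 1 ≤ r) : ((s : ℝ) + 1) / (2 * (r : ℝ) ^ 3) ≤ UF_v r s := by
  have hr3 : 0 < 2 * r ^ 3 := Nat.mul_pos (by norm_num) (pow_pos (by omega) 3)
  have h1 : 2 * s + 1 < (2 * r ^ 3) * ((2 * s + 1) / (2 * r ^ 3) + 1) :=
    Nat.lt_mul_div_succ _ hr3
  have h2 : (2 * r ^ 3) * ((2 * s + 1) / (2 * r ^ 3) + 1) ≤ (2 * r ^ 3) * UF_v r s :=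
    Nat.mul_le_mul_left _ (UF_v_ge r s)
  have h3 : s + 1 ≤ (2 * r ^ 3) * UF_v r s := by omega
  have h4 : ((s : ℝ) + 1) ≤ (2 * (r : ℝ) ^ 3) * UF_v r s := by exact_mod_cast h3
  have hr0 : (0 : ℝ) < 2 * (r : ℝ) ^ 3 := by exact_mod_cast hr3
  rw [div_le_iff₀ hr0]
  linarith

theorem UF_tendsto (r : ℕ) (hr : 1 ≤ r) :
    Filter.Tendsto (UF_v r) Filter.atTop Filter.atTop := by
  rw [Filter.tendsto_atTop]
  intro b
  filter_upwards [Filter.eventually_ge_atTop (b * r ^ 3)] with s hs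
  have hr3 : 0 < 2 * r ^ 3 := Nat.mul_pos (by norm_num) (pow_pos (by omega) 3)
  have h1 : b ≤ (2 * s + 1) / (2 * r ^ 3) := by
    rw [Nat.le_div_iff_mul_le hr3]
    nlinarith
  have h2 := UF_v_ge r s
  omega

theorem UF_sum_sq : Summable (fun s : ℕ => 1 / ((s : ℝ) + 1) ^ 2) := by
  have h : Summable (fun s : ℕ => 1 / ((s : ℝ)) ^ 2) :=
    Real.summable_one_div_nat_pow.2 one_lt_two
  have h2 := (summable_nat_add_iff 1).2 h
  refine h2.congr fun s => ?_
  push_cast
  rfl

theorem UF_S1 (r : ℕ) (hr : 1 ≤ r) : Summable (fun s : ℕ =>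
    Real.exp (-2 * (1 / (r : ℝ)) ^ 2 * ((r ^ 2 * ((str s).length + 1) : ℕ) : ℝ))) := by
  refine Summable.of_nonneg_of_le (fun s => (Real.exp_pos _).le) (fun s => ?_) UF_sum_sq
  have hr0 : (0 : ℝ) < r := by exact_mod_cast hr
  obtain ⟨L, hL⟩ : ∃ L : ℕ, L = (str s).length := ⟨_, rfl⟩
  rw [← hL]
  have e1 : -2 * (1 / (r : ℝ)) ^ 2 * ((r ^ 2 * (L + 1) : ℕ) : ℝ) = -(2 * ((L : ℝ) + 1)) := by
    push_cast
    field_simp
  rw [e1, Real.exp_neg, ← one_div]
  have h1 : s + 1 < 2 ^ (L + 1) := by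
    rw [hL, length_str]
    exact Nat.lt_pow_succ_log_self (by norm_num) _
  have h2 : (s : ℝ) + 1 ≤ 2 ^ (L + 1) := by exact_mod_cast h1.le
  have h3 : (2 : ℝ) ≤ Real.exp 1 := by
    have := Real.add_one_le_exp (1 : ℝ)
    linarith
  have h4 : (2 : ℝ) ^ (L + 1) ≤ Real.exp 1 ^ (L + 1) := pow_le_pow_left₀ (by norm_num) h3 _
  have h5 : Real.exp 1 ^ (L + 1) = Real.exp ((L : ℝ) + 1) := by
    rw [← Real.exp_nat_mul]
    congr 1
    push_cast
    ring
  have h6 : (s : ℝ) + 1 ≤ Real.exp ((L : ℝ) + 1) := by linarith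
  have h7 : Real.exp (2 * ((L : ℝ) + 1)) = Real.exp ((L : ℝ) + 1) ^ 2 := by
    rw [← Real.exp_nat_mul]
    norm_num
  rw [h7]
  have h8 : (0 : ℝ) < (s : ℝ) + 1 := by positivity
  exact one_div_le_one_div_of_le (by positivity) (pow_le_pow_left₀ h8.le h6 2)

theorem UF_S3 (r : ℕ) (hr : 1 ≤ r) : Summable (fun s : ℕ =>
    Real.exp (-2 * (1 / (r : ℝ)) ^ 2 * ((s / r + 1 : ℕ) : ℝ))) := by
  have hr0 : (0 : ℝ) < r := by exact_mod_cast hr
  have hg : Summable (fun s : ℕ => (Real.exp (-(2 / (r : ℝ) ^ 3))) ^ s) := by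
    apply summable_geometric_of_lt_one (Real.exp_pos _).le
    rw [Real.exp_lt_one_iff]
    have : 0 < 2 / (r : ℝ) ^ 3 := by positivity
    linarith
  refine Summable.of_nonneg_of_le (fun s => (Real.exp_pos _).le) (fun s => ?_) hg
  rw [← Real.exp_nat_mul]
  apply Real.exp_le_exp.2
  have h1 : s < r * (s / r + 1) := Nat.lt_mul_div_succ s (by omega)
  have h2 : (s : ℝ) ≤ r * ((s / r + 1 : ℕ) : ℝ) := by exact_mod_cast h1.le
  generalize ((s / r + 1 : ℕ) : ℝ) = K at h2 ⊢
  have h3 : -2 * (1 / (r : ℝ)) ^ 2 * K = -((2 / (r : ℝ) ^ 3) * (r * K)) := by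
    field_simp
  have h4 : (2 / (r : ℝ) ^ 3) * s ≤ (2 / (r : ℝ) ^ 3) * (r * K) :=
    mul_le_mul_of_nonneg_left h2 (by positivity)
  rw [h3]
  linarith

theorem UF_S4 (r : ℕ) (hr : 1 ≤ r) : Summable (fun s : ℕ => 1 / ((UF_v r s : ℕ) : ℝ) ^ 2) := by
  have hr0 : (0 : ℝ) < r := by exact_mod_cast hr
  refine Summable.of_nonneg_of_le (fun s => by positivity) (fun s => ?_)
    (UF_sum_sq.mul_left ((2 * (r : ℝ) ^ 3) ^ 2))
  have h1 := UF_v_real r s hr
  have h2 : 0 < ((s : ℝ) + 1) / (2 * (r : ℝ) ^ 3) := by positivity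
  have h3 : (2 * (r : ℝ) ^ 3) ^ 2 * (1 / ((s : ℝ) + 1) ^ 2) =
      1 / (((s : ℝ) + 1) / (2 * (r : ℝ) ^ 3)) ^ 2 := by
    field_simp
  rw [h3]
  exact one_div_le_one_div_of_le (by positivity) (pow_le_pow_left₀ h2.le h1 2)

theorem t_UF (h1 : St_AE) (h2 : St_PT) : St_UF := by
  classical
  intro M p k c r hr
  have hr0 : (0 : ℝ) < r := by exact_mod_cast hr
  have hA := h1 M p k c (r ^ 2) (1 / (r : ℝ)) (fun s => s) (fun s => s) (fun _ => 0)
    (fun s => r ^ 2 * ((str s).length + 1)) (by positivity)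
    (fun s => by rw [zero_add]) Filter.tendsto_id (UF_S1 r hr)
    (Real.summable_one_div_nat_pow.2 one_lt_two)
  have hB := h1 M p k c (2 * r ^ 3) (1 / (r : ℝ)) (fun _ => 0) (UF_v r) (fun s => s)
    (fun s => s / r + 1) (by positivity)
    (fun s => by
      have hr3 : 0 < 2 * r ^ 3 := Nat.mul_pos (by norm_num) (pow_pos (by omega) 3)
      have h3 : 2 * s + 1 < (2 * r ^ 3) * ((2 * s + 1) / (2 * r ^ 3) + 1) :=
        Nat.lt_mul_div_succ _ hr3
      have h4 : s / r ≤ s := Nat.div_le_self _ _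
      rw [UF_v_len]
      have h5 : (2 * r ^ 3) * ((2 * s + 1) / (2 * r ^ 3) + 1) ≤
          (2 * r ^ 3) * ((2 * s + 1) / (2 * r ^ 3) + 1 + 1) :=
        Nat.mul_le_mul_left _ (by omega)
      omega)
    (UF_tendsto r hr) (UF_S3 r hr) (UF_S4 r hr)
  filter_upwards [hA, hB] with A hA' hB' hinf
  obtain ⟨sd, hsd⟩ := Filter.eventually_atTop.1 hA'
  obtain ⟨ss, hss⟩ := Filter.eventually_atTop.1 hB'
  obtain ⟨C₀, hC⟩ := UF_det h2 (fun i => QA M p k A i)
    (fun i => str i ∈ parLang A ↔ c = true) hinf r hr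
    (UF_v r) (fun m => (UF_v_len r m).le) sd ss
    (fun s hs X a1 a2 a3 a4 a5 => by
      have h3 := hsd s hs X a1 a2 a3 a4 a5
      convert h3)
    (fun s hs X a1 a2 a3 a4 a5 => by
      have h3 := hss s hs X a1 a2 a3 a4 a5
      convert h3)
  refine ⟨C₀, fun N => ?_⟩
  have h4 := hC N
  convert h4

end Pool.Agent.H861R4.IM
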