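import Pool.Agent.H861R4.IM.FinalB
import Pool.Agent.H861R4.IM.T_RC3
import Pool.Agent.H861R4.IM.T_RT
import Pool.Agent.H861R4.IM.T_CT
import Pool.Agent.H861R4.IM.T_UD
import Pool.Agent.H861R4.IM.T_AE
import Pool.Agent.H861R4.IM.T_PT
import Pool.Agent.H861R4.IM.T_UF
import Pool.Agent.H861R4.IM.T_FR

/-! The theorems of round 3. -/

namespace Pool.Agent.H861R4.IM

theorem main_FR : St_FR :=
  t_FR (t_UF (t_AE (t_UD (t_CT (t_RT t_RC3 t_RC2) (t_STP t_IND) (t_BX t_OR) t_SW) num)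
    t_BR t_TR) t_PT)

end Pool.Agent.H861R4.IM
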