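import Pool.Agent.H861R4.IM.Defs2

namespace Pool.Agent.H861R4.IM

open Pool.Agent.NPC Finset H568R2 Pool.Agent.H676 Pool.Agent.H620R2.Gauge MeasureTheory

theorem t_FST : St_FST := by
  intro I f a i₀ i₁ K hK
  classical
  have hex : ∃ i₂, K ≤ ((Finset.Ico i₀ i₂).filter (fun i => f i a = true)).card := ⟨i₁, hK⟩
  set i₂ := Nat.find hex with hi₂
  have h2 : K ≤ ((Finset.Ico i₀ i₂).filter (fun i => f i a = true)).card := Nat.find_spec hex
  have h3 : i₂ ≤ i₁ := Nat.find_min' hex hK
  have hcard : ((Finset.Ico i₀ i₂).filter (fun i => f i a = true)).card = K := by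
    refine le_antisymm ?_ h2
    rcases Nat.eq_zero_or_pos i₂ with h0 | h0
    · rw [h0]; simp
    · have h4 : ¬ K ≤ ((Finset.Ico i₀ (i₂ - 1)).filter (fun i => f i a = true)).card :=
        Nat.find_min hex (by omega)
      have h5 : (Finset.Ico i₀ i₂).filter (fun i => f i a = true) ⊆
          insert (i₂ - 1) ((Finset.Ico i₀ (i₂ - 1)).filter (fun i => f i a = true)) := by
        intro i hi
        simp only [Finset.mem_filter, Finset.mem_Ico, Finset.mem_insert] at hi ⊢
        by_cases h : i = i₂ - 1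
        · exact Or.inl h
        · exact Or.inr ⟨⟨hi.1.1, by omega⟩, hi.2⟩
      have h6 := (Finset.card_le_card h5).trans (Finset.card_insert_le _ _)
      omega
  refine ⟨(Finset.Ico i₀ i₂).filter (fun i => f i a = true), ?_, hcard, ?_⟩
  · intro i hi
    simp only [Finset.mem_filter, Finset.mem_Ico] at hi ⊢
    omega
  · unfold bX
    rw [decide_eq_true_eq]
    refine ⟨fun i hi => (Finset.mem_filter.1 hi).2, ?_⟩
    intro i hi hn
    have hsup : ((Finset.Ico i₀ i₂).filter (fun i => f i a = true)).sup id ≤ i₂ := by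
      apply Finset.sup_le
      intro j hj
      simp only [Finset.mem_filter, Finset.mem_Ico] at hj
      exact hj.1.2.le
    rw [Finset.mem_Ico] at hi
    by_contra h
    apply hn
    rw [Finset.mem_filter, Finset.mem_Ico]
    exact ⟨⟨hi.1, lt_of_lt_of_le hi.2 hsup⟩, by simpa using h⟩

end Pool.Agent.H861R4.IM
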